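import Mathlib

namespace Pool.Agent.Helper170.Arith

/-- position-j carry when adding m to itself in base r, for some j -/
def Carry (r : ℕ) (m : ℤ) : Prop := ∃ j : ℕ, 1 ≤ j ∧ (r : ℤ) ^ j ≤ 2 * (m % (r : ℤ) ^ j)

def mm (s : ℤ) : ℤ := 6 * s ^ 2 + s - 1

lemma mod_of_eq {m r2 w x : ℤ} (hm : m = r2 * w + x) (h0 : 0 ≤ x) (h1 : x < r2) :
    m % r2 = x := by
  rw [hm]
  rw [Int.mul_add_emod_self_left]
  exact Int.emod_eq_of_lt h0 h1

/-- factor 3s-1 -/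
lemma det2 {s r c : ℤ} (hr : 0 < r) (hc : 0 < c) (h : r * c = 3 * s - 1) (hcr : 5 * c < r) :
    r ^ 2 ≤ 2 * (mm s % r ^ 2) := by
  -- c not divisible by 3
  have hc3 : c % 3 = 1 ∨ c % 3 = 2 := by
    have h1 : c % 3 ≠ 0 := by
      intro h0
      obtain ⟨k, hk⟩ := Int.dvd_of_emod_eq_zero h0
      rw [hk] at h
      have : 3 * (r * k - s) = -1 := by linarith
      omega
    omega
  obtain ⟨w, hw⟩ : ∃ w, 2 * c ^ 2 = 3 * w + 2 := by
    rcases hc3 with h3 | h3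
    · obtain ⟨k, hk⟩ : ∃ k, c = 3 * k + 1 := ⟨c / 3, by omega⟩
      exact ⟨6 * k ^ 2 + 4 * k, by rw [hk]; ring⟩
    · obtain ⟨k, hk⟩ : ∃ k, c = 3 * k + 2 := ⟨c / 3, by omega⟩
      exact ⟨6 * k ^ 2 + 8 * k + 2, by rw [hk]; ring⟩
  -- 3 mm = r^2 (3w+2) + 5 r c
  have h3m : 3 * mm s = r ^ 2 * (3 * w + 2) + 5 * (r * c) := by
    have : 3 * mm s = 2 * (r * c) ^ 2 + 5 * (r * c) := by
      rw [h]; unfold mm; ring
    rw [this, ← hw]; ring
  set x := mm s - r ^ 2 * w with hx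
  have h3x : 3 * x = 2 * r ^ 2 + 5 * (r * c) := by rw [hx]; linarith
  have hrc : 0 < r * c := mul_pos hr hc
  have hlt : 5 * (r * c) < r ^ 2 := by nlinarith
  have hmod : mm s % r ^ 2 = x := by
    apply mod_of_eq (w := w) (by rw [hx]; ring)
    · nlinarith
    · nlinarith
  rw [hmod]
  nlinarith

/-- factor 3s+2 -/
lemma det3 {s r c : ℤ} (hr : 1 < r) (hc : 0 < c) (h : r * c = 3 * s + 2) (hcr : 14 * c ≤ r) :
    r ^ 2 ≤ 2 * (mm s % r ^ 2) := by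
  have hc3 : c % 3 = 1 ∨ c % 3 = 2 := by
    have h1 : c % 3 ≠ 0 := by
      intro h0
      obtain ⟨k, hk⟩ := Int.dvd_of_emod_eq_zero h0
      rw [hk] at h
      have : 3 * (r * k - s) = 2 := by linarith
      omega
    omega
  obtain ⟨w, hw⟩ : ∃ w, 2 * c ^ 2 = 3 * w + 2 := by
    rcases hc3 with h3 | h3
    · obtain ⟨k, hk⟩ : ∃ k, c = 3 * k + 1 := ⟨c / 3, by omega⟩
      exact ⟨6 * k ^ 2 + 4 * k, by rw [hk]; ring⟩
    · obtain ⟨k, hk⟩ : ∃ k, c = 3 * k + 2 := ⟨c / 3, by omega⟩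
      exact ⟨6 * k ^ 2 + 8 * k + 2, by rw [hk]; ring⟩
  have h3m : 3 * (mm s - 1) = r ^ 2 * (3 * w + 2) - 7 * (r * c) := by
    have : 3 * (mm s - 1) = 2 * (r * c) ^ 2 - 7 * (r * c) := by
      rw [h]; unfold mm; ring
    rw [this, ← hw]; ring
  set x := mm s - r ^ 2 * w with hx
  have h3x : 3 * x = 2 * r ^ 2 - 7 * (r * c) + 3 := by rw [hx]; linarith
  have hrc : 0 < r * c := mul_pos (by linarith) hc
  have hle : 14 * (r * c) ≤ r ^ 2 := by nlinarith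
  have hmod : mm s % r ^ 2 = x := by
    apply mod_of_eq (w := w) (by rw [hx]; ring)
    · nlinarith
    · nlinarith
  rw [hmod]
  nlinarith

/-- factor 2s-1 -/
lemma det4 {s r c : ℤ} (hr : 1 < r) (hc : 0 < c) (h : r * c = 2 * s - 1) (hcr : 7 * c < r) :
    r ^ 2 ≤ 2 * (mm s % r ^ 2) := by
  have hc2 : c % 2 = 1 := by
    have h1 : c % 2 ≠ 0 := by
      intro h0
      obtain ⟨k, hk⟩ := Int.dvd_of_emod_eq_zero h0
      rw [hk] at h
      have : 2 * (r * k - s) = -1 := by linarith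
      omega
    omega
  obtain ⟨w, hw⟩ : ∃ w, 3 * c ^ 2 = 2 * w + 1 := by
    obtain ⟨k, hk⟩ : ∃ k, c = 2 * k + 1 := ⟨c / 2, by omega⟩
    exact ⟨6 * k ^ 2 + 6 * k + 1, by rw [hk]; ring⟩
  have h2m : 2 * (mm s - 1) = r ^ 2 * (2 * w + 1) + 7 * (r * c) := by
    have : 2 * (mm s - 1) = 3 * (r * c) ^ 2 + 7 * (r * c) := by
      rw [h]; unfold mm; ring
    rw [this, ← hw]; ring
  set x := mm s - r ^ 2 * w with hx
  have h2x : 2 * x = r ^ 2 + 7 * (r * c) + 2 := by rw [hx]; linarith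
  have hrc : 0 < r * c := mul_pos (by linarith) hc
  have hlt : 7 * (r * c) + r ≤ r ^ 2 := by nlinarith
  have hmod : mm s % r ^ 2 = x := by
    apply mod_of_eq (w := w) (by rw [hx]; ring)
    · nlinarith
    · nlinarith
  rw [hmod]
  nlinarith

end Pool.Agent.Helper170.Arith
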