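import Mathlib

namespace Pool.Agent.Helper170.BadCount

open Finset
open scoped Classical in

theorem badcount (s0 Q T r : ℕ) (a b δ : ℤ)
    (hab : (a = 2 ∧ b = 1 ∧ δ = 0) ∨ (a = 3 ∧ b = -1 ∧ δ = 0) ∨
      (a = 3 ∧ b = 2 ∧ δ = 1) ∨ (a = 2 ∧ b = -1 ∧ δ = 1))
    (hr : r.Prime) (h7 : 7 < r) (hQ : ¬ r ∣ Q) :
    ∃ β γ : ℤ, ¬ (r : ℤ) ∣ β ∧ ∀ J : ℕ,
      ((Icc 1 T).filter (fun t : ℕ => (r : ℤ) ∣ a * ((s0 : ℤ) + Q * t) + b ∧
        ¬ ∃ j : ℕ, 1 ≤ j ∧ (r : ℤ) ^ j ≤
          2 * ((6 * ((s0 : ℤ) + Q * t) ^ 2 + ((s0 : ℤ) + Q * t) - 1) % (r : ℤ) ^ j))).card ≤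
      ((range (T / r + 1)).filter (fun c : ℕ => ∀ j ∈ Icc 1 J,
        2 * ((γ + β * c + (6 * (Q : ℤ) ^ 2) * r * (c : ℤ) ^ 2) % (r : ℤ) ^ j)
          < (r : ℤ) ^ j)).card := by
  have hrp : Prime (r : ℤ) := Nat.prime_iff_prime_int.mp hr
  have hr0 : (0 : ℤ) < r := by exact_mod_cast hr.pos
  have h7' : (7 : ℤ) < r := by exact_mod_cast h7
  have hQ' : ¬ (r : ℤ) ∣ (Q : ℤ) := by
    intro h; exact hQ (by exact_mod_cast h)
  have hsmall : ∀ m : ℤ, 0 < m → m ≤ 7 → ¬ (r : ℤ) ∣ m := by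
    intro m hm hm7 h
    have := Int.le_of_dvd hm h
    omega
  have ha : ¬ (r : ℤ) ∣ a := by
    rcases hab with h | h | h | h <;> rw [h.1] <;> apply hsmall <;> norm_num
  have hδ0 : 0 ≤ δ := by rcases hab with h | h | h | h <;> rw [h.2.2] <;> norm_num
  have hδ1 : δ < r := by rcases hab with h | h | h | h <;> rw [h.2.2] <;> linarith
  by_cases hex : ∃ t : ℕ, (r : ℤ) ∣ a * ((s0 : ℤ) + Q * t) + b
  · obtain ⟨t1, ht1⟩ := hex
    set t0 : ℕ := t1 % r with ht0
    have ht0r : t0 < r := Nat.mod_lt _ hr.pos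
    have hd0 : (r : ℤ) ∣ a * ((s0 : ℤ) + Q * t0) + b := by
      have h1 : (t1 : ℤ) = t0 + r * ((t1 / r : ℕ) : ℤ) := by
        have h0 := Nat.mod_add_div t1 r
        have h0' : ((t1 % r + r * (t1 / r) : ℕ) : ℤ) = (t1 : ℤ) := by rw [h0]
        rw [← h0', Nat.cast_add, Nat.cast_mul]
      rw [h1] at ht1
      have h2 : a * ((s0 : ℤ) + Q * (t0 + r * ((t1 / r : ℕ) : ℤ))) + b
          = a * ((s0 : ℤ) + Q * t0) + b + r * (a * Q * ((t1 / r : ℕ) : ℤ)) := by ring
      rw [h2] at ht1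
      exact (dvd_add_left (dvd_mul_right _ _)).mp ht1
    set S : ℤ := (s0 : ℤ) + Q * t0 with hS
    have hγ : (r : ℤ) ∣ 6 * S ^ 2 + S - 1 - δ := by
      rcases hab with ⟨h1, h2, h3⟩ | ⟨h1, h2, h3⟩ | ⟨h1, h2, h3⟩ | ⟨h1, h2, h3⟩ <;>
        subst h1 <;> subst h2 <;> subst h3
      · have : 6 * S ^ 2 + S - 1 - 0 = (2 * S + 1) * (3 * S - 1) := by ring
        rw [this]; exact Dvd.dvd.mul_right hd0 _
      · have : 6 * S ^ 2 + S - 1 - 0 = (3 * S + -1) * (2 * S + 1) := by ring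
        rw [this]; exact Dvd.dvd.mul_right hd0 _
      · have : 6 * S ^ 2 + S - 1 - 1 = (3 * S + 2) * (2 * S - 1) := by ring
        rw [this]; exact Dvd.dvd.mul_right hd0 _
      · have : 6 * S ^ 2 + S - 1 - 1 = (2 * S + -1) * (3 * S + 2) := by ring
        rw [this]; exact Dvd.dvd.mul_right hd0 _
    obtain ⟨γ, hγ⟩ := hγ
    refine ⟨Q * (12 * S + 1), γ, ?_, ?_⟩
    · intro h
      rcases hrp.dvd_or_dvd h with h | h
      · exact hQ' h
      · rcases hab with ⟨h1, h2, h3⟩ | ⟨h1, h2, h3⟩ | ⟨h1, h2, h3⟩ | ⟨h1, h2, h3⟩ <;>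
          subst h1 <;> subst h2 <;> subst h3
        · apply hsmall 5 (by norm_num) (by norm_num)
          have : (5 : ℤ) = 6 * (2 * S + 1) - (12 * S + 1) := by ring
          rw [this]; exact dvd_sub (Dvd.dvd.mul_left hd0 _) h
        · apply hsmall 5 (by norm_num) (by norm_num)
          have : (5 : ℤ) = (12 * S + 1) - 4 * (3 * S + -1) := by ring
          rw [this]; exact dvd_sub h (Dvd.dvd.mul_left hd0 _)
        · apply hsmall 7 (by norm_num) (by norm_num)
          have : (7 : ℤ) = 4 * (3 * S + 2) - (12 * S + 1) := by ring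
          rw [this]; exact dvd_sub (Dvd.dvd.mul_left hd0 _) h
        · apply hsmall 7 (by norm_num) (by norm_num)
          have : (7 : ℤ) = (12 * S + 1) - 6 * (2 * S + -1) := by ring
          rw [this]; exact dvd_sub h (Dvd.dvd.mul_left hd0 _)
    · intro J
      have hmod : ∀ t : ℕ, (r : ℤ) ∣ a * ((s0 : ℤ) + Q * t) + b → t % r = t0 := by
        intro t ht
        have h1 : (r : ℤ) ∣ a * (Q * ((t : ℤ) - t0)) := by
          have := dvd_sub ht hd0
          have h2 : a * ((s0 : ℤ) + Q * t) + b - (a * S + b) = a * (Q * ((t : ℤ) - t0)) := by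
            rw [hS]; ring
          rwa [h2] at this
        have h2 : (r : ℤ) ∣ (t : ℤ) - t0 := by
          rcases hrp.dvd_or_dvd h1 with h | h
          · exact absurd h ha
          · rcases hrp.dvd_or_dvd h with h | h
            · exact absurd h hQ'
            · exact h
        have h3 : (t0 : ℤ) ≡ t [ZMOD r] := (Int.modEq_iff_dvd).mpr h2
        have h4 : t0 ≡ t [MOD r] := (Int.natCast_modEq_iff).mp h3
        have h5 : t0 % r = t % r := h4
        rw [← h5]; exact Nat.mod_eq_of_lt ht0r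
      apply Finset.card_le_card_of_injOn (fun t => t / r)
      · intro t ht
        simp only [coe_filter, Set.mem_ofPred_eq, mem_Icc, mem_range] at ht ⊢
        obtain ⟨⟨ht1', ht2⟩, hdv, hno⟩ := ht
        refine ⟨Nat.lt_succ_of_le (Nat.div_le_div_right ht2), ?_⟩
        intro j hj
        set c : ℕ := t / r with hc
        have htc : (t : ℤ) = t0 + r * c := by
          have h1 := hmod t hdv
          have h2 := Nat.mod_add_div t r
          rw [h1] at h2
          rw [← h2]; push_cast; rfl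
        set w : ℤ := γ + (Q * (12 * S + 1)) * c + (6 * (Q : ℤ) ^ 2) * r * (c : ℤ) ^ 2 with hw
        have hM : 6 * ((s0 : ℤ) + Q * t) ^ 2 + ((s0 : ℤ) + Q * t) - 1 = δ + r * w := by
          have h1 : (s0 : ℤ) + Q * t = S + Q * r * c := by rw [htc, hS]; ring
          rw [h1, hw]
          have h2 : 6 * S ^ 2 + S - 1 = δ + r * γ := by linarith
          have h3 : 6 * (S + Q * r * c) ^ 2 + (S + Q * r * c) - 1
            = (6 * S ^ 2 + S - 1) + r * ((Q * (12 * S + 1)) * c + (6 * (Q : ℤ) ^ 2) * r * (c : ℤ) ^ 2) := by ring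
          rw [h3, h2]; ring
        push Not at hno
        have hj1 := hno (j + 1) (by omega)
        rw [hM] at hj1
        have hpj : (0 : ℤ) < (r : ℤ) ^ j := by positivity
        have hw0 : 0 ≤ w % (r : ℤ) ^ j := Int.emod_nonneg _ (ne_of_gt hpj)
        have hw1 : w % (r : ℤ) ^ j < (r : ℤ) ^ j := Int.emod_lt_of_pos _ hpj
        have hkey : (δ + r * w) % (r : ℤ) ^ (j + 1) = δ + r * (w % (r : ℤ) ^ j) := by
          have h1 : δ + r * w = (δ + r * (w % (r : ℤ) ^ j)) + (r : ℤ) ^ (j + 1) * (w / (r : ℤ) ^ j) := by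
            have := Int.emod_add_mul_ediv w ((r : ℤ) ^ j)
            calc δ + r * w = δ + r * (w % (r : ℤ) ^ j + (r : ℤ) ^ j * (w / (r : ℤ) ^ j)) := by rw [this]
              _ = _ := by ring
          rw [h1, Int.add_mul_emod_self_left]
          apply Int.emod_eq_of_lt
          · positivity
          · have h2 : (r : ℤ) * (w % (r : ℤ) ^ j) ≤ r * ((r : ℤ) ^ j - 1) :=
              mul_le_mul_of_nonneg_left (by omega) (le_of_lt hr0)
            have h3 : (r : ℤ) ^ (j + 1) = r * (r : ℤ) ^ j := by ring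
            rw [h3]
            nlinarith
        rw [hkey] at hj1
        have h3 : (r : ℤ) ^ (j + 1) = r * (r : ℤ) ^ j := by ring
        rw [h3] at hj1
        have h4 : (r : ℤ) * (2 * (w % (r : ℤ) ^ j)) < r * (r : ℤ) ^ j := by
          nlinarith
        exact lt_of_mul_lt_mul_left h4 (le_of_lt hr0)
      · intro t ht t' ht' hEq
        simp only [coe_filter, Set.mem_ofPred_eq, mem_Icc] at ht ht'
        have h1 := hmod t ht.2.1
        have h2 := hmod t' ht'.2.1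
        have h3 := Nat.mod_add_div t r
        have h4 := Nat.mod_add_div t' r
        simp only at hEq
        rw [← h3, ← h4, h1, h2, hEq]
  · refine ⟨1, 0, ?_, ?_⟩
    · exact hsmall 1 (by norm_num) (by norm_num)
    · intro J
      have : ((Icc 1 T).filter (fun t : ℕ => (r : ℤ) ∣ a * ((s0 : ℤ) + Q * t) + b ∧
        ¬ ∃ j : ℕ, 1 ≤ j ∧ (r : ℤ) ^ j ≤
          2 * ((6 * ((s0 : ℤ) + Q * t) ^ 2 + ((s0 : ℤ) + Q * t) - 1) % (r : ℤ) ^ j))) = ∅ := by
        apply Finset.filter_eq_empty_iff.mpr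
        intro t _ h
        exact hex ⟨t, h.1⟩
      rw [this]; simp

end Pool.Agent.Helper170.BadCount
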