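import Mathlib

namespace Pool.Agent.Helper170.Equi

open Finset

/-- Sums of digits: a nonzero vector of small integers gives a fraction with controlled
denominator. -/
private lemma theta_eq (r : ℕ) (hr : r.Prime) : ∀ (J : ℕ) (x : Fin J → ℤ), x ≠ 0 →
    (∀ j, |x j| < r) → ∃ p : ℕ, p < J ∧ ∃ A : ℤ, ¬ (r : ℤ) ∣ A ∧
      ∑ j : Fin J, (x j : ℝ) / (r : ℝ) ^ ((j : ℕ) + 1) = (A : ℝ) / (r : ℝ) ^ (p + 1) := by
  have hr0 : (r : ℝ) ≠ 0 := by exact_mod_cast hr.ne_zero
  intro J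
  induction J with
  | zero =>
    intro x hx _
    exact absurd (Subsingleton.elim x 0) hx
  | succ J ih =>
    intro x hx hb
    by_cases h0 : x (Fin.last J) = 0
    · have hx' : (fun j : Fin J => x j.castSucc) ≠ 0 := by
        intro h
        apply hx
        funext j
        refine Fin.lastCases ?_ (fun j => ?_) j
        · exact h0
        · exact congrFun h j
      obtain ⟨p, hp, A, hA, hs⟩ := ih (fun j => x j.castSucc) hx' (fun j => hb _)
      refine ⟨p, by omega, A, hA, ?_⟩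
      rw [Fin.sum_univ_castSucc, h0]
      simpa using hs
    · refine ⟨J, by omega, ∑ j : Fin J, x j.castSucc * (r : ℤ) ^ (J - (j : ℕ)) + x (Fin.last J),
        ?_, ?_⟩
      · intro hd
        have h1 : (r : ℤ) ∣ ∑ j : Fin J, x j.castSucc * (r : ℤ) ^ (J - (j : ℕ)) := by
          apply Finset.dvd_sum
          intro j _
          apply Dvd.dvd.mul_left
          exact dvd_pow_self _ (by have := j.2; omega)
        have h2 : (r : ℤ) ∣ x (Fin.last J) := (dvd_add_right h1).mp hd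
        have h3 := Int.le_of_dvd (abs_pos.mpr h0) ((dvd_abs _ _).mpr h2)
        have h4 := hb (Fin.last J)
        omega
      · rw [Fin.sum_univ_castSucc, eq_div_iff (pow_ne_zero _ hr0), add_mul, Finset.sum_mul]
        push_cast
        congr 1
        · apply Finset.sum_congr rfl
          intro j _
          have hj : J + 1 = (J - (j : ℕ)) + ((j : ℕ) + 1) := by have := j.2; omega
          have hj' : (r : ℝ) ^ (J + 1) = (r : ℝ) ^ (J - (j : ℕ)) * (r : ℝ) ^ ((j : ℕ) + 1) := by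
            rw [← pow_add, ← hj]
          rw [hj', Fin.val_castSucc]
          field_simp
        · field_simp

/-- The additive character. -/
private noncomputable def ee (x : ℝ) : ℂ := Complex.exp (2 * Real.pi * Complex.I * (x : ℂ))

private lemma ee_add (x y : ℝ) : ee (x + y) = ee x * ee y := by
  simp only [ee]
  rw [← Complex.exp_add]
  congr 1
  push_cast
  ring

private lemma ee_int (n : ℤ) : ee n = 1 := by
  simp only [ee]
  rw [Complex.exp_eq_one_iff]
  exact ⟨n, by push_cast; ring⟩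

private lemma norm_ee (x : ℝ) : ‖ee x‖ = 1 := by
  simp only [ee]
  rw [show (2 * Real.pi * Complex.I * (x : ℂ)) = ((2 * Real.pi * x : ℝ) : ℂ) * Complex.I by
    push_cast; ring]
  exact Complex.norm_exp_ofReal_mul_I _

private lemma ee_sum {ι : Type*} (s : Finset ι) (f : ι → ℝ) :
    ee (∑ i ∈ s, f i) = ∏ i ∈ s, ee (f i) := by
  classical
  induction s using Finset.induction_on with
  | empty => simp [ee]
  | insert a s ha ih => rw [Finset.sum_insert ha, Finset.prod_insert ha, ee_add, ih]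

private lemma geom_bound (r N : ℕ) (hr : 0 < r) (B : ℤ) (hB : ¬ (r : ℤ) ∣ B) :
    ‖∑ c ∈ range N, ee ((B : ℝ) / r * c)‖ ≤ r := by
  have hr0 : (r : ℝ) ≠ 0 := by exact_mod_cast hr.ne'
  set ζ := ee ((B : ℝ) / r) with hζ
  have hpow : ∀ c : ℕ, ee ((B : ℝ) / r * c) = ζ ^ c := by
    intro c
    induction c with
    | zero => simp [ee]
    | succ c ih =>
      rw [pow_succ, ← ih, ← ee_add]
      congr 1
      push_cast
      ring
  have hζr : ζ ^ r = 1 := by
    rw [← hpow]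
    have : (B : ℝ) / r * (r : ℕ) = (B : ℤ) := by field_simp
    rw [this, ee_int]
  have hζ1 : ζ ≠ 1 := by
    intro h
    simp only [hζ, ee] at h
    rw [Complex.exp_eq_one_iff] at h
    obtain ⟨n, hn⟩ := h
    have h2 : (2 * Real.pi * Complex.I : ℂ) ≠ 0 := by
      simp [Real.pi_ne_zero]
    have h3 : (((B : ℝ) / r : ℝ) : ℂ) = (n : ℂ) := by
      apply mul_left_cancel₀ h2
      rw [hn]; ring
    have h4 : (B : ℝ) / r = n := by exact_mod_cast h3
    rw [div_eq_iff hr0] at h4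
    apply hB
    refine ⟨n, ?_⟩
    have h5 : (B : ℝ) = ((r * n : ℤ) : ℝ) := by rw [h4]; push_cast; ring
    exact_mod_cast h5
  have hsum : ∑ c ∈ range N, ee ((B : ℝ) / r * c) = ∑ c ∈ range (N % r), ζ ^ c := by
    rw [Finset.sum_congr rfl (fun c _ => hpow c)]
    have h1 := geom_sum_mul ζ N
    have h2 := geom_sum_mul ζ (N % r)
    have h3 : ζ ^ N = ζ ^ (N % r) := by
      conv_lhs => rw [← Nat.div_add_mod N r, pow_add, pow_mul, hζr, one_pow, one_mul]
    rw [h3, ← h2] at h1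
    exact mul_right_cancel₀ (sub_ne_zero.mpr hζ1) h1
  rw [hsum]
  refine (norm_sum_le _ _).trans ?_
  have h1 : ∀ c ∈ range (N % r), ‖ζ ^ c‖ = 1 := by
    intro c _
    rw [norm_pow, hζ, norm_ee, one_pow]
  rw [Finset.sum_congr rfl h1]
  simp only [sum_const, card_range, nsmul_eq_mul, mul_one]
  exact_mod_cast (Nat.mod_lt N hr).le

/-- Target. Both hypotheses are already proved theorems (trig majorant, Weyl bound). -/
theorem equidist
    (hMaj : ∀ ε : ℝ, 0 < ε → ∃ (H : ℕ) (c : ℤ → ℂ) (P : ℝ → ℝ),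
      (∀ x : ℝ, (P x : ℂ) = ∑ h ∈ Finset.Icc (-(H : ℤ)) H,
        c h * Complex.exp (2 * Real.pi * Complex.I * (h * x))) ∧
      (∀ x : ℝ, 0 ≤ P x) ∧
      (∀ x : ℝ, Int.fract x < 1 / 2 → 1 ≤ P x) ∧
      (∃ r : ℝ, c 0 = (r : ℂ) ∧ 0 ≤ r ∧ r ≤ 1 / 2 + ε))
    (hWeyl : ∀ δ : ℝ, 0 < δ → ∃ K : ℝ, 0 < K ∧
      ∀ (N q : ℕ) (A z : ℤ) (α β : ℝ), 1 ≤ q → IsCoprime A (q : ℤ) →
        2 * α = (A : ℝ) / q + z → K ≤ N → K ≤ q → K * q ≤ (N : ℝ) ^ 2 →
        ‖∑ n ∈ Finset.range N,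
          Complex.exp (2 * Real.pi * Complex.I * ((α * n ^ 2 + β * n : ℝ) : ℂ))‖ ≤ δ * N)
    (J : ℕ) (hJ : 1 ≤ J) (ε : ℝ) (hε : 0 < ε) (α : ℤ) (hα : α ≠ 0) :
    ∃ K : ℝ, 0 < K ∧ ∀ (r : ℕ) (β γ : ℤ) (N : ℕ), r.Prime → K ≤ r → ¬ (r : ℤ) ∣ β →
      K * r ≤ N → K * (r : ℝ) ^ (J - 1) ≤ (N : ℝ) ^ 2 →
      (((range N).filter (fun c : ℕ => ∀ j ∈ Icc 1 J,
        2 * ((γ + β * c + α * r * (c : ℤ) ^ 2) % (r : ℤ) ^ j) < (r : ℤ) ^ j)).card : ℝ)
        ≤ ((1 / 2 : ℝ) ^ J + ε) * N := by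
  -- choice of ε'
  obtain ⟨ε', hε', hpos'⟩ : ∃ ε' : ℝ, (1 / 2 + ε') ^ J < (1 / 2 : ℝ) ^ J + ε / 2 ∧ 0 < ε' := by
    have h1 : Filter.Tendsto (fun t : ℝ => (1 / 2 + t) ^ J) (nhds 0) (nhds ((1 / 2 + 0) ^ J)) := by
      have : Continuous (fun t : ℝ => (1 / 2 + t) ^ J) := by fun_prop
      exact this.tendsto 0
    have h2 : ((1 / 2 : ℝ) + 0) ^ J < (1 / 2 : ℝ) ^ J + ε / 2 := by
      rw [add_zero]; linarith
    have h3 := h1.eventually (gt_mem_nhds h2)
    have h4 : ∀ᶠ t in nhdsWithin (0 : ℝ) (Set.Ioi 0), (1 / 2 + t) ^ J < (1 / 2 : ℝ) ^ J + ε / 2 :=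
      h3.filter_mono nhdsWithin_le_nhds
    exact (h4.and self_mem_nhdsWithin).exists
  obtain ⟨H, cf, P, hP1, hP2, hP3, r0, hr0, hr0n, hr0le⟩ := hMaj ε' hpos'
  set M : ℝ := ∑ h ∈ Icc (-(H : ℤ)) H, ‖cf h‖ with hM
  have hM0 : 0 ≤ M := Finset.sum_nonneg fun _ _ => norm_nonneg _
  have hMJ : 0 ≤ M ^ J := pow_nonneg hM0 _
  set δ : ℝ := ε / (2 * (M ^ J + 1)) with hδdef
  have hδ : 0 < δ := by positivity
  obtain ⟨K0, hK0, hW⟩ := hWeyl δ hδ
  refine ⟨K0 + 1 / δ + (H + 2 * |(α : ℝ)| + 3), by positivity, ?_⟩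
  intro r β γ N hr hKr hβ hKrN hKN2
  set K : ℝ := K0 + 1 / δ + (H + 2 * |(α : ℝ)| + 3) with hKdef
  have hδ1 : 0 < 1 / δ := by positivity
  have habs : 0 ≤ |(α : ℝ)| := abs_nonneg _
  have hHnn : (0 : ℝ) ≤ H := Nat.cast_nonneg _
  have hKK0 : K0 ≤ K := by rw [hKdef]; linarith
  have hKδ : 1 / δ ≤ K := by rw [hKdef]; linarith
  have hKH : (H : ℝ) + 2 * |(α : ℝ)| + 3 ≤ K := by rw [hKdef]; linarith
  have hK3 : 0 < K := by linarith
  have hr1 : (1 : ℝ) ≤ r := by exact_mod_cast hr.one_le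
  have hrpos : (0 : ℝ) < r := by linarith
  have hKN : K ≤ N := le_trans (by nlinarith) hKrN
  have hHr : (H : ℤ) < r := by
    have : (H : ℝ) < r := by linarith
    exact_mod_cast this
  have hαr : 2 * |α| < r := by
    have : 2 * |(α : ℝ)| < r := by linarith
    exact_mod_cast this
  have hr2 : (2 : ℤ) < r := by
    have : (2 : ℝ) < r := by linarith
    exact_mod_cast this
  obtain ⟨w, hw⟩ : ∃ w : ℕ → ℤ, w = fun c : ℕ => γ + β * c + α * r * (c : ℤ) ^ 2 := ⟨_, rfl⟩
  set T := Fintype.piFinset (fun _ : Fin J => Icc (-(H : ℤ)) H) with hT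
  let θ : (Fin J → ℤ) → ℝ := fun x => ∑ j : Fin J, (x j : ℝ) / (r : ℝ) ^ ((j : ℕ) + 1)
  let S : (Fin J → ℤ) → ℂ := fun x => ∑ c ∈ range N, ee ((w c : ℝ) * θ x)
  let a : (Fin J → ℤ) → ℂ := fun x => ∏ j, cf (x j)
  -- Step 1
  have hstep1 : (((range N).filter (fun c : ℕ => ∀ j ∈ Icc 1 J,
        2 * ((γ + β * c + α * r * (c : ℤ) ^ 2) % (r : ℤ) ^ j) < (r : ℤ) ^ j)).card : ℝ) ≤
      ∑ c ∈ range N, ∏ j : Fin J, P ((w c : ℝ) / (r : ℝ) ^ ((j : ℕ) + 1)) := by
    rw [Finset.card_eq_sum_ones, Nat.cast_sum]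
    refine le_trans (Finset.sum_le_sum (g := fun c => ∏ j : Fin J, P ((w c : ℝ) / (r : ℝ) ^ ((j : ℕ) + 1))) ?_) ?_
    · intro c hc
      rw [Finset.mem_filter] at hc
      push_cast
      rw [show (1 : ℝ) = ∏ j : Fin J, (1 : ℝ) by simp]
      apply Finset.prod_le_prod (fun _ _ => zero_le_one)
      intro j _
      apply hP3
      have h1 := hc.2 ((j : ℕ) + 1) (by rw [Finset.mem_Icc]; have := j.2; omega)
      rw [show γ + β * c + α * r * (c : ℤ) ^ 2 = w c by rw [hw]] at h1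
      have h2 : ((r : ℝ) ^ ((j : ℕ) + 1)) = ((r ^ ((j : ℕ) + 1) : ℕ) : ℝ) := by push_cast; rfl
      rw [h2, Int.fract_div_intCast_eq_div_intCast_mod]
      have h3 : (0 : ℝ) < ((r ^ ((j : ℕ) + 1) : ℕ) : ℝ) := by
        exact_mod_cast pow_pos hr.pos _
      rw [div_lt_iff₀ h3]
      have h4 : (2 : ℝ) * ((w c % ((r ^ ((j : ℕ) + 1) : ℕ) : ℤ) : ℤ) : ℝ) <
          ((r ^ ((j : ℕ) + 1) : ℕ) : ℝ) := by
        push_cast at h1 ⊢
        exact_mod_cast h1
      linarith
    · apply Finset.sum_le_sum_of_subset_of_nonneg (Finset.filter_subset _ _)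
      intro c _ _
      exact Finset.prod_nonneg fun j _ => hP2 _
  -- Step 2
  have hstep2 : ((∑ c ∈ range N, ∏ j : Fin J, P ((w c : ℝ) / (r : ℝ) ^ ((j : ℕ) + 1)) : ℝ) : ℂ) =
      ∑ x ∈ T, a x * S x := by
    push_cast
    have h1 : ∀ c : ℕ, ∏ j : Fin J, ((P ((w c : ℝ) / (r : ℝ) ^ ((j : ℕ) + 1)) : ℝ) : ℂ) =
        ∑ x ∈ T, a x * ee ((w c : ℝ) * θ x) := by
      intro c
      have h2 : ∀ j : Fin J, ((P ((w c : ℝ) / (r : ℝ) ^ ((j : ℕ) + 1)) : ℝ) : ℂ) =
          ∑ h ∈ Icc (-(H : ℤ)) H, cf h * ee ((w c : ℝ) * ((h : ℝ) / (r : ℝ) ^ ((j : ℕ) + 1))) := by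
        intro j
        rw [hP1]
        apply Finset.sum_congr rfl
        intro h _
        simp only [ee]
        congr 2
        push_cast
        ring
      rw [Finset.prod_congr rfl (fun j _ => h2 j), Finset.prod_univ_sum]
      apply Finset.sum_congr rfl
      intro x _
      rw [Finset.prod_mul_distrib]
      simp only [a, θ]
      rw [Finset.mul_sum, ee_sum]
    rw [Finset.sum_congr rfl (fun c _ => h1 c), Finset.sum_comm]
    apply Finset.sum_congr rfl
    intro x _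
    rw [← Finset.mul_sum]
  -- Step 3
  have hstep3 : ∀ x ∈ T, x ≠ 0 → ‖S x‖ ≤ δ * N := by
    intro x hx hx0
    have hxb : ∀ j, |x j| < r := by
      intro j
      rw [hT, Fintype.mem_piFinset] at hx
      have := hx j
      rw [Finset.mem_Icc] at this
      exact lt_of_le_of_lt (abs_le.mpr this) hHr
    obtain ⟨p, hp, A, hA, hθ⟩ := theta_eq r hr J x hx0 hxb
    have hθ' : θ x = (A : ℝ) / (r : ℝ) ^ (p + 1) := hθ
    have hrprime : Prime (r : ℤ) := Nat.prime_iff_prime_int.mp hr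
    rcases Nat.eq_zero_or_pos p with hp0 | hp0
    · subst hp0
      have hS : S x = ee ((A : ℝ) * γ / r) * ∑ c ∈ range N, ee (((A * β : ℤ) : ℝ) / r * c) := by
        simp only [S]
        rw [Finset.mul_sum]
        apply Finset.sum_congr rfl
        intro c _
        rw [← ee_add]
        have h1 : (w c : ℝ) * θ x = ((A : ℝ) * γ / r + ((A * β : ℤ) : ℝ) / r * c) +
            ((A * α * (c : ℤ) ^ 2 : ℤ) : ℝ) := by
          rw [hθ', hw]
          push_cast
          field_simp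
        rw [h1, ee_add, ee_int, mul_one]
      rw [hS, norm_mul, norm_ee, one_mul]
      have h2 := geom_bound r N hr.pos (A * β) (by
        intro h
        rcases hrprime.dvd_or_dvd h with h | h
        · exact hA h
        · exact hβ h)
      refine h2.trans ?_
      have h3 : 1 / δ * r ≤ N := le_trans (mul_le_mul_of_nonneg_right hKδ hrpos.le) hKrN
      rw [div_mul_eq_mul_div, one_mul, div_le_iff₀ hδ] at h3
      linarith
    · have hS : S x = ee ((A : ℝ) * γ / (r : ℝ) ^ (p + 1)) * ∑ n ∈ range N,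
          Complex.exp (2 * Real.pi * Complex.I *
            ((((A : ℝ) * α / (r : ℝ) ^ p) * n ^ 2 + ((A : ℝ) * β / (r : ℝ) ^ (p + 1)) * n : ℝ) : ℂ)) := by
        simp only [S]
        rw [Finset.mul_sum]
        apply Finset.sum_congr rfl
        intro c _
        change _ = _ * ee _
        rw [← ee_add]
        congr 1
        rw [hθ', hw]
        push_cast
        rw [pow_succ]
        field_simp
        ring
      rw [hS, norm_mul, norm_ee, one_mul]
      have hrp : (r : ℝ) ≤ (r : ℝ) ^ p := by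
        calc (r : ℝ) = (r : ℝ) ^ 1 := (pow_one _).symm
          _ ≤ (r : ℝ) ^ p := pow_le_pow_right₀ hr1 hp0
      apply hW N (r ^ p) (2 * (A * α)) 0
      · exact Nat.one_le_pow _ _ hr.pos
      · push_cast
        apply IsCoprime.pow_right
        rw [isCoprime_comm]
        apply (Irreducible.coprime_iff_not_dvd hrprime.irreducible).mpr
        intro h
        rcases hrprime.dvd_or_dvd h with h | h
        · have := Int.le_of_dvd (by norm_num) h
          omega
        · rcases hrprime.dvd_or_dvd h with h | h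
          · exact hA h
          · have h5 := Int.le_of_dvd (abs_pos.mpr hα) ((dvd_abs _ _).mpr h)
            have h6 : 0 ≤ |α| := abs_nonneg _
            omega
      · push_cast
        ring
      · linarith
      · push_cast
        linarith
      · push_cast
        refine le_trans ?_ hKN2
        apply mul_le_mul hKK0 _ (by positivity) hK3.le
        exact pow_le_pow_right₀ hr1 (by omega)
  -- assembly
  have h0T : (0 : Fin J → ℤ) ∈ T := by
    rw [hT, Fintype.mem_piFinset]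
    intro j
    rw [Finset.mem_Icc]
    simp
  have hNnn : (0 : ℝ) ≤ N := Nat.cast_nonneg _
  have hnorm : ‖∑ x ∈ T, a x * S x‖ ≤ (1 / 2 + ε') ^ J * N + M ^ J * (δ * N) := by
    rw [← Finset.add_sum_erase T _ h0T]
    refine (norm_add_le _ _).trans (add_le_add ?_ ?_)
    · rw [norm_mul]
      have h1 : ‖a 0‖ ≤ (1 / 2 + ε') ^ J := by
        simp only [a, Pi.zero_apply, Finset.prod_const, Finset.card_univ, Fintype.card_fin]
        rw [norm_pow, hr0, Complex.norm_real, Real.norm_of_nonneg hr0n]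
        exact pow_le_pow_left₀ hr0n hr0le _
      have h2 : ‖S 0‖ ≤ N := by
        refine (norm_sum_le _ _).trans ?_
        rw [Finset.sum_congr rfl (fun c _ => norm_ee _)]
        simp
      exact mul_le_mul h1 h2 (norm_nonneg _) (by positivity)
    · refine (norm_sum_le _ _).trans ?_
      have h1 : ∀ x ∈ T.erase 0, ‖a x * S x‖ ≤ ‖a x‖ * (δ * N) := by
        intro x hx
        rw [Finset.mem_erase] at hx
        rw [norm_mul]
        exact mul_le_mul_of_nonneg_left (hstep3 x hx.2 hx.1) (norm_nonneg _)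
      refine (Finset.sum_le_sum h1).trans ?_
      rw [← Finset.sum_mul]
      apply mul_le_mul_of_nonneg_right _ (mul_nonneg hδ.le hNnn)
      refine (Finset.sum_le_sum_of_subset_of_nonneg (Finset.erase_subset _ _)
        (fun x _ _ => norm_nonneg _)).trans ?_
      have h2 : ∑ x ∈ T, ‖a x‖ = M ^ J := by
        have h3 : ∀ x ∈ T, ‖a x‖ = ∏ j, ‖cf (x j)‖ := by
          intro x _
          simp only [a]
          rw [norm_prod]
        rw [Finset.sum_congr rfl h3, hT,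
          ← Finset.prod_univ_sum (fun _ : Fin J => Icc (-(H : ℤ)) H) (fun _ h => ‖cf h‖)]
        simp [hM]
      rw [h2]
  have hfinal : (((range N).filter (fun c : ℕ => ∀ j ∈ Icc 1 J,
        2 * ((γ + β * c + α * r * (c : ℤ) ^ 2) % (r : ℤ) ^ j) < (r : ℤ) ^ j)).card : ℝ) ≤
      (1 / 2 + ε') ^ J * N + M ^ J * (δ * N) := by
    refine hstep1.trans (le_trans ?_ hnorm)
    rw [← hstep2, Complex.norm_real]
    exact Real.le_norm_self _
  refine hfinal.trans ?_
  have h1 : M ^ J * δ ≤ ε / 2 := by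
    rw [hδdef, mul_div_assoc', div_le_div_iff₀ (by positivity) (by norm_num)]
    nlinarith
  have h2 : M ^ J * (δ * N) ≤ ε / 2 * N := by
    rw [← mul_assoc]
    exact mul_le_mul_of_nonneg_right h1 hNnn
  have h3 : (1 / 2 + ε') ^ J * N ≤ ((1 / 2 : ℝ) ^ J + ε / 2) * N :=
    mul_le_mul_of_nonneg_right hε'.le hNnn
  linarith

end Pool.Agent.Helper170.Equi
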