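import Mathlib

namespace Pool.Agent.Helper170.LowDigit

open Finset

def GoodW (r J w : ℕ) : Prop := ∀ j ∈ Icc 1 J, 2 * (w % r ^ j) < r ^ j

open Classical in
theorem card_good (r : ℕ) (hr : 0 < r) (J : ℕ) :
    ((range (r ^ J)).filter (fun w : ℕ => GoodW r J w)).card
      ≤ ((r + 1) / 2) ^ J := by
  induction J with
  | zero =>
    refine (card_filter_le _ _).trans ?_
    simp
  | succ J ih =>
    have hmaps : ∀ w ∈ (range (r ^ (J + 1))).filter
        (fun w : ℕ => GoodW r (J + 1) w),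
        (fun w : ℕ => (w % r ^ J, w / r ^ J)) w ∈
          ((range (r ^ J)).filter (fun w : ℕ => GoodW r J w)) ×ˢ
            (range ((r + 1) / 2)) := by
      intro w hw
      rw [mem_filter, mem_range] at hw
      obtain ⟨hw1, hw2⟩ := hw
      have hpos : 0 < r ^ J := pow_pos hr J
      rw [mem_product]
      refine ⟨?_, ?_⟩
      · rw [mem_filter, mem_range]
        refine ⟨Nat.mod_lt _ hpos, ?_⟩
        intro j hj
        have hj' := mem_Icc.mp hj
        have h := hw2 j (mem_Icc.mpr ⟨hj'.1, by omega⟩)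
        show 2 * (w % r ^ J % r ^ j) < r ^ j
        rw [Nat.mod_mod_of_dvd w (pow_dvd_pow r hj'.2)]
        exact h
      · rw [mem_range]
        have h := hw2 (J + 1) (mem_Icc.mpr ⟨by omega, le_refl _⟩)
        rw [Nat.mod_eq_of_lt hw1] at h
        have h1 : w / r ^ J * r ^ J ≤ w := Nat.div_mul_le_self w (r ^ J)
        have h2 : 2 * (w / r ^ J) * r ^ J < r * r ^ J := by
          calc 2 * (w / r ^ J) * r ^ J = 2 * (w / r ^ J * r ^ J) := by ring
            _ ≤ 2 * w := by omega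
            _ < r ^ (J + 1) := h
            _ = r * r ^ J := by ring
        have h3 : 2 * (w / r ^ J) < r := lt_of_mul_lt_mul_right h2 (Nat.zero_le _)
        show w / r ^ J < (r + 1) / 2
        omega
    have hinj : Set.InjOn (fun w : ℕ => (w % r ^ J, w / r ^ J))
        ((range (r ^ (J + 1))).filter
        (fun w : ℕ => GoodW r (J + 1) w) : Finset ℕ) := by
      intro a _ b _ hab
      simp only [Prod.mk.injEq] at hab
      rw [← Nat.div_add_mod a (r ^ J), ← Nat.div_add_mod b (r ^ J), hab.1, hab.2]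
    calc _ ≤ _ := card_le_card_of_injOn _ hmaps hinj
      _ = _ := card_product _ _
      _ ≤ ((r + 1) / 2) ^ J * ((r + 1) / 2) := by
          rw [card_range]
          exact Nat.mul_le_mul_right _ ih
      _ = ((r + 1) / 2) ^ (J + 1) := by ring

theorem lowdigit (r : ℕ) (hr : r.Prime) (hr2 : 2 < r) (α β γ : ℤ) (hβ : ¬ (r : ℤ) ∣ β)
    (J N : ℕ) :
    (((range N).filter (fun c : ℕ => ∀ j ∈ Icc 1 J,
        2 * ((γ + β * c + α * r * (c : ℤ) ^ 2) % (r : ℤ) ^ j) < (r : ℤ) ^ j)).card : ℝ)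
      ≤ (N / (r : ℝ) ^ J + 1) * (((r : ℝ) + 1) / 2) ^ J := by
  have hr0 : 0 < r := hr.pos
  have hposN : 0 < r ^ J := pow_pos hr0 J
  have hposZ : ∀ j : ℕ, (0 : ℤ) < (r : ℤ) ^ j := fun j => pow_pos (by exact_mod_cast hr0) j
  set S := (range N).filter (fun c : ℕ => ∀ j ∈ Icc 1 J,
        2 * ((γ + β * c + α * r * (c : ℤ) ^ 2) % (r : ℤ) ^ j) < (r : ℤ) ^ j) with hS
  classical
  set G := (range (r ^ J)).filter (fun w : ℕ => GoodW r J w) with hG
  let f : ℕ → ℕ := fun c => ((γ + β * c + α * r * (c : ℤ) ^ 2) % (r : ℤ) ^ J).toNat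
  have hfc : ∀ c : ℕ, ((f c : ℕ) : ℤ) = (γ + β * c + α * r * (c : ℤ) ^ 2) % (r : ℤ) ^ J := by
    intro c
    exact Int.toNat_of_nonneg (Int.emod_nonneg _ (hposZ J).ne')
  have hmaps : ∀ c ∈ S, f c ∈ G := by
    intro c hc
    rw [hS, mem_filter] at hc
    rw [hG, mem_filter, mem_range]
    refine ⟨?_, ?_⟩
    · have h1 : ((f c : ℕ) : ℤ) < ((r ^ J : ℕ) : ℤ) := by
        rw [hfc c]
        push_cast
        exact Int.emod_lt_of_pos _ (hposZ J)
      exact_mod_cast h1
    · intro j hj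
      have h2 := hc.2 j hj
      have hj' := mem_Icc.mp hj
      have h3 : ((f c % r ^ j : ℕ) : ℤ) =
          (γ + β * c + α * r * (c : ℤ) ^ 2) % (r : ℤ) ^ j := by
        push_cast
        rw [hfc c]
        exact Int.emod_emod_of_dvd _ (pow_dvd_pow _ hj'.2)
      rw [← h3] at h2
      exact_mod_cast h2
  have hfib : ∀ b ∈ G, (S.filter (fun c => f c = b)).card ≤ N / r ^ J + 1 := by
    intro b _
    have hmod : ∀ c ∈ S.filter (fun c => f c = b), ∀ d ∈ S.filter (fun c => f c = b),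
        c % r ^ J = d % r ^ J := by
      intro c hc d hd
      rw [mem_filter] at hc hd
      have h1 : (γ + β * c + α * r * (c : ℤ) ^ 2) % (r : ℤ) ^ J
          = (γ + β * d + α * r * (d : ℤ) ^ 2) % (r : ℤ) ^ J := by
        rw [← hfc c, ← hfc d, hc.2, hd.2]
      have h2 : (r : ℤ) ^ J ∣ (γ + β * c + α * r * (c : ℤ) ^ 2)
          - (γ + β * d + α * r * (d : ℤ) ^ 2) :=
        Int.ModEq.dvd (Int.ModEq.symm h1)
      have h3 : (γ + β * c + α * r * (c : ℤ) ^ 2)
          - (γ + β * d + α * r * (d : ℤ) ^ 2)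
          = ((c : ℤ) - d) * (β + r * (α * (c + d))) := by ring
      rw [h3] at h2
      have hpr : Prime (r : ℤ) := Nat.prime_iff_prime_int.mp hr
      have hcop : IsCoprime ((r : ℤ) ^ J) (β + r * (α * (c + d))) := by
        apply IsCoprime.pow_left
        rw [hpr.irreducible.coprime_iff_not_dvd]
        intro h
        exact hβ ((dvd_add_left (Dvd.intro _ rfl)).mp h)
      have h4 : (r : ℤ) ^ J ∣ ((c : ℤ) - d) := hcop.dvd_of_dvd_mul_right h2
      have h5 : (c : ℤ) ≡ d [ZMOD ((r ^ J : ℕ) : ℤ)] := by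
        apply Int.ModEq.symm
        rw [Int.modEq_iff_dvd]
        push_cast
        exact h4
      exact (Int.natCast_modEq_iff.mp h5)
    have hinj : Set.InjOn (fun c : ℕ => c / r ^ J)
        ((S.filter (fun c => f c = b) : Finset ℕ) : Set ℕ) := by
      intro c hc d hd hcd
      have := hmod c hc d hd
      simp only at hcd
      rw [← Nat.div_add_mod c (r ^ J), ← Nat.div_add_mod d (r ^ J), this, hcd]
    have hmt : ∀ c ∈ S.filter (fun c => f c = b), (fun c : ℕ => c / r ^ J) c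
        ∈ range (N / r ^ J + 1) := by
      intro c hc
      rw [mem_filter, hS, mem_filter, mem_range] at hc
      rw [mem_range]
      exact Nat.lt_succ_of_le (Nat.div_le_div_right hc.1.1.le)
    calc _ ≤ _ := card_le_card_of_injOn _ hmt hinj
      _ = _ := card_range _
  have hcard : S.card ≤ (N / r ^ J + 1) * G.card :=
    card_le_mul_card_image_of_maps_to hmaps _ hfib
  have hG' : G.card ≤ ((r + 1) / 2) ^ J := card_good r hr0 J
  have hcardR : (S.card : ℝ) ≤ (((N / r ^ J : ℕ) : ℝ) + 1) * (((r + 1) / 2 : ℕ) : ℝ) ^ J := by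
    have : S.card ≤ (N / r ^ J + 1) * ((r + 1) / 2) ^ J :=
      hcard.trans (Nat.mul_le_mul_left _ hG')
    exact_mod_cast this
  refine hcardR.trans ?_
  have e1 : ((N / r ^ J : ℕ) : ℝ) ≤ (N : ℝ) / (r : ℝ) ^ J := by
    have := @Nat.cast_div_le ℝ _ _ _ N (r ^ J)
    push_cast at this
    exact this
  have e2 : (((r + 1) / 2 : ℕ) : ℝ) ≤ ((r : ℝ) + 1) / 2 := by
    have := @Nat.cast_div_le ℝ _ _ _ (r + 1) 2
    push_cast at this
    exact this
  gcongr

end Pool.Agent.Helper170.LowDigit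

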