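import Mathlib

namespace Pool.Agent.Helper170.Majorant

open MeasureTheory AddCircle

/-- the plateau function -/
noncomputable def gR (δ : ℝ) (x : AddCircle (1 : ℝ)) : ℝ :=
  max 0 (min 1 (1 - (‖x - ((1 / 4 : ℝ) : AddCircle (1 : ℝ))‖ - 1 / 4) / δ))

lemma gR_cont (δ : ℝ) : Continuous (gR δ) := by
  unfold gR
  fun_prop

lemma gR_nonneg (δ : ℝ) (x : AddCircle (1 : ℝ)) : 0 ≤ gR δ x := le_max_left _ _

lemma gR_le_one (δ : ℝ) (x : AddCircle (1 : ℝ)) : gR δ x ≤ 1 :=
  max_le zero_le_one (min_le_left _ _)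

lemma gR_one (δ : ℝ) (hδ : 0 < δ) (x : ℝ) (hx : Int.fract x < 1 / 2) :
    gR δ (x : AddCircle (1 : ℝ)) = 1 := by
  have h0 := Int.fract_nonneg x
  have hn : ‖(x : AddCircle (1 : ℝ)) - ((1 / 4 : ℝ) : AddCircle (1 : ℝ))‖ ≤ 1 / 4 := by
    rw [← AddCircle.coe_sub]
    have h1 := UnitAddCircle.norm_eq (x := x - 1 / 4)
    have h2 := round_le (x - 1 / 4) ⌊x⌋
    have h3 : |x - 1 / 4 - (⌊x⌋ : ℝ)| ≤ 1 / 4 := by
      rw [abs_le]
      have : Int.fract x = x - ⌊x⌋ := rfl
      constructor <;> linarith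
    exact (h1.le.trans h2).trans h3
  unfold gR
  have : (‖(x : AddCircle (1 : ℝ)) - ((1 / 4 : ℝ) : AddCircle (1 : ℝ))‖ - 1 / 4) / δ ≤ 0 :=
    div_nonpos_of_nonpos_of_nonneg (by linarith) hδ.le
  rw [min_eq_left (by linarith), max_eq_right zero_le_one]

lemma gR_zero (δ : ℝ) (hδ : 0 < δ) (x : AddCircle (1 : ℝ))
    (hx : x ∉ Metric.closedBall (((1 / 4 : ℝ) : AddCircle (1 : ℝ))) (1 / 4 + δ)) :
    gR δ x = 0 := by
  rw [Metric.mem_closedBall, dist_eq_norm, not_le] at hx
  unfold gR
  have : 1 ≤ (‖x - ((1 / 4 : ℝ) : AddCircle (1 : ℝ))‖ - 1 / 4) / δ := by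
    rw [le_div_iff₀ hδ]; linarith
  apply max_eq_left
  exact (min_le_right _ _).trans (by linarith)

lemma gR_int (δ : ℝ) (hδ : 0 < δ) :
    ∫ x, gR δ x ∂(haarAddCircle (T := (1 : ℝ))) ≤ 1 / 2 + 2 * δ := by
  rw [integral_haarAddCircle]
  simp only [inv_one, one_smul]
  set B := Metric.closedBall (((1 / 4 : ℝ) : AddCircle (1 : ℝ))) (1 / 4 + δ) with hB
  have hle : ∀ x, gR δ x ≤ B.indicator (fun _ => (1 : ℝ)) x := by
    intro x
    by_cases hx : x ∈ B
    · rw [Set.indicator_of_mem hx]; exact gR_le_one δ x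
    · rw [Set.indicator_of_notMem hx, gR_zero δ hδ x hx]
  have hBm : MeasurableSet B := Metric.isClosed_closedBall.measurableSet
  calc ∫ x, gR δ x ≤ ∫ x, B.indicator (fun _ => (1 : ℝ)) x := by
        apply integral_mono
        · exact (gR_cont δ).integrable_of_hasCompactSupport (HasCompactSupport.of_compactSpace _)
        · exact (integrable_const (1 : ℝ)).indicator hBm
        · exact hle
    _ = (volume : Measure (AddCircle (1 : ℝ))).real B := by
        rw [integral_indicator_const _ hBm, smul_eq_mul, mul_one]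
    _ ≤ 1 / 2 + 2 * δ := by
        rw [measureReal_def, hB, AddCircle.volume_closedBall, ENNReal.toReal_ofReal]
        · refine (min_le_right _ _).trans (by linarith)
        · exact le_min (by norm_num) (by linarith)

lemma int_fourier (n : ℤ) : ∫ x, fourier n x ∂(haarAddCircle (T := (1 : ℝ))) = if n = 0 then 1 else 0 := by
  split_ifs with h
  · subst h
    simp
  · exact integral_eq_zero_of_add_right_eq_neg (μ := haarAddCircle)
      (fourier_add_half_inv_index h (by norm_num : (0 : ℝ) < 1))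

theorem majorant (ε : ℝ) (hε : 0 < ε) :
    ∃ (H : ℕ) (c : ℤ → ℂ) (P : ℝ → ℝ),
      (∀ x : ℝ, (P x : ℂ) = ∑ h ∈ Finset.Icc (-(H : ℤ)) H,
        c h * Complex.exp (2 * Real.pi * Complex.I * (h * x))) ∧
      (∀ x : ℝ, 0 ≤ P x) ∧
      (∀ x : ℝ, Int.fract x < 1 / 2 → 1 ≤ P x) ∧
      (∃ r : ℝ, c 0 = (r : ℂ) ∧ 0 ≤ r ∧ r ≤ 1 / 2 + ε) := by
  set δ := ε / 6 with hδdef
  have hδ : 0 < δ := by positivity
  let g : C(AddCircle (1 : ℝ), ℂ) := ⟨fun x => ((gR δ x : ℝ) : ℂ), by
    exact Complex.continuous_ofReal.comp (gR_cont δ)⟩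
  have hg : g ∈ (Submodule.span ℂ (Set.range (@fourier (1 : ℝ)))).topologicalClosure := by
    rw [span_fourier_closure_eq_top]; trivial
  rw [← SetLike.mem_coe, Submodule.topologicalClosure_coe, Metric.mem_closure_iff] at hg
  obtain ⟨p, hp, hpg⟩ := hg δ hδ
  obtain ⟨c, hc⟩ := (Finsupp.mem_span_range_iff_exists_finsupp).mp hp
  -- bound on support
  obtain ⟨H, hH⟩ : ∃ H : ℕ, c.support ⊆ Finset.Icc (-(H : ℤ)) H := by
    refine ⟨c.support.sup Int.natAbs, fun n hn => ?_⟩
    have h1 : n.natAbs ≤ c.support.sup Int.natAbs := Finset.le_sup (f := Int.natAbs) hn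
    rw [Finset.mem_Icc]
    omega
  have hps : ∀ x : AddCircle (1 : ℝ), p x = ∑ h ∈ Finset.Icc (-(H : ℤ)) H, c h * fourier h x := by
    intro x
    rw [← hc, Finsupp.sum]
    rw [ContinuousMap.sum_apply]
    rw [← Finset.sum_subset hH]
    · rfl
    · intro n _ hn
      rw [Finsupp.notMem_support_iff.mp hn, zero_mul]
  have hclose : ∀ x : AddCircle (1 : ℝ), |(p x).re - gR δ x| ≤ δ := by
    intro x
    have h1 : dist (g x) (p x) ≤ dist g p := ContinuousMap.dist_apply_le_dist x
    have h2 : ‖p x - g x‖ ≤ δ := by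
      rw [← dist_eq_norm, dist_comm]; exact h1.trans hpg.le
    have h3 := Complex.abs_re_le_norm (p x - g x)
    have h4 : (p x - g x).re = (p x).re - gR δ x := by
      simp [g]
    rw [h4] at h3
    exact h3.trans h2
  have hint : ∫ x, p x ∂(haarAddCircle (T := (1 : ℝ))) = c 0 := by
    simp_rw [hps]
    rw [integral_finsetSum]
    · simp_rw [integral_const_mul, int_fourier]
      simp
    · intro i _
      exact (Integrable.const_mul ((fourier i).continuous.integrable_of_hasCompactSupport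
        (HasCompactSupport.of_compactSpace _)) _)
  have hpint : Integrable (fun x => p x) (haarAddCircle (T := (1 : ℝ))) :=
    p.continuous.integrable_of_hasCompactSupport (HasCompactSupport.of_compactSpace _)
  have hgint : Integrable (gR δ) (haarAddCircle (T := (1 : ℝ))) :=
    (gR_cont δ).integrable_of_hasCompactSupport (HasCompactSupport.of_compactSpace _)
  have hre : ∫ x, (p x).re ∂(haarAddCircle (T := (1 : ℝ))) = (c 0).re := by
    have := integral_re hpint
    simp only [RCLike.re_eq_complex_re] at this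
    rw [this, hint]
  have hup : (c 0).re ≤ 1 / 2 + 3 * δ := by
    rw [← hre]
    calc ∫ x, (p x).re ∂(haarAddCircle (T := (1 : ℝ)))
        ≤ ∫ x, (gR δ x + δ) ∂(haarAddCircle (T := (1 : ℝ))) := by
          apply integral_mono hpint.re (hgint.add (integrable_const δ))
          intro x
          have := (abs_le.mp (hclose x)).2
          show (p x).re ≤ gR δ x + δ
          linarith
      _ = ∫ x, gR δ x ∂(haarAddCircle (T := (1 : ℝ))) + δ := by
          rw [integral_add hgint (integrable_const δ)]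
          simp
      _ ≤ 1 / 2 + 3 * δ := by
          have := gR_int δ hδ
          linarith
  have hlo : 0 ≤ (c 0).re + δ := by
    rw [← hre]
    have : ∫ x, ((p x).re + δ) ∂(haarAddCircle (T := (1 : ℝ)))
        = ∫ x, (p x).re ∂(haarAddCircle (T := (1 : ℝ))) + δ := by
      have hpr : Integrable (fun x => (p x).re) (haarAddCircle (T := (1 : ℝ))) := hpint.re
      rw [integral_add hpr (integrable_const δ)]
      simp
    rw [← this]
    apply integral_nonneg
    intro x
    have := (abs_le.mp (hclose x)).1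
    have h2 := gR_nonneg δ x
    show (0 : ℝ) ≤ (p x).re + δ
    linarith
  refine ⟨H, fun h => (c h + (starRingEnd ℂ) (c (-h))) / 2 + (if h = 0 then (δ : ℂ) else 0),
    fun x => (p (x : AddCircle (1 : ℝ))).re + δ, ?_, ?_, ?_, ?_⟩
  · intro x
    have hexp : ∀ h : ℤ, Complex.exp (2 * Real.pi * Complex.I * (h * x))
        = fourier h (x : AddCircle (1 : ℝ)) := by
      intro h
      rw [fourier_coe_apply]
      congr 1
      push_cast
      ring
    simp_rw [hexp]
    have hconj : (starRingEnd ℂ) (p (x : AddCircle (1 : ℝ)))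
        = ∑ h ∈ Finset.Icc (-(H : ℤ)) H, (starRingEnd ℂ) (c (-h)) * fourier h (x : AddCircle (1 : ℝ)) := by
      rw [hps, map_sum]
      refine Finset.sum_bij' (fun h _ => -h) (fun h _ => -h) ?_ ?_ ?_ ?_ ?_
      · intro a ha; rw [Finset.mem_Icc] at *; omega
      · intro a ha; rw [Finset.mem_Icc] at *; omega
      · intro a _; ring
      · intro a _; ring
      · intro a _
        rw [map_mul, neg_neg, ← fourier_neg]
    have hre2 : (((p (x : AddCircle (1 : ℝ))).re : ℝ) : ℂ)
        = (p (x : AddCircle (1 : ℝ)) + (starRingEnd ℂ) (p (x : AddCircle (1 : ℝ)))) / 2 := by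
      rw [Complex.add_conj]; push_cast; ring
    push_cast
    rw [hre2, hconj, hps]
    simp_rw [add_mul]
    rw [Finset.sum_add_distrib]
    have h0 : ∑ h ∈ Finset.Icc (-(H : ℤ)) H, (if h = 0 then (δ : ℂ) else 0) * fourier h (x : AddCircle (1 : ℝ)) = δ := by
      simp_rw [ite_mul, zero_mul]
      rw [Finset.sum_ite_eq']
      rw [if_pos (by rw [Finset.mem_Icc]; omega), fourier_zero, mul_one]
    rw [h0]
    congr 1
    rw [← Finset.sum_add_distrib, Finset.sum_div]
    refine Finset.sum_congr rfl fun h _ => ?_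
    ring
  · intro x
    have := (abs_le.mp (hclose (x : AddCircle (1 : ℝ)))).1
    have h2 := gR_nonneg δ (x : AddCircle (1 : ℝ))
    show (0 : ℝ) ≤ (p (x : AddCircle (1 : ℝ))).re + δ
    linarith
  · intro x hx
    have := (abs_le.mp (hclose (x : AddCircle (1 : ℝ)))).1
    have h2 := gR_one δ hδ x hx
    show (1 : ℝ) ≤ (p (x : AddCircle (1 : ℝ))).re + δ
    linarith
  · refine ⟨(c 0).re + δ, ?_, hlo, ?_⟩
    · have : (c 0 + (starRingEnd ℂ) (c 0)) / 2 = ((c 0).re : ℂ) := by
        rw [Complex.add_conj]; push_cast; ring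
      simp only [neg_zero, if_true]
      rw [this]; push_cast; ring
    · have : (c 0).re + δ ≤ 1 / 2 + 4 * δ := by linarith
      refine this.trans ?_
      rw [hδdef]; linarith

end Pool.Agent.Helper170.Majorant
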