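import Mathlib

namespace Pool.Agent.Helper170.MidCost

open Finset

private lemma ev_pow (c K : ℝ) (hc : 0 < c) : ∀ᶠ T : ℕ in Filter.atTop, K ≤ (T : ℝ) ^ c :=
  ((tendsto_rpow_atTop hc).comp tendsto_natCast_atTop_atTop).eventually_ge_atTop K

private lemma ev_le (b K : ℝ) (m : ℕ) (d : ℝ) (h : m * b < d) :
    ∀ᶠ T : ℕ in Filter.atTop, K * ((T : ℝ) ^ b) ^ m ≤ (T : ℝ) ^ d := by
  filter_upwards [ev_pow (d - m * b) K (by linarith), Filter.eventually_ge_atTop 1] with T h1 h2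
  have hT : (0 : ℝ) < T := by exact_mod_cast h2
  have h3 : ((T : ℝ) ^ b) ^ m = (T : ℝ) ^ (m * b) := by
    rw [← Real.rpow_natCast, ← Real.rpow_mul hT.le, mul_comm]
  have h4 : (T : ℝ) ^ d = (T : ℝ) ^ (d - m * b) * (T : ℝ) ^ (m * b) := by
    rw [← Real.rpow_add hT]
    congr 1
    ring
  rw [h3, h4]
  exact mul_le_mul_of_nonneg_right h1 (by positivity)

private lemma piece (C : ℕ → ℕ → ℝ) (R0 : ℕ)
    (hweyl : ∀ J : ℕ, 1 ≤ J → ∀ ε : ℝ, 0 < ε → ∃ K : ℝ, 0 < K ∧ ∀ T r : ℕ, r.Prime → R0 < r →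
      K ≤ r → K * (r : ℝ) ^ 2 ≤ T → K * (r : ℝ) ^ (J + 1) ≤ (T : ℝ) ^ 2 →
      C T r ≤ ((1 / 2 : ℝ) ^ J + ε) * ((T : ℝ) / r + 1))
    (hmass : ∀ a b ε : ℝ, 0 < a → a < b → 0 < ε → ∃ T0 : ℝ, ∀ T : ℝ, T0 ≤ T →
      ∑ p ∈ (Finset.Icc 1 ⌊T ^ b⌋₊).filter (fun p : ℕ => p.Prime ∧ T ^ a < (p : ℝ)),
        (1 : ℝ) / p ≤ Real.log (b / a) + ε)
    (J : ℕ) (hJ : 1 ≤ J) (a b : ℝ) (ha : 0 < a) (hab : a < b) (hb : 2 * b < 1)
    (hJb : ((J : ℝ) + 1) * b < 2) (η : ℝ) (hη : 0 < η) :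
    ∀ᶠ T : ℕ in Filter.atTop,
      ∑ r ∈ (Icc 1 ⌊(T : ℝ) ^ b⌋₊).filter (fun r : ℕ => (r.Prime ∧ R0 < r) ∧ (T : ℝ) ^ a < (r : ℝ)),
        C T r ≤ ((1 / 2 : ℝ) ^ J * Real.log (b / a) + η) * T := by
  have hL : 0 < Real.log (b / a) := Real.log_pos (by rw [lt_div_iff₀ ha]; linarith)
  have hpw : (0 : ℝ) < (1 / 2 : ℝ) ^ J := by positivity
  have hpw1 : (1 / 2 : ℝ) ^ J ≤ 1 := pow_le_one₀ (by norm_num) (by norm_num)
  -- choice of epsilon
  obtain ⟨ε, hε0, hε1, hε⟩ : ∃ ε : ℝ, 0 < ε ∧ ε ≤ 1 ∧ ε * (Real.log (b / a) + 2) ≤ η / 2 := by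
    refine ⟨min 1 (η / 2 / (Real.log (b / a) + 2)), by positivity, min_le_left _ _, ?_⟩
    have h1 : 0 < Real.log (b / a) + 2 := by linarith
    calc min 1 (η / 2 / (Real.log (b / a) + 2)) * (Real.log (b / a) + 2)
        ≤ (η / 2 / (Real.log (b / a) + 2)) * (Real.log (b / a) + 2) := by
          gcongr
          exact min_le_right _ _
      _ = η / 2 := by field_simp
  obtain ⟨K, hK0, hK⟩ := hweyl J hJ ε hε0
  obtain ⟨T1, hT1⟩ := hmass a b ε ha hab hε0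
  have e1 := ev_pow a K ha
  have e2 := ev_le b K 2 1 (by push_cast; linarith)
  have e3 := ev_le b K (J + 1) 2 (by push_cast; linarith)
  have e4 := ev_le b (4 / η) 1 1 (by push_cast; linarith)
  have e5 : ∀ᶠ T : ℕ in Filter.atTop, T1 ≤ (T : ℝ) :=
    tendsto_natCast_atTop_atTop.eventually_ge_atTop T1
  filter_upwards [e1, e2, e3, e4, e5, Filter.eventually_ge_atTop 1] with T h1 h2 h3 h4 h5 h6
  have hT : (0 : ℝ) < T := by exact_mod_cast h6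
  rw [Real.rpow_one] at h2 h4
  rw [pow_one] at h4
  have h7 : (T : ℝ) ^ (2 : ℝ) = (T : ℝ) ^ (2 : ℕ) := by
    rw [← Real.rpow_natCast]; norm_num
  rw [h7] at h3
  set F := (Icc 1 ⌊(T : ℝ) ^ b⌋₊).filter
    (fun r : ℕ => (r.Prime ∧ R0 < r) ∧ (T : ℝ) ^ a < (r : ℝ)) with hF
  have hTb : (0 : ℝ) ≤ (T : ℝ) ^ b := by positivity
  have hterm : ∀ r ∈ F, C T r ≤ ((1 / 2 : ℝ) ^ J + ε) * ((T : ℝ) * (1 / r) + 1) := by
    intro r hr
    rw [hF, Finset.mem_filter, Finset.mem_Icc] at hr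
    obtain ⟨⟨hr1, hr2⟩, ⟨hr3, hr4⟩, hr5⟩ := hr
    have hrb : (r : ℝ) ≤ (T : ℝ) ^ b := by
      have := Nat.floor_le hTb
      exact le_trans (by exact_mod_cast hr2) this
    have hr0 : (0 : ℝ) ≤ (r : ℝ) := by positivity
    have := hK T r hr3 hr4 (by linarith)
      (le_trans (by gcongr) h2) (le_trans (by gcongr) h3)
    calc C T r ≤ ((1 / 2 : ℝ) ^ J + ε) * ((T : ℝ) / r + 1) := this
      _ = _ := by ring
  have hsub : F ⊆ (Finset.Icc 1 ⌊(T : ℝ) ^ b⌋₊).filter (fun p : ℕ => p.Prime ∧ (T : ℝ) ^ a < (p : ℝ)) := by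
    intro r hr
    rw [hF, Finset.mem_filter] at hr
    rw [Finset.mem_filter]
    exact ⟨hr.1, hr.2.1.1, hr.2.2⟩
  have hsum1 : ∑ r ∈ F, (1 : ℝ) / r ≤ Real.log (b / a) + ε :=
    (Finset.sum_le_sum_of_subset_of_nonneg hsub (fun r _ _ => by positivity)).trans (hT1 T h5)
  have hcard : (F.card : ℝ) ≤ (T : ℝ) ^ b := by
    have h8 : F.card ≤ ⌊(T : ℝ) ^ b⌋₊ := by
      calc F.card ≤ (Icc 1 ⌊(T : ℝ) ^ b⌋₊).card := Finset.card_filter_le _ _
        _ = ⌊(T : ℝ) ^ b⌋₊ := by simp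
    exact le_trans (by exact_mod_cast h8) (Nat.floor_le hTb)
  have hTb2 : (T : ℝ) ^ b ≤ η / 4 * T := by
    have : 4 / η * (T : ℝ) ^ b ≤ T := h4
    rw [div_mul_eq_mul_div, div_le_iff₀ hη] at this
    linarith
  calc ∑ r ∈ F, C T r ≤ ∑ r ∈ F, ((1 / 2 : ℝ) ^ J + ε) * ((T : ℝ) * (1 / r) + 1) :=
        Finset.sum_le_sum hterm
    _ = ((1 / 2 : ℝ) ^ J + ε) * (T * ∑ r ∈ F, (1 : ℝ) / r + F.card) := by
        rw [← Finset.mul_sum, Finset.sum_add_distrib, ← Finset.mul_sum]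
        simp
    _ ≤ ((1 / 2 : ℝ) ^ J + ε) * (T * (Real.log (b / a) + ε) + η / 4 * T) := by
        gcongr
        linarith
    _ ≤ ((1 / 2 : ℝ) ^ J * Real.log (b / a) + η) * T := by
        have h9 : ((1 / 2 : ℝ) ^ J + ε) * ((Real.log (b / a) + ε) + η / 4)
            ≤ (1 / 2 : ℝ) ^ J * Real.log (b / a) + η := by
          have h10 : (1 / 2 : ℝ) ^ J * ε ≤ 1 * ε := by gcongr
          have h11 : (1 / 2 : ℝ) ^ J * (η / 4) ≤ 1 * (η / 4) := by gcongr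
          have h12 : ε * ε ≤ ε * 1 := by gcongr
          have h13 : ε * (η / 4) ≤ 1 * (η / 4) := by gcongr
          nlinarith
        calc ((1 / 2 : ℝ) ^ J + ε) * (T * (Real.log (b / a) + ε) + η / 4 * T)
            = (((1 / 2 : ℝ) ^ J + ε) * ((Real.log (b / a) + ε) + η / 4)) * T := by ring
          _ ≤ _ := by gcongr

private lemma geo (J : ℕ) (hJ : 15 ≤ J) : (0.5005 : ℝ) ^ J * ((J : ℝ) + 2) ^ 2 ≤ 0.009 := by
  induction J, hJ using Nat.le_induction with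
  | base => norm_num
  | succ n hn ih =>
    have h1 : (15 : ℝ) ≤ n := by exact_mod_cast hn
    push_cast
    have h2 : 0.5005 * ((n : ℝ) + 1 + 2) ^ 2 ≤ ((n : ℝ) + 2) ^ 2 := by nlinarith
    calc (0.5005 : ℝ) ^ (n + 1) * ((n : ℝ) + 1 + 2) ^ 2
        = (0.5005 : ℝ) ^ n * (0.5005 * ((n : ℝ) + 1 + 2) ^ 2) := by ring
      _ ≤ (0.5005 : ℝ) ^ n * ((n : ℝ) + 2) ^ 2 := by gcongr
      _ ≤ 0.009 := ih

private lemma lowterm (C : ℕ → ℕ → ℝ) (R0 : ℕ) (hR0 : 1000 ≤ R0)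
    (hlow : ∀ J T r : ℕ, r.Prime → R0 < r →
      C T r ≤ (((T : ℝ) / r + 1) / (r : ℝ) ^ J + 1) * (((r : ℝ) + 1) / 2) ^ J)
    (T r : ℕ) (hr : r.Prime) (hr0 : R0 < r) (hT : r ^ 16 ≤ T) :
    C T r ≤ 0.027 * T / (Real.log T) ^ 2 * ((Real.log r) ^ 2 / r) := by
  have hr1 : 1 < r := by omega
  have hTpos : 0 < T := lt_of_lt_of_le (by positivity) hT
  have hlog16 : 16 ≤ Nat.log r T := Nat.le_log_of_pow_le hr1 hT
  obtain ⟨J, hJ⟩ : ∃ J, Nat.log r T = J + 1 := ⟨Nat.log r T - 1, by omega⟩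
  have hJ15 : 15 ≤ J := by omega
  have hp1 : r ^ (J + 1) ≤ T := by
    rw [← hJ]
    exact Nat.pow_log_le_self r (by omega)
  have hp2 : T < r ^ (J + 2) := by
    have := Nat.lt_pow_succ_log_self hr1 T
    rw [hJ] at this
    exact this
  have hrR : (0 : ℝ) < r := by exact_mod_cast hr.pos
  have hr1001 : (1001 : ℝ) ≤ r := by
    have : 1001 ≤ r := by omega
    exact_mod_cast this
  have hTR : (0 : ℝ) < T := by exact_mod_cast hTpos
  have hp1R : (r : ℝ) ^ (J + 1) ≤ T := by exact_mod_cast hp1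
  have hp2R : (T : ℝ) < (r : ℝ) ^ (J + 2) := by exact_mod_cast hp2
  have hpJ : (0 : ℝ) < (r : ℝ) ^ J := by positivity
  -- bound the first factor
  have h1 : ((T : ℝ) / r + 1) / (r : ℝ) ^ J + 1 ≤ 3 * T / (r : ℝ) ^ (J + 1) := by
    rw [le_div_iff₀ (by positivity)]
    have h2 : (((T : ℝ) / r + 1) / (r : ℝ) ^ J + 1) * (r : ℝ) ^ (J + 1)
        = T + r + (r : ℝ) ^ (J + 1) := by
      rw [pow_succ]
      field_simp
    rw [h2]
    have h3 : (r : ℝ) ≤ (r : ℝ) ^ (J + 1) := by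
      calc (r : ℝ) = (r : ℝ) ^ 1 := (pow_one _).symm
        _ ≤ (r : ℝ) ^ (J + 1) := pow_le_pow_right₀ (by linarith) (by omega)
    linarith
  have h2 : (((r : ℝ) + 1) / 2) ^ J ≤ (0.5005 * r) ^ J := by
    apply pow_le_pow_left₀ (by positivity)
    linarith
  have h3 : C T r ≤ 3 * T / r * (0.5005 : ℝ) ^ J := by
    calc C T r ≤ (((T : ℝ) / r + 1) / (r : ℝ) ^ J + 1) * (((r : ℝ) + 1) / 2) ^ J :=
          hlow J T r hr hr0
      _ ≤ (3 * T / (r : ℝ) ^ (J + 1)) * (0.5005 * r) ^ J := by gcongr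
      _ = 3 * T / r * (0.5005 : ℝ) ^ J := by
          rw [mul_pow, pow_succ]
          field_simp
  have hlr : 0 < Real.log r := Real.log_pos (by linarith)
  have hlT : 0 < Real.log T := by
    apply Real.log_pos
    calc (1 : ℝ) < r := by linarith
      _ ≤ (r : ℝ) ^ (J + 1) := by
          calc (r : ℝ) = (r : ℝ) ^ 1 := (pow_one _).symm
            _ ≤ (r : ℝ) ^ (J + 1) := pow_le_pow_right₀ (by linarith) (by omega)
      _ ≤ T := hp1R
  have h4 : Real.log T ≤ ((J : ℝ) + 2) * Real.log r := by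
    calc Real.log T ≤ Real.log ((r : ℝ) ^ (J + 2)) := Real.log_le_log hTR hp2R.le
      _ = ((J : ℝ) + 2) * Real.log r := by rw [Real.log_pow]; push_cast; ring
  have h5 := geo J hJ15
  have h6 : (0.5005 : ℝ) ^ J ≤ 0.009 * ((Real.log r) ^ 2 / (Real.log T) ^ 2) := by
    have h7 : (Real.log T) ^ 2 ≤ ((J : ℝ) + 2) ^ 2 * (Real.log r) ^ 2 := by
      rw [← mul_pow]
      exact pow_le_pow_left₀ hlT.le h4 2
    rw [mul_div_assoc', le_div_iff₀ (by positivity)]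
    calc (0.5005 : ℝ) ^ J * (Real.log T) ^ 2
        ≤ (0.5005 : ℝ) ^ J * (((J : ℝ) + 2) ^ 2 * (Real.log r) ^ 2) := by gcongr
      _ = ((0.5005 : ℝ) ^ J * ((J : ℝ) + 2) ^ 2) * (Real.log r) ^ 2 := by ring
      _ ≤ 0.009 * (Real.log r) ^ 2 := by gcongr
  calc C T r ≤ 3 * T / r * (0.5005 : ℝ) ^ J := h3
    _ ≤ 3 * T / r * (0.009 * ((Real.log r) ^ 2 / (Real.log T) ^ 2)) := by gcongr
    _ = 0.027 * T / (Real.log T) ^ 2 * ((Real.log r) ^ 2 / r) := by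
        field_simp
        norm_num

private lemma lowpart (C : ℕ → ℕ → ℝ) (R0 : ℕ) (hR0 : 1000 ≤ R0)
    (hlow : ∀ J T r : ℕ, r.Prime → R0 < r →
      C T r ≤ (((T : ℝ) / r + 1) / (r : ℝ) ^ J + 1) * (((r : ℝ) + 1) / 2) ^ J)
    (hlog : ∃ D : ℝ, ∀ n : ℕ, 1 ≤ n →
      |∑ p ∈ (Finset.Icc 1 n).filter Nat.Prime, Real.log p / p - Real.log n| ≤ D) :
    ∀ᶠ T : ℕ in Filter.atTop,
      ∑ r ∈ (Icc 1 ⌊(T : ℝ) ^ (1 / 16 : ℝ)⌋₊).filter (fun r : ℕ => r.Prime ∧ R0 < r),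
        C T r ≤ 0.0003 * T := by
  obtain ⟨D, hD⟩ := hlog
  have hD0 : 0 ≤ D := (abs_nonneg _).trans (hD 1 le_rfl)
  have elog : ∀ᶠ T : ℕ in Filter.atTop, 1000 * (D + 1) ≤ Real.log T :=
    (Real.tendsto_log_atTop.comp tendsto_natCast_atTop_atTop).eventually_ge_atTop _
  filter_upwards [elog, Filter.eventually_ge_atTop 1] with T hlogT hT1
  have hT : (0 : ℝ) < T := by exact_mod_cast hT1
  have hT1R : (1 : ℝ) ≤ T := by exact_mod_cast hT1
  have hlT : 0 < Real.log T := by nlinarith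
  have hpos : (0 : ℝ) ≤ (T : ℝ) ^ (1 / 16 : ℝ) := by positivity
  have hone : (1 : ℝ) ≤ (T : ℝ) ^ (1 / 16 : ℝ) := Real.one_le_rpow hT1R (by norm_num)
  set n := ⌊(T : ℝ) ^ (1 / 16 : ℝ)⌋₊ with hn
  have hn1 : 1 ≤ n := by
    rw [hn]
    exact Nat.le_floor (by exact_mod_cast hone)
  have hnle : (n : ℝ) ≤ (T : ℝ) ^ (1 / 16 : ℝ) := Nat.floor_le hpos
  have hlogn : Real.log n ≤ Real.log T / 16 := by
    calc Real.log n ≤ Real.log ((T : ℝ) ^ (1 / 16 : ℝ)) :=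
          Real.log_le_log (by exact_mod_cast hn1) hnle
      _ = Real.log T / 16 := by rw [Real.log_rpow hT]; ring
  have hn16 : ∀ r : ℕ, r ≤ n → r ^ 16 ≤ T := by
    intro r hr
    have h1 : (r : ℝ) ≤ (T : ℝ) ^ (1 / 16 : ℝ) := le_trans (by exact_mod_cast hr) hnle
    have h2 : (r : ℝ) ^ 16 ≤ ((T : ℝ) ^ (1 / 16 : ℝ)) ^ 16 := pow_le_pow_left₀ (by positivity) h1 16
    have h3 : ((T : ℝ) ^ (1 / 16 : ℝ)) ^ 16 = T := by
      rw [← Real.rpow_natCast, ← Real.rpow_mul hT.le]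
      norm_num
    rw [h3] at h2
    exact_mod_cast h2
  set F := (Icc 1 n).filter (fun r : ℕ => r.Prime ∧ R0 < r) with hF
  have h1 : ∀ r ∈ F, C T r ≤ 0.027 * T / (Real.log T) ^ 2 * ((Real.log r) ^ 2 / r) := by
    intro r hr
    rw [hF, Finset.mem_filter, Finset.mem_Icc] at hr
    exact lowterm C R0 hR0 hlow T r hr.2.1 hr.2.2 (hn16 r hr.1.2)
  have h2 : ∀ r ∈ F, (Real.log r) ^ 2 / r ≤ Real.log T / 16 * (Real.log r / r) := by
    intro r hr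
    rw [hF, Finset.mem_filter, Finset.mem_Icc] at hr
    have hr0 : (1 : ℝ) ≤ r := by exact_mod_cast hr.1.1
    have hlr : Real.log r ≤ Real.log T / 16 :=
      (Real.log_le_log (by linarith) (by exact_mod_cast hr.1.2)).trans hlogn
    have hlr0 : 0 ≤ Real.log r := Real.log_nonneg hr0
    rw [sq, mul_div_assoc]
    gcongr
  have h3 : ∑ r ∈ F, Real.log r / r ≤ Real.log T / 16 + D := by
    have h4 : ∑ r ∈ F, Real.log r / r ≤ ∑ p ∈ (Finset.Icc 1 n).filter Nat.Prime, Real.log p / p := by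
      apply Finset.sum_le_sum_of_subset_of_nonneg
      · intro r hr
        rw [hF, Finset.mem_filter] at hr
        rw [Finset.mem_filter]
        exact ⟨hr.1, hr.2.1⟩
      · intro r _ _
        positivity
    have h5 := (abs_le.1 (hD n hn1)).2
    linarith
  have h6 : ∑ r ∈ F, C T r ≤ 0.027 * T / (Real.log T) ^ 2 * (Real.log T / 16 * (Real.log T / 16 + D)) := by
    calc ∑ r ∈ F, C T r ≤ ∑ r ∈ F, 0.027 * T / (Real.log T) ^ 2 * ((Real.log r) ^ 2 / r) :=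
          Finset.sum_le_sum h1
      _ = 0.027 * T / (Real.log T) ^ 2 * ∑ r ∈ F, (Real.log r) ^ 2 / r := by rw [Finset.mul_sum]
      _ ≤ 0.027 * T / (Real.log T) ^ 2 * ∑ r ∈ F, Real.log T / 16 * (Real.log r / r) := by
          gcongr with r hr
          exact h2 r hr
      _ = 0.027 * T / (Real.log T) ^ 2 * (Real.log T / 16 * ∑ r ∈ F, Real.log r / r) := by
          rw [← Finset.mul_sum]
      _ ≤ _ := by gcongr
  refine h6.trans ?_
  have h7 : 0.027 * T / (Real.log T) ^ 2 * (Real.log T / 16 * (Real.log T / 16 + D))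
      = T * (0.027 / 256 + 0.027 / 16 * (D / Real.log T)) := by
    field_simp
    ring
  rw [h7]
  have h8 : D / Real.log T ≤ 1 / 1000 := by
    rw [div_le_div_iff₀ hlT (by norm_num)]
    linarith
  nlinarith

/-- Numerical assembly of the middle and low ranges. The hypotheses `hlog`, `hmass` are the proved
Mertens theorems. -/
theorem midcost (C : ℕ → ℕ → ℝ) (R0 : ℕ) (hR0 : 1000 ≤ R0)
    (hnn : ∀ T r, 0 ≤ C T r)
    (hweyl : ∀ J : ℕ, 1 ≤ J → ∀ ε : ℝ, 0 < ε → ∃ K : ℝ, 0 < K ∧ ∀ T r : ℕ, r.Prime → R0 < r →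
      K ≤ r → K * (r : ℝ) ^ 2 ≤ T → K * (r : ℝ) ^ (J + 1) ≤ (T : ℝ) ^ 2 →
      C T r ≤ ((1 / 2 : ℝ) ^ J + ε) * ((T : ℝ) / r + 1))
    (hlow : ∀ J T r : ℕ, r.Prime → R0 < r →
      C T r ≤ (((T : ℝ) / r + 1) / (r : ℝ) ^ J + 1) * (((r : ℝ) + 1) / 2) ^ J)
    (hlog : ∃ D : ℝ, ∀ n : ℕ, 1 ≤ n →
      |∑ p ∈ (Finset.Icc 1 n).filter Nat.Prime, Real.log p / p - Real.log n| ≤ D)
    (hmass : ∀ a b ε : ℝ, 0 < a → a < b → 0 < ε → ∃ T0 : ℝ, ∀ T : ℝ, T0 ≤ T →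
      ∑ p ∈ (Finset.Icc 1 ⌊T ^ b⌋₊).filter (fun p : ℕ => p.Prime ∧ T ^ a < (p : ℝ)),
        (1 : ℝ) / p ≤ Real.log (b / a) + ε) :
    ∃ T0 : ℕ, ∀ T : ℕ, T0 ≤ T →
      ∑ r ∈ (Icc 1 ⌊(T : ℝ) ^ (499 / 1000 : ℝ)⌋₊).filter (fun r : ℕ => r.Prime ∧ R0 < r), C T r
        ≤ (65 / 1000 : ℝ) * T := by
  have p3 := piece C R0 hweyl hmass 3 (by norm_num) (399 / 1000) (499 / 1000) (by norm_num)
    (by norm_num) (by norm_num) (by norm_num) 0.0005 (by norm_num)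
  have p4 := piece C R0 hweyl hmass 4 (by norm_num) (333 / 1000) (399 / 1000) (by norm_num)
    (by norm_num) (by norm_num) (by norm_num) 0.0005 (by norm_num)
  have p5 := piece C R0 hweyl hmass 5 (by norm_num) (285 / 1000) (333 / 1000) (by norm_num)
    (by norm_num) (by norm_num) (by norm_num) 0.0005 (by norm_num)
  have p6 := piece C R0 hweyl hmass 6 (by norm_num) (249 / 1000) (285 / 1000) (by norm_num)
    (by norm_num) (by norm_num) (by norm_num) 0.0005 (by norm_num)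
  have p7 := piece C R0 hweyl hmass 7 (by norm_num) (1 / 16) (249 / 1000) (by norm_num)
    (by norm_num) (by norm_num) (by norm_num) 0.0005 (by norm_num)
  have p0 := lowpart C R0 hR0 hlow hlog
  obtain ⟨T0, hT0⟩ := Filter.eventually_atTop.1
    (p0.and (p3.and (p4.and (p5.and (p6.and p7)))))
  refine ⟨T0, fun T hT => ?_⟩
  obtain ⟨q0, q3, q4, q5, q6, q7⟩ := hT0 T hT
  -- splitting of the range
  have split : ∀ a b : ℝ,
      ∑ r ∈ (Icc 1 ⌊(T : ℝ) ^ b⌋₊).filter (fun r : ℕ => r.Prime ∧ R0 < r), C T r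
      ≤ ∑ r ∈ (Icc 1 ⌊(T : ℝ) ^ a⌋₊).filter (fun r : ℕ => r.Prime ∧ R0 < r), C T r
        + ∑ r ∈ (Icc 1 ⌊(T : ℝ) ^ b⌋₊).filter
            (fun r : ℕ => (r.Prime ∧ R0 < r) ∧ (T : ℝ) ^ a < (r : ℝ)), C T r := by
    intro a b
    have hsub : (Icc 1 ⌊(T : ℝ) ^ b⌋₊).filter (fun r : ℕ => r.Prime ∧ R0 < r) ⊆
        (Icc 1 ⌊(T : ℝ) ^ a⌋₊).filter (fun r : ℕ => r.Prime ∧ R0 < r) ∪
        (Icc 1 ⌊(T : ℝ) ^ b⌋₊).filter
            (fun r : ℕ => (r.Prime ∧ R0 < r) ∧ (T : ℝ) ^ a < (r : ℝ)) := by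
      intro r hr
      rw [Finset.mem_filter, Finset.mem_Icc] at hr
      rw [Finset.mem_union, Finset.mem_filter, Finset.mem_filter, Finset.mem_Icc, Finset.mem_Icc]
      rcases le_or_gt (r : ℝ) ((T : ℝ) ^ a) with h | h
      · exact Or.inl ⟨⟨hr.1.1, Nat.le_floor h⟩, hr.2⟩
      · exact Or.inr ⟨hr.1, hr.2, h⟩
    calc _ ≤ ∑ r ∈ (Icc 1 ⌊(T : ℝ) ^ a⌋₊).filter (fun r : ℕ => r.Prime ∧ R0 < r) ∪
        (Icc 1 ⌊(T : ℝ) ^ b⌋₊).filter
            (fun r : ℕ => (r.Prime ∧ R0 < r) ∧ (T : ℝ) ^ a < (r : ℝ)), C T r :=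
          Finset.sum_le_sum_of_subset_of_nonneg hsub (fun r _ _ => hnn T r)
      _ ≤ _ := by
          have := Finset.sum_union_inter (s₁ := (Icc 1 ⌊(T : ℝ) ^ a⌋₊).filter
            (fun r : ℕ => r.Prime ∧ R0 < r)) (s₂ := (Icc 1 ⌊(T : ℝ) ^ b⌋₊).filter
            (fun r : ℕ => (r.Prime ∧ R0 < r) ∧ (T : ℝ) ^ a < (r : ℝ))) (f := fun r => C T r)
          rw [← this]
          have h0 : 0 ≤ ∑ r ∈ (Icc 1 ⌊(T : ℝ) ^ a⌋₊).filter (fun r : ℕ => r.Prime ∧ R0 < r) ∩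
            (Icc 1 ⌊(T : ℝ) ^ b⌋₊).filter
            (fun r : ℕ => (r.Prime ∧ R0 < r) ∧ (T : ℝ) ^ a < (r : ℝ)), C T r :=
            Finset.sum_nonneg (fun r _ => hnn T r)
          linarith
  have s1 := split (399 / 1000) (499 / 1000)
  have s2 := split (333 / 1000) (399 / 1000)
  have s3 := split (285 / 1000) (333 / 1000)
  have s4 := split (249 / 1000) (285 / 1000)
  have s5 := split (1 / 16) (249 / 1000)
  have l3 : Real.log ((499 / 1000) / (399 / 1000)) ≤ 100 / 399 := by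
    have := Real.log_le_sub_one_of_pos (x := (499 / 1000) / (399 / 1000)) (by norm_num)
    refine this.trans (by norm_num)
  have l4 : Real.log ((399 / 1000) / (333 / 1000)) ≤ 66 / 333 := by
    have := Real.log_le_sub_one_of_pos (x := (399 / 1000) / (333 / 1000)) (by norm_num)
    refine this.trans (by norm_num)
  have l5 : Real.log ((333 / 1000) / (285 / 1000)) ≤ 48 / 285 := by
    have := Real.log_le_sub_one_of_pos (x := (333 / 1000) / (285 / 1000)) (by norm_num)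
    refine this.trans (by norm_num)
  have l6 : Real.log ((285 / 1000) / (249 / 1000)) ≤ 36 / 249 := by
    have := Real.log_le_sub_one_of_pos (x := (285 / 1000) / (249 / 1000)) (by norm_num)
    refine this.trans (by norm_num)
  have l7 : Real.log ((249 / 1000) / (1 / 16)) ≤ 1.3863 := by
    have h1 : Real.log ((249 / 1000) / (1 / 16)) ≤ Real.log ((2 : ℝ) ^ (2 : ℕ)) :=
      Real.log_le_log (by norm_num) (by norm_num)
    rw [Real.log_pow] at h1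
    have h3 := Real.log_two_lt_d9
    refine h1.trans ?_
    norm_num
    linarith
  have hTn : (0 : ℝ) ≤ T := by positivity
  have t3 := mul_le_mul_of_nonneg_right l3 hTn
  have t4 := mul_le_mul_of_nonneg_right l4 hTn
  have t5 := mul_le_mul_of_nonneg_right l5 hTn
  have t6 := mul_le_mul_of_nonneg_right l6 hTn
  have t7 := mul_le_mul_of_nonneg_right l7 hTn
  norm_num at q3 q4 q5 q6 q7 q0 s1 s2 s3 s4 s5 t3 t4 t5 t6 t7 ⊢
  nlinarith

end Pool.Agent.Helper170.MidCost
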