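import Mathlib

namespace Pool.Agent.Helper170.Squares

open Finset

theorem squares_card (s0 Q R0 : ℕ) (hQ : 0 < Q) (hR0 : 1000 ≤ R0) (a b : ℤ)
    (hab : (a = 2 ∧ b = 1) ∨ (a = 3 ∧ b = -1) ∨ (a = 3 ∧ b = 2) ∨ (a = 2 ∧ b = -1)) (T r : ℕ)
    (hr : r.Prime) (hrR : R0 < r) (hrQ : ¬ r ∣ Q) :
    ((((Icc 1 T).filter (fun t : ℕ => ((r : ℤ) ^ 2) ∣ a * ((s0 : ℤ) + Q * t) + b)).card : ℝ))
      ≤ (T : ℝ) * (((r : ℝ) ^ 2)⁻¹) + (if r ^ 2 ≤ 6 * (s0 + Q * T) + 10 then 1 else 0) := by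
  classical
  have hr2 : 0 < r ^ 2 := pow_pos hr.pos 2
  by_cases hne : ((Icc 1 T).filter (fun t : ℕ => ((r : ℤ) ^ 2) ∣ a * ((s0 : ℤ) + Q * t) + b)).Nonempty
  · have hle : r ^ 2 ≤ 6 * (s0 + Q * T) + 10 := by
      obtain ⟨t, ht⟩ := hne
      rw [mem_filter, mem_Icc] at ht
      obtain ⟨⟨h1, h2⟩, h3⟩ := ht
      have hQt : (1 : ℤ) ≤ (Q : ℤ) * t := by
        have : 1 ≤ Q * t := Nat.mul_pos hQ h1
        exact_mod_cast this
      have hQT : (Q : ℤ) * t ≤ (Q : ℤ) * T := by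
        have : Q * t ≤ Q * T := Nat.mul_le_mul_left _ h2
        exact_mod_cast this
      have hs0 : (0 : ℤ) ≤ s0 := by positivity
      have hpos : 0 < a * ((s0 : ℤ) + Q * t) + b := by
        rcases hab with ⟨rfl, rfl⟩ | ⟨rfl, rfl⟩ | ⟨rfl, rfl⟩ | ⟨rfl, rfl⟩ <;> nlinarith
      have h4 := Int.le_of_dvd hpos h3
      have h5 : a * ((s0 : ℤ) + Q * t) + b ≤ 6 * (s0 + Q * T) + 10 := by
        rcases hab with ⟨rfl, rfl⟩ | ⟨rfl, rfl⟩ | ⟨rfl, rfl⟩ | ⟨rfl, rfl⟩ <;> nlinarith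
      have h6 : ((r : ℤ) ^ 2) ≤ 6 * (s0 + Q * T) + 10 := le_trans h4 h5
      exact_mod_cast h6
    rw [if_pos hle]
    have hcard : ((Icc 1 T).filter (fun t : ℕ => ((r : ℤ) ^ 2) ∣ a * ((s0 : ℤ) + Q * t) + b)).card
        ≤ T / r ^ 2 + 1 := by
      have : ((Icc 1 T).filter (fun t : ℕ => ((r : ℤ) ^ 2) ∣ a * ((s0 : ℤ) + Q * t) + b)).card
          ≤ (range (T / r ^ 2 + 1)).card := by
        apply card_le_card_of_injOn (fun t => t / r ^ 2)
        · intro t ht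
          simp only [coe_filter, mem_Icc, Set.mem_setOf_eq] at ht
          simp only [coe_range, Set.mem_Iio]
          exact Nat.lt_succ_of_le (Nat.div_le_div_right ht.1.2)
        · intro t ht t' ht' heq
          simp only [coe_filter, mem_Icc, Set.mem_setOf_eq] at ht ht'
          have hd := dvd_sub ht.2 ht'.2
          have he : a * ((s0 : ℤ) + Q * t) + b - (a * ((s0 : ℤ) + Q * t') + b)
              = (a * Q) * ((t : ℤ) - t') := by ring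
          rw [he] at hd
          have hrp : Prime (r : ℤ) := Nat.prime_iff_prime_int.mp hr
          have hra : ¬ (r : ℤ) ∣ a := by
            intro h
            have hapos : 0 < a := by rcases hab with ⟨rfl, rfl⟩ | ⟨rfl, rfl⟩ | ⟨rfl, rfl⟩ | ⟨rfl, rfl⟩ <;> norm_num
            have h1 := Int.le_of_dvd hapos h
            have h2 : a ≤ 3 := by rcases hab with ⟨rfl, rfl⟩ | ⟨rfl, rfl⟩ | ⟨rfl, rfl⟩ | ⟨rfl, rfl⟩ <;> norm_num
            have h3 : (1000 : ℤ) < r := by exact_mod_cast lt_of_le_of_lt hR0 hrR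
            linarith
          have hrQ' : ¬ (r : ℤ) ∣ (Q : ℤ) := by
            intro h
            exact hrQ (by exact_mod_cast h)
          have hcop : IsCoprime ((r : ℤ) ^ 2) (a * Q) := by
            apply IsCoprime.pow_left
            rw [Prime.coprime_iff_not_dvd hrp]
            intro h
            rcases hrp.dvd_or_dvd h with h | h
            · exact hra h
            · exact hrQ' h
          have hd2 : ((r : ℤ) ^ 2) ∣ ((t : ℤ) - t') := hcop.dvd_of_dvd_mul_left hd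
          have hmod : t % r ^ 2 = t' % r ^ 2 := by
            have : (t' : ℤ) ≡ t [ZMOD ((r ^ 2 : ℕ) : ℤ)] := by
              rw [Int.modEq_iff_dvd]
              push_cast
              exact hd2
            exact ((Int.natCast_modEq_iff).mp this).symm
          have heq' : t / r ^ 2 = t' / r ^ 2 := heq
          calc t = r ^ 2 * (t / r ^ 2) + t % r ^ 2 := (Nat.div_add_mod _ _).symm
            _ = r ^ 2 * (t' / r ^ 2) + t' % r ^ 2 := by rw [heq', hmod]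
            _ = t' := Nat.div_add_mod _ _
      simpa using this
    have h7 : ((T / r ^ 2 : ℕ) : ℝ) ≤ (T : ℝ) * (((r : ℝ) ^ 2)⁻¹) := by
      have := @Nat.cast_div_le ℝ _ _ _ T (r ^ 2)
      push_cast at this
      rwa [div_eq_mul_inv] at this
    calc ((((Icc 1 T).filter (fun t : ℕ => ((r : ℤ) ^ 2) ∣ a * ((s0 : ℤ) + Q * t) + b)).card : ℝ))
        ≤ ((T / r ^ 2 + 1 : ℕ) : ℝ) := by exact_mod_cast hcard
      _ ≤ _ := by push_cast at h7 ⊢; linarith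
  · rw [not_nonempty_iff_eq_empty] at hne
    rw [hne]
    simp only [card_empty, Nat.cast_zero]
    have : (0:ℝ) ≤ (if r ^ 2 ≤ 6 * (s0 + Q * T) + 10 then 1 else 0) := by split_ifs <;> norm_num
    positivity

theorem squares (s0 Q R0 : ℕ) (hQ : 0 < Q) (hR0 : 1000 ≤ R0) (a b : ℤ)
    (hab : (a = 2 ∧ b = 1) ∨ (a = 3 ∧ b = -1) ∨ (a = 3 ∧ b = 2) ∨ (a = 2 ∧ b = -1)) :
    ∃ T0 : ℕ, ∀ T : ℕ, T0 ≤ T →
      ∑ r ∈ (Icc 1 (6 * (s0 + Q * T) + 10)).filter (fun r : ℕ => r.Prime ∧ R0 < r ∧ ¬ r ∣ Q),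
        (((Icc 1 T).filter (fun t : ℕ => ((r : ℤ) ^ 2) ∣ a * ((s0 : ℤ) + Q * t) + b)).card : ℝ)
        ≤ (2 / 1000 : ℝ) * T := by
  classical
  refine ⟨10 ^ 6 * (6 * s0 + 6 * Q + 10), fun T hT => ?_⟩
  set Y := 6 * (s0 + Q * T) + 10 with hY
  have hT1 : 1 ≤ T := le_trans (by omega) hT
  have step1 : ∑ r ∈ (Icc 1 Y).filter (fun r : ℕ => r.Prime ∧ R0 < r ∧ ¬ r ∣ Q),
        (((Icc 1 T).filter (fun t : ℕ => ((r : ℤ) ^ 2) ∣ a * ((s0 : ℤ) + Q * t) + b)).card : ℝ)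
      ≤ ∑ r ∈ (Icc 1 Y).filter (fun r : ℕ => r.Prime ∧ R0 < r ∧ ¬ r ∣ Q),
        ((T : ℝ) * (((r : ℝ) ^ 2)⁻¹) + (if r ^ 2 ≤ Y then 1 else 0)) := by
    apply sum_le_sum
    intro r hr
    rw [mem_filter] at hr
    exact squares_card s0 Q R0 hQ hR0 a b hab T r hr.2.1 hr.2.2.1 hr.2.2.2
  rw [sum_add_distrib, ← mul_sum] at step1
  have step2 : ∑ r ∈ (Icc 1 Y).filter (fun r : ℕ => r.Prime ∧ R0 < r ∧ ¬ r ∣ Q), (((r : ℝ) ^ 2)⁻¹)
      ≤ 1 / 1000 := by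
    have hsub : (Icc 1 Y).filter (fun r : ℕ => r.Prime ∧ R0 < r ∧ ¬ r ∣ Q) ⊆ Ioc R0 (max R0 Y) := by
      intro r hr
      rw [mem_filter, mem_Icc] at hr
      rw [mem_Ioc]
      exact ⟨hr.2.2.1, le_trans hr.1.2 (le_max_right _ _)⟩
    calc _ ≤ ∑ r ∈ Ioc R0 (max R0 Y), (((r : ℝ) ^ 2)⁻¹) := by
          apply sum_le_sum_of_subset_of_nonneg hsub
          intros; positivity
      _ ≤ ((R0 : ℝ))⁻¹ - ((max R0 Y : ℕ) : ℝ)⁻¹ := sum_Ioc_inv_sq_le_sub (by omega) (le_max_left _ _)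
      _ ≤ (R0 : ℝ)⁻¹ := by
          have : (0 : ℝ) ≤ ((max R0 Y : ℕ) : ℝ)⁻¹ := by positivity
          linarith
      _ ≤ 1 / 1000 := by
          rw [one_div]
          apply inv_anti₀ (by norm_num)
          exact_mod_cast hR0
  have step3 : ∑ r ∈ (Icc 1 Y).filter (fun r : ℕ => r.Prime ∧ R0 < r ∧ ¬ r ∣ Q),
      (if r ^ 2 ≤ Y then (1 : ℝ) else 0) ≤ (Nat.sqrt Y : ℝ) := by
    rw [← sum_filter, sum_const, nsmul_eq_mul, mul_one]
    have hsub : ((Icc 1 Y).filter (fun r : ℕ => r.Prime ∧ R0 < r ∧ ¬ r ∣ Q)).filter (fun r => r ^ 2 ≤ Y)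
        ⊆ Icc 1 (Nat.sqrt Y) := by
      intro r hr
      rw [mem_filter, mem_filter, mem_Icc] at hr
      rw [mem_Icc]
      exact ⟨hr.1.1.1, Nat.le_sqrt'.mpr hr.2⟩
    have := card_le_card hsub
    rw [Nat.card_Icc, Nat.add_sub_cancel] at this
    exact_mod_cast this
  have step4 : (Nat.sqrt Y : ℝ) ≤ (T : ℝ) / 1000 := by
    have h1 : (1000 * Nat.sqrt Y) ≤ T := by
      have h2 : (1000 * Nat.sqrt Y) ^ 2 ≤ T ^ 2 := by
        have h3 : (Nat.sqrt Y) ^ 2 ≤ Y := Nat.sqrt_le' Y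
        calc (1000 * Nat.sqrt Y) ^ 2 = 10 ^ 6 * (Nat.sqrt Y) ^ 2 := by ring
          _ ≤ 10 ^ 6 * Y := Nat.mul_le_mul_left _ h3
          _ ≤ 10 ^ 6 * ((6 * s0 + 6 * Q + 10) * T) := by
              apply Nat.mul_le_mul_left
              rw [hY]
              nlinarith
          _ = (10 ^ 6 * (6 * s0 + 6 * Q + 10)) * T := by ring
          _ ≤ T * T := Nat.mul_le_mul_right _ hT
          _ = T ^ 2 := by ring
      exact (Nat.pow_le_pow_iff_left (by norm_num)).mp h2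
    have h2 : (1000 : ℝ) * (Nat.sqrt Y : ℝ) ≤ T := by exact_mod_cast h1
    linarith
  have hTpos : (0:ℝ) < T := by exact_mod_cast hT1
  have step5 := mul_le_mul_of_nonneg_left step2 hTpos.le
  linarith

end Pool.Agent.Helper170.Squares
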