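import Pool.Agent.Helper170.Mertens
import Pool.Agent.Helper170.Majorant
import Pool.Agent.Helper170.Weyl
import Pool.Agent.Helper170.Arith
import Pool.Agent.Helper170.Equi
import Pool.Agent.Helper170.LowDigit
import Pool.Agent.Helper170.BadCount
import Pool.Agent.Helper170.MidCost
import Pool.Agent.Helper170.Squares

namespace Pool.Agent.Helper170.Core

open Finset
open scoped Classical

/-- number of `t ≤ T` at which `r` divides the linear factor and no carry occurs -/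
noncomputable def Cn (s0 Q : ℕ) (a b : ℤ) (T r : ℕ) : ℝ :=
  if r.Prime ∧ 1000 < r ∧ ¬ r ∣ Q then
    (((Icc 1 T).filter (fun t : ℕ => (r : ℤ) ∣ a * ((s0 : ℤ) + Q * t) + b ∧
        ¬ ∃ j : ℕ, 1 ≤ j ∧ (r : ℤ) ^ j ≤
          2 * ((6 * ((s0 : ℤ) + Q * t) ^ 2 + ((s0 : ℤ) + Q * t) - 1) % (r : ℤ) ^ j))).card : ℝ)
  else 0

def Ok (a b δ : ℤ) : Prop := (a = 2 ∧ b = 1 ∧ δ = 0) ∨ (a = 3 ∧ b = -1 ∧ δ = 0) ∨
      (a = 3 ∧ b = 2 ∧ δ = 1) ∨ (a = 2 ∧ b = -1 ∧ δ = 1)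

lemma Cn_nonneg (s0 Q : ℕ) (a b : ℤ) (T r : ℕ) : 0 ≤ Cn s0 Q a b T r := by
  unfold Cn
  split_ifs
  · positivity
  · exact le_refl _

lemma nat_div_cast_le (T r : ℕ) : (((T / r + 1 : ℕ)) : ℝ) ≤ (T : ℝ) / r + 1 := by
  push_cast
  have := @Nat.cast_div_le ℝ _ _ _ T r
  linarith

lemma nat_div_cast_ge (T r : ℕ) (hr : 0 < r) : (T : ℝ) / r ≤ (((T / r + 1 : ℕ)) : ℝ) := by
  have h : T < r * (T / r + 1) := by
    have := Nat.lt_mul_div_succ T hr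
    simpa using this
  have h' : (T : ℝ) < r * ((T / r + 1 : ℕ) : ℝ) := by exact_mod_cast h
  have hr' : (0 : ℝ) < r := by exact_mod_cast hr
  rw [div_le_iff₀ hr']
  linarith

lemma Cn_weyl (s0 Q : ℕ) (hQ0 : 0 < Q) (a b δ : ℤ) (hok : Ok a b δ) :
    ∀ J : ℕ, 1 ≤ J → ∀ ε : ℝ, 0 < ε → ∃ K : ℝ, 0 < K ∧ ∀ T r : ℕ, r.Prime → 1000 < r →
      K ≤ r → K * (r : ℝ) ^ 2 ≤ T → K * (r : ℝ) ^ (J + 1) ≤ (T : ℝ) ^ 2 →
      Cn s0 Q a b T r ≤ ((1 / 2 : ℝ) ^ J + ε) * ((T : ℝ) / r + 1) := by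
  intro J hJ ε hε
  obtain ⟨K, hK0, hK⟩ := Equi.equidist Majorant.majorant Weyl.weyl J hJ ε hε (6 * (Q : ℤ) ^ 2)
    (by positivity)
  refine ⟨K, hK0, ?_⟩
  intro T r hr h1000 hKr hT1 hT2
  unfold Cn
  split_ifs with hcond
  · obtain ⟨β, γ, hβ, hcard⟩ := BadCount.badcount s0 Q T r a b δ hok hr (by omega) hcond.2.2
    have h1 := hcard J
    have hr0 : (0 : ℝ) < r := by exact_mod_cast hr.pos
    have hN := nat_div_cast_ge T r hr.pos
    have h2 := hK r β γ (T / r + 1) hr hKr hβ (by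
      calc K * (r : ℝ) ≤ (T : ℝ) / r := by
            rw [le_div_iff₀ hr0]; nlinarith
        _ ≤ _ := hN) (by
      have h3 : K * (r : ℝ) ^ (J - 1) ≤ ((T : ℝ) / r) ^ 2 := by
        rw [div_pow, le_div_iff₀ (by positivity)]
        have : K * (r : ℝ) ^ (J - 1) * (r : ℝ) ^ 2 = K * (r : ℝ) ^ (J + 1) := by
          rw [mul_assoc, ← pow_add]
          congr 2
          omega
        rw [this]; exact hT2
      have h4 : ((T : ℝ) / r) ^ 2 ≤ (((T / r + 1 : ℕ)) : ℝ) ^ 2 :=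
        pow_le_pow_left₀ (by positivity) hN 2
      exact h3.trans h4)
    have h1' : (((Icc 1 T).filter (fun t : ℕ => (r : ℤ) ∣ a * ((s0 : ℤ) + Q * t) + b ∧
        ¬ ∃ j : ℕ, 1 ≤ j ∧ (r : ℤ) ^ j ≤
          2 * ((6 * ((s0 : ℤ) + Q * t) ^ 2 + ((s0 : ℤ) + Q * t) - 1) % (r : ℤ) ^ j))).card : ℝ) ≤
        (((range (T / r + 1)).filter (fun c : ℕ => ∀ j ∈ Icc 1 J,
        2 * ((γ + β * c + (6 * (Q : ℤ) ^ 2) * r * (c : ℤ) ^ 2) % (r : ℤ) ^ j)
          < (r : ℤ) ^ j)).card : ℝ) := by exact_mod_cast h1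
    refine h1'.trans (h2.trans ?_)
    exact mul_le_mul_of_nonneg_left (nat_div_cast_le T r) (by positivity)
  · positivity

lemma Cn_low (s0 Q : ℕ) (a b δ : ℤ) (hok : Ok a b δ) :
    ∀ J T r : ℕ, r.Prime → 1000 < r →
      Cn s0 Q a b T r ≤ (((T : ℝ) / r + 1) / (r : ℝ) ^ J + 1) * (((r : ℝ) + 1) / 2) ^ J := by
  intro J T r hr h1000
  unfold Cn
  split_ifs with hcond
  · obtain ⟨β, γ, hβ, hcard⟩ := BadCount.badcount s0 Q T r a b δ hok hr (by omega) hcond.2.2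
    have h1 := hcard J
    have hr0 : (0 : ℝ) < r := by exact_mod_cast hr.pos
    have h2 := LowDigit.lowdigit r hr (by omega) (6 * (Q : ℤ) ^ 2) β γ hβ J (T / r + 1)
    have h1' : (((Icc 1 T).filter (fun t : ℕ => (r : ℤ) ∣ a * ((s0 : ℤ) + Q * t) + b ∧
        ¬ ∃ j : ℕ, 1 ≤ j ∧ (r : ℤ) ^ j ≤
          2 * ((6 * ((s0 : ℤ) + Q * t) ^ 2 + ((s0 : ℤ) + Q * t) - 1) % (r : ℤ) ^ j))).card : ℝ) ≤
        (((range (T / r + 1)).filter (fun c : ℕ => ∀ j ∈ Icc 1 J,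
        2 * ((γ + β * c + (6 * (Q : ℤ) ^ 2) * r * (c : ℤ) ^ 2) % (r : ℤ) ^ j)
          < (r : ℤ) ^ j)).card : ℝ) := by exact_mod_cast h1
    refine h1'.trans (h2.trans ?_)
    apply mul_le_mul_of_nonneg_right _ (by positivity)
    have := nat_div_cast_le T r
    gcongr
  · positivity

lemma Cn_triv (s0 Q : ℕ) (a b δ : ℤ) (hok : Ok a b δ) (T r : ℕ) :
    Cn s0 Q a b T r ≤ (T : ℝ) / r + 1 := by
  unfold Cn
  split_ifs with hcond
  · obtain ⟨β, γ, hβ, hcard⟩ := BadCount.badcount s0 Q T r a b δ hok hcond.1 (by omega) hcond.2.2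
    have h1 := (hcard 0).trans (Finset.card_filter_le _ _)
    rw [Finset.card_range] at h1
    have h2 := nat_div_cast_le T r
    refine le_trans ?_ h2
    exact_mod_cast h1
  · positivity

lemma mid (s0 Q : ℕ) (hQ0 : 0 < Q) (a b δ : ℤ) (hok : Ok a b δ) :
    ∃ T0 : ℕ, ∀ T : ℕ, T0 ≤ T →
      ∑ r ∈ (Icc 1 ⌊(T : ℝ) ^ (499 / 1000 : ℝ)⌋₊).filter (fun r : ℕ => r.Prime ∧ 1000 < r),
        Cn s0 Q a b T r ≤ (65 / 1000 : ℝ) * T :=
  MidCost.midcost (Cn s0 Q a b) 1000 (le_refl _) (Cn_nonneg s0 Q a b)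
    (Cn_weyl s0 Q hQ0 a b δ hok) (Cn_low s0 Q a b δ hok) Mertens.sum_log_div
    (fun _ _ _ h1 h2 h3 => Mertens.mass h1 h2 h3)

/-- few primes above `T^0.499` up to a linear function of `T` -/
lemma few_primes (A B : ℕ) (κ : ℝ) (hκ : 0 < κ) : ∃ T0 : ℕ, ∀ T : ℕ, T0 ≤ T →
    (((Icc 1 (A * T + B)).filter (fun r : ℕ => r.Prime ∧ (T : ℝ) ^ (499 / 1000 : ℝ) < r)).card : ℝ)
      ≤ κ * T := by
  -- card * (0.499 log T) ≤ θ(AT+B) ≤ log 4 (AT+B)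
  set D : ℝ := Real.log 4 * (A + B) / (499 / 1000) / κ with hD
  refine ⟨⌈Real.exp (D + 1)⌉₊, ?_⟩
  intro T hT
  have hT1 : Real.exp (D + 1) ≤ T := (Nat.le_ceil _).trans (by exact_mod_cast hT)
  have hTpos : (0 : ℝ) < T := lt_of_lt_of_le (Real.exp_pos _) hT1
  have hTge1 : (1 : ℝ) ≤ T := by
    have : 1 ≤ T := Nat.one_le_iff_ne_zero.2 (by
      rintro rfl
      simp at hTpos)
    exact_mod_cast this
  have hlogT : D + 1 ≤ Real.log T := by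
    rw [Real.le_log_iff_exp_le hTpos]; exact hT1
  have hD0 : 0 ≤ D := by rw [hD]; positivity
  have hlogpos : 0 < Real.log T := by linarith
  set F := (Icc 1 (A * T + B)).filter (fun r : ℕ => r.Prime ∧ (T : ℝ) ^ (499 / 1000 : ℝ) < r)
    with hF
  have h1 : (F.card : ℝ) * ((499 / 1000) * Real.log T) ≤ ∑ r ∈ F, Real.log r := by
    rw [← nsmul_eq_mul]
    apply Finset.card_nsmul_le_sum
    intro r hr
    rw [hF, mem_filter] at hr
    rw [← Real.log_rpow hTpos]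
    exact Real.log_le_log (Real.rpow_pos_of_pos hTpos _) hr.2.2.le
  have h2 : ∑ r ∈ F, Real.log r ≤ Chebyshev.theta ((A * T + B : ℕ) : ℝ) := by
    rw [Chebyshev.theta_eq_sum_Icc, Nat.floor_natCast]
    apply Finset.sum_le_sum_of_subset_of_nonneg
    · intro r hr
      rw [hF, mem_filter, mem_Icc] at hr
      rw [mem_filter, mem_Icc]
      exact ⟨⟨by omega, hr.1.2⟩, hr.2.1⟩
    · intro r hr _
      rw [mem_filter] at hr
      apply Real.log_nonneg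
      exact_mod_cast hr.2.one_lt.le
  have h3 : Chebyshev.theta ((A * T + B : ℕ) : ℝ) ≤ Real.log 4 * ((A + B) * T) := by
    refine (Chebyshev.theta_le_log4_mul_x (by positivity)).trans ?_
    apply mul_le_mul_of_nonneg_left _ (by positivity)
    push_cast
    nlinarith [show (0 : ℝ) ≤ B by positivity]
  have h4 : (F.card : ℝ) * ((499 / 1000) * Real.log T) ≤ Real.log 4 * ((A + B) * T) :=
    h1.trans (h2.trans h3)
  have h5 : Real.log 4 * (A + B) = D * (499 / 1000) * κ := by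
    rw [hD]; field_simp
  have h6 : (F.card : ℝ) * ((499 / 1000) * Real.log T) ≤ (κ * T) * ((499 / 1000) * Real.log T) := by
    refine h4.trans ?_
    have : Real.log 4 * ((A + B) * T) = D * (499 / 1000) * κ * T := by rw [← h5]; ring
    rw [this]
    have : D ≤ Real.log T := by linarith
    nlinarith [mul_pos hκ hTpos]
  exact le_of_mul_le_mul_right h6 (by positivity)


/-- the bound `Y(T)` is at most `T^1.001` eventually -/
lemma Y_le (A B : ℕ) (e : ℝ) (he : 0 < e) : ∃ T0 : ℕ, ∀ T : ℕ, T0 ≤ T →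
    ((A * T + B : ℕ) : ℝ) ≤ (T : ℝ) ^ (1 + e) := by
  have h := tendsto_rpow_atTop he
  have h2 := (h.comp tendsto_natCast_atTop_atTop).eventually_ge_atTop ((A : ℝ) + B)
  obtain ⟨T0, hT0⟩ := Filter.eventually_atTop.1 h2
  refine ⟨max T0 1, fun T hT => ?_⟩
  have h3 : (A : ℝ) + B ≤ (T : ℝ) ^ e := hT0 T (le_trans (le_max_left _ _) hT)
  have hT1 : (1 : ℝ) ≤ T := by exact_mod_cast le_trans (le_max_right _ _) hT
  have hTpos : (0 : ℝ) < T := by linarith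
  rw [Real.rpow_add hTpos, Real.rpow_one]
  push_cast
  have hB : (0 : ℝ) ≤ B := by positivity
  nlinarith

lemma sum_triv (s0 Q : ℕ) (a b δ : ℤ) (hok : Ok a b δ) (T : ℕ) (F : Finset ℕ) :
    ∑ r ∈ F, Cn s0 Q a b T r ≤ T * (∑ r ∈ F, (1 : ℝ) / r) + F.card := by
  calc ∑ r ∈ F, Cn s0 Q a b T r ≤ ∑ r ∈ F, ((T : ℝ) * (1 / r) + 1) := by
        apply Finset.sum_le_sum
        intro r _
        have := Cn_triv s0 Q a b δ hok T r
        rw [mul_one_div]; exact this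
    _ = _ := by
        rw [Finset.sum_add_distrib, Finset.mul_sum]; simp

lemma top1 (s0 Q : ℕ) (a b δ : ℤ) (hok : Ok a b δ) :
    ∃ T0 : ℕ, ∀ T : ℕ, T0 ≤ T →
      ∑ r ∈ (Icc 1 (6 * Q * T + (6 * s0 + 10))).filter
        (fun r : ℕ => r.Prime ∧ (T : ℝ) ^ (499 / 1000 : ℝ) < r),
        Cn s0 Q a b T r ≤ (6982 / 10000 : ℝ) * T := by
  obtain ⟨T1, h1⟩ := few_primes (6 * Q) (6 * s0 + 10) (1 / 1000) (by norm_num)
  obtain ⟨T2, h2⟩ := Mertens.mass (a := 499 / 1000) (b := 1 + 1 / 1000) (ε := 1 / 1000)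
    (by norm_num) (by norm_num) (by norm_num)
  obtain ⟨T3, h3⟩ := Y_le (6 * Q) (6 * s0 + 10) (1 / 1000) (by norm_num)
  refine ⟨max T1 (max ⌈T2⌉₊ T3), fun T hT => ?_⟩
  have hT1 : T1 ≤ T := le_trans (le_max_left _ _) hT
  have hT2 : T2 ≤ T := (Nat.le_ceil _).trans (by
    exact_mod_cast le_trans (le_trans (le_max_left _ _) (le_max_right _ _)) hT)
  have hT3 : T3 ≤ T := le_trans (le_trans (le_max_right _ _) (le_max_right _ _)) hT
  set F := (Icc 1 (6 * Q * T + (6 * s0 + 10))).filter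
        (fun r : ℕ => r.Prime ∧ (T : ℝ) ^ (499 / 1000 : ℝ) < r) with hF
  have hsub : F ⊆ (Finset.Icc 1 ⌊(T : ℝ) ^ (1 + 1 / 1000 : ℝ)⌋₊).filter
      (fun p : ℕ => p.Prime ∧ (T : ℝ) ^ (499 / 1000 : ℝ) < (p : ℝ)) := by
    intro r hr
    rw [hF, mem_filter, mem_Icc] at hr
    rw [mem_filter, mem_Icc]
    refine ⟨⟨hr.1.1, ?_⟩, hr.2⟩
    apply Nat.le_floor
    exact le_trans (by exact_mod_cast hr.1.2) (h3 T hT3)
  have hm : ∑ r ∈ F, (1 : ℝ) / r ≤ Real.log ((1 + 1 / 1000) / (499 / 1000)) + 1 / 1000 :=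
    (Finset.sum_le_sum_of_subset_of_nonneg hsub (fun _ _ _ => by positivity)).trans (h2 T hT2)
  have hlog : Real.log ((1 + 1 / 1000) / (499 / 1000)) ≤ 6962 / 10000 := by
    have e1 : ((1 + 1 / 1000) / (499 / 1000) : ℝ) = 2 * (1001 / 998) := by norm_num
    rw [e1, Real.log_mul (by norm_num) (by norm_num)]
    have := Real.log_two_lt_d9
    have h4 := Real.log_le_sub_one_of_pos (show (0 : ℝ) < 1001 / 998 by norm_num)
    norm_num at h4
    linarith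
  have h5 := sum_triv s0 Q a b δ hok T F
  have h6 := h1 T hT1
  have hTn : (0 : ℝ) ≤ T := by positivity
  have h7 : (T : ℝ) * (∑ r ∈ F, (1 : ℝ) / r) ≤ T * (6962 / 10000 + 1 / 1000) :=
    mul_le_mul_of_nonneg_left (by linarith) hTn
  rw [← hF] at h6
  linarith

/-- deterministic vanishing of the bad count for large primes -/
lemma Cn_zero (s0 Q T r : ℕ) (hQ0 : 0 < Q) (a b δ : ℤ)
    (hok : (a = 3 ∧ b = -1 ∧ δ = 0) ∨ (a = 3 ∧ b = 2 ∧ δ = 1) ∨ (a = 2 ∧ b = -1 ∧ δ = 1))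
    (hr2 : 14 * (3 * (s0 + Q * T) + 2) ≤ r ^ 2) :
    Cn s0 Q a b T r = 0 := by
  unfold Cn
  split_ifs with hcond
  · rw [Nat.cast_eq_zero, Finset.card_eq_zero, Finset.filter_eq_empty_iff]
    intro t ht
    rw [mem_Icc] at ht
    push Not
    intro hdvd
    set S : ℤ := (s0 : ℤ) + Q * t with hS
    obtain ⟨c, hc⟩ := hdvd
    have hQ1 : (1 : ℤ) ≤ Q := by exact_mod_cast hQ0
    have ht1 : (1 : ℤ) ≤ t := by exact_mod_cast ht.1
    have htT : (t : ℤ) ≤ T := by exact_mod_cast ht.2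
    have hS1 : (1 : ℤ) ≤ S := by rw [hS]; nlinarith [show (0 : ℤ) ≤ s0 by positivity]
    have hST : S ≤ s0 + Q * T := by rw [hS]; nlinarith
    have hr0 : (1000 : ℤ) < r := by exact_mod_cast hcond.2.1
    have hrr : (14 : ℤ) * (3 * (s0 + Q * T) + 2) ≤ (r : ℤ) ^ 2 := by exact_mod_cast hr2
    have hLpos : 0 < a * S + b := by
      rcases hok with h | h | h <;> obtain ⟨rfl, rfl, rfl⟩ := h <;> linarith
    have hcpos : 0 < c := by
      by_contra hcn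
      push Not at hcn
      have : (r : ℤ) * c ≤ 0 := mul_nonpos_of_nonneg_of_nonpos (by linarith) hcn
      linarith
    have hL2 : a * S + b ≤ 3 * (s0 + Q * T) + 2 := by
      rcases hok with h | h | h <;> obtain ⟨rfl, rfl, rfl⟩ := h <;> nlinarith
    have h14 : 14 * c ≤ r := by
      have : (r : ℤ) * (14 * c) ≤ r * r := by nlinarith
      exact le_of_mul_le_mul_left this (by linarith)
    refine ⟨2, by norm_num, ?_⟩
    rcases hok with h | h | h <;> obtain ⟨rfl, rfl, rfl⟩ := h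
    · exact Arith.det2 (s := S) (r := r) (c := c) (by linarith) hcpos (by linarith) (by linarith)
    · exact Arith.det3 (s := S) (r := r) (c := c) (by linarith) hcpos (by linarith) (by linarith)
    · exact Arith.det4 (s := S) (r := r) (c := c) (by linarith) hcpos (by linarith) (by linarith)
  · rfl

lemma top2 (s0 Q : ℕ) (hQ0 : 0 < Q) (a b δ : ℤ)
    (hok : (a = 3 ∧ b = -1 ∧ δ = 0) ∨ (a = 3 ∧ b = 2 ∧ δ = 1) ∨ (a = 2 ∧ b = -1 ∧ δ = 1)) :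
    ∃ T0 : ℕ, ∀ T : ℕ, T0 ≤ T →
      ∑ r ∈ (Icc 1 (6 * Q * T + (6 * s0 + 10))).filter
        (fun r : ℕ => r.Prime ∧ (T : ℝ) ^ (499 / 1000 : ℝ) < r),
        Cn s0 Q a b T r ≤ (61 / 10000 : ℝ) * T := by
  obtain ⟨T1, h1⟩ := few_primes (6 * Q) (6 * s0 + 10) (1 / 1000) (by norm_num)
  obtain ⟨T2, h2⟩ := Mertens.mass (a := 499 / 1000) (b := 501 / 1000) (ε := 1 / 1000)
    (by norm_num) (by norm_num) (by norm_num)
  obtain ⟨T3, h3⟩ := Y_le (42 * Q) (42 * s0 + 28) (2 / 1000) (by norm_num)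
  refine ⟨max (max T1 1) (max ⌈T2⌉₊ T3), fun T hT => ?_⟩
  have hT1 : T1 ≤ T := le_trans (le_trans (le_max_left _ _) (le_max_left _ _)) hT
  have hT1' : 1 ≤ T := le_trans (le_trans (le_max_right _ _) (le_max_left _ _)) hT
  have hT2 : T2 ≤ T := (Nat.le_ceil _).trans (by
    exact_mod_cast le_trans (le_trans (le_max_left _ _) (le_max_right _ _)) hT)
  have hT3 : T3 ≤ T := le_trans (le_trans (le_max_right _ _) (le_max_right _ _)) hT
  have hTpos : (0 : ℝ) < T := by exact_mod_cast hT1'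
  set F := (Icc 1 (6 * Q * T + (6 * s0 + 10))).filter
        (fun r : ℕ => r.Prime ∧ (T : ℝ) ^ (499 / 1000 : ℝ) < r) with hF
  set G := F.filter (fun r : ℕ => (r : ℝ) ≤ (T : ℝ) ^ (501 / 1000 : ℝ)) with hG
  have hGF : ∑ r ∈ F, Cn s0 Q a b T r = ∑ r ∈ G, Cn s0 Q a b T r := by
    symm
    apply Finset.sum_subset (Finset.filter_subset _ _)
    intro r hrF hrG
    rw [mem_filter] at hrG
    push Not at hrG
    have h4 := hrG hrF
    apply Cn_zero s0 Q T r hQ0 a b δ hok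
    have h5 := h3 T hT3
    have h6 : (T : ℝ) ^ (1 + 2 / 1000 : ℝ) ≤ (r : ℝ) ^ 2 := by
      have : (T : ℝ) ^ (1 + 2 / 1000 : ℝ) = ((T : ℝ) ^ (501 / 1000 : ℝ)) ^ 2 := by
        rw [← Real.rpow_natCast, ← Real.rpow_mul hTpos.le]; norm_num
      rw [this]
      exact pow_le_pow_left₀ (Real.rpow_nonneg hTpos.le _) h4.le 2
    have h7 : ((42 * Q * T + (42 * s0 + 28) : ℕ) : ℝ) ≤ ((r ^ 2 : ℕ) : ℝ) := by
      push_cast at h5 ⊢
      linarith
    have h8 : 42 * Q * T + (42 * s0 + 28) ≤ r ^ 2 := by exact_mod_cast h7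
    have h9 : 14 * (3 * (s0 + Q * T) + 2) = 42 * Q * T + (42 * s0 + 28) := by ring
    omega
  have hsub : G ⊆ (Finset.Icc 1 ⌊(T : ℝ) ^ (501 / 1000 : ℝ)⌋₊).filter
      (fun p : ℕ => p.Prime ∧ (T : ℝ) ^ (499 / 1000 : ℝ) < (p : ℝ)) := by
    intro r hr
    rw [hG, mem_filter, hF, mem_filter, mem_Icc] at hr
    rw [mem_filter, mem_Icc]
    refine ⟨⟨hr.1.1.1, ?_⟩, hr.1.2⟩
    exact Nat.le_floor hr.2
  have hm : ∑ r ∈ G, (1 : ℝ) / r ≤ Real.log ((501 / 1000) / (499 / 1000)) + 1 / 1000 :=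
    (Finset.sum_le_sum_of_subset_of_nonneg hsub (fun _ _ _ => by positivity)).trans (h2 T hT2)
  have hlog : Real.log ((501 / 1000) / (499 / 1000)) ≤ 41 / 10000 := by
    have h4 := Real.log_le_sub_one_of_pos (show (0 : ℝ) < (501 / 1000) / (499 / 1000) by norm_num)
    norm_num at h4 ⊢
    linarith
  have hok' : Ok a b δ := by
    unfold Ok; tauto
  have h5 := sum_triv s0 Q a b δ hok' T G
  have h6 := h1 T hT1
  have h6' : (G.card : ℝ) ≤ 1 / 1000 * T :=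
    le_trans (by exact_mod_cast Finset.card_filter_le _ _) h6
  have hTn : (0 : ℝ) ≤ T := by positivity
  have h7 : (T : ℝ) * (∑ r ∈ G, (1 : ℝ) / r) ≤ T * (41 / 10000 + 1 / 1000) :=
    mul_le_mul_of_nonneg_left (by linarith) hTn
  rw [hGF]
  linarith


/-- the set of bad `t` for one linear factor -/
noncomputable def badSet (s0 Q : ℕ) (a b : ℤ) (T : ℕ) : Finset ℕ :=
  (Icc 1 T).filter (fun t : ℕ => ∃ r : ℕ, r.Prime ∧ ¬ r ∣ Q ∧
    (r : ℤ) ∣ a * ((s0 : ℤ) + Q * t) + b ∧ ((r : ℤ) ^ 2 ∣ a * ((s0 : ℤ) + Q * t) + b ∨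
      ¬ ∃ j : ℕ, 1 ≤ j ∧ (r : ℤ) ^ j ≤
          2 * ((6 * ((s0 : ℤ) + Q * t) ^ 2 + ((s0 : ℤ) + Q * t) - 1) % (r : ℤ) ^ j)))

lemma badSet_card (s0 Q : ℕ) (hQ0 : 0 < Q) (hsm : ∀ r : ℕ, r.Prime → r ≤ 1000 → r ∣ Q)
    (a b δ : ℤ) (hok : Ok a b δ) (T : ℕ) :
    ((badSet s0 Q a b T).card : ℝ) ≤
      (∑ r ∈ (Icc 1 (6 * (s0 + Q * T) + 10)).filter (fun r : ℕ => r.Prime ∧ 1000 < r ∧ ¬ r ∣ Q),
        (((Icc 1 T).filter (fun t : ℕ => ((r : ℤ) ^ 2) ∣ a * ((s0 : ℤ) + Q * t) + b)).card : ℝ)) +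
      (∑ r ∈ (Icc 1 ⌊(T : ℝ) ^ (499 / 1000 : ℝ)⌋₊).filter (fun r : ℕ => r.Prime ∧ 1000 < r),
        Cn s0 Q a b T r) +
      (∑ r ∈ (Icc 1 (6 * Q * T + (6 * s0 + 10))).filter
        (fun r : ℕ => r.Prime ∧ (T : ℝ) ^ (499 / 1000 : ℝ) < r), Cn s0 Q a b T r) := by
  set P := (Icc 1 (6 * (s0 + Q * T) + 10)).filter
    (fun r : ℕ => r.Prime ∧ 1000 < r ∧ ¬ r ∣ Q) with hP
  set Sq : ℕ → Finset ℕ := fun r =>
    (Icc 1 T).filter (fun t : ℕ => ((r : ℤ) ^ 2) ∣ a * ((s0 : ℤ) + Q * t) + b) with hSq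
  set Nc : ℕ → Finset ℕ := fun r => (Icc 1 T).filter (fun t : ℕ =>
        (r : ℤ) ∣ a * ((s0 : ℤ) + Q * t) + b ∧
        ¬ ∃ j : ℕ, 1 ≤ j ∧ (r : ℤ) ^ j ≤
          2 * ((6 * ((s0 : ℤ) + Q * t) ^ 2 + ((s0 : ℤ) + Q * t) - 1) % (r : ℤ) ^ j)) with hNc
  have hsub : badSet s0 Q a b T ⊆ P.biUnion (fun r => Sq r ∪ Nc r) := by
    intro t ht
    unfold badSet at ht
    rw [mem_filter] at ht
    obtain ⟨htT, r, hr, hrQ, hrd, hor⟩ := ht
    rw [mem_biUnion]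
    refine ⟨r, ?_, ?_⟩
    · rw [hP, mem_filter, mem_Icc]
      have htT' := htT
      rw [mem_Icc] at htT'
      refine ⟨⟨hr.pos, ?_⟩, hr, ?_, hrQ⟩
      · -- r ≤ linear form ≤ Y
        have hQ1 : (1 : ℤ) ≤ Q := by exact_mod_cast hQ0
        have ht1 : (1 : ℤ) ≤ t := by exact_mod_cast htT'.1
        have htT2 : (t : ℤ) ≤ T := by exact_mod_cast htT'.2
        have hS1 : (1 : ℤ) ≤ (s0 : ℤ) + Q * t := by nlinarith [show (0 : ℤ) ≤ s0 by positivity]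
        have hST : (s0 : ℤ) + Q * t ≤ s0 + Q * T := by nlinarith
        have hLpos : 0 < a * ((s0 : ℤ) + Q * t) + b := by
          rcases hok with h | h | h | h <;> obtain ⟨rfl, rfl, rfl⟩ := h <;> linarith
        have hLY : a * ((s0 : ℤ) + Q * t) + b ≤ 6 * (s0 + Q * T) + 10 := by
          rcases hok with h | h | h | h <;> obtain ⟨rfl, rfl, rfl⟩ := h <;> linarith
        have := Int.le_of_dvd hLpos hrd
        have h3 : (r : ℤ) ≤ ((6 * (s0 + Q * T) + 10 : ℕ) : ℤ) := by push_cast; linarith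
        exact_mod_cast h3
      · by_contra hle
        push Not at hle
        exact hrQ (hsm r hr hle)
    · rw [mem_union]
      rcases hor with h | h
      · left; rw [hSq]; simp only; rw [mem_filter]; exact ⟨htT, h⟩
      · right; rw [hNc]; simp only; rw [mem_filter]; exact ⟨htT, hrd, h⟩
  have h1 : ((badSet s0 Q a b T).card : ℝ) ≤ ∑ r ∈ P, (((Sq r).card : ℝ) + Cn s0 Q a b T r) := by
    have h2 : (badSet s0 Q a b T).card ≤ ∑ r ∈ P, ((Sq r).card + (Nc r).card) := by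
      refine (Finset.card_le_card hsub).trans (Finset.card_biUnion_le.trans ?_)
      exact Finset.sum_le_sum (fun r _ => Finset.card_union_le _ _)
    have h3 : ((badSet s0 Q a b T).card : ℝ) ≤ ∑ r ∈ P, (((Sq r).card : ℝ) + ((Nc r).card : ℝ)) := by
      exact_mod_cast h2
    refine h3.trans (le_of_eq ?_)
    apply Finset.sum_congr rfl
    intro r hr
    rw [hP, mem_filter] at hr
    unfold Cn
    rw [if_pos ⟨hr.2.1, hr.2.2.1, hr.2.2.2⟩]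
  rw [Finset.sum_add_distrib] at h1
  have h4 : ∑ r ∈ P, Cn s0 Q a b T r ≤
      (∑ r ∈ (Icc 1 ⌊(T : ℝ) ^ (499 / 1000 : ℝ)⌋₊).filter (fun r : ℕ => r.Prime ∧ 1000 < r),
        Cn s0 Q a b T r) +
      (∑ r ∈ (Icc 1 (6 * Q * T + (6 * s0 + 10))).filter
        (fun r : ℕ => r.Prime ∧ (T : ℝ) ^ (499 / 1000 : ℝ) < r), Cn s0 Q a b T r) := by
    have hPsub : P ⊆ (Icc 1 ⌊(T : ℝ) ^ (499 / 1000 : ℝ)⌋₊).filter
        (fun r : ℕ => r.Prime ∧ 1000 < r) ∪ (Icc 1 (6 * Q * T + (6 * s0 + 10))).filter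
        (fun r : ℕ => r.Prime ∧ (T : ℝ) ^ (499 / 1000 : ℝ) < r) := by
      intro r hr
      rw [hP, mem_filter, mem_Icc] at hr
      rw [mem_union, mem_filter, mem_filter, mem_Icc, mem_Icc]
      by_cases hc : (T : ℝ) ^ (499 / 1000 : ℝ) < r
      · right
        refine ⟨⟨hr.1.1, ?_⟩, hr.2.1, hc⟩
        have := hr.1.2
        calc r ≤ 6 * (s0 + Q * T) + 10 := this
          _ = _ := by ring
      · left
        push Not at hc
        exact ⟨⟨hr.1.1, Nat.le_floor hc⟩, hr.2.1, hr.2.2.1⟩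
    refine (Finset.sum_le_sum_of_subset_of_nonneg hPsub
      (fun r _ _ => Cn_nonneg s0 Q a b T r)).trans ?_
    have hun := Finset.sum_union_inter (s₁ := (Icc 1 ⌊(T : ℝ) ^ (499 / 1000 : ℝ)⌋₊).filter
        (fun r : ℕ => r.Prime ∧ 1000 < r)) (s₂ := (Icc 1 (6 * Q * T + (6 * s0 + 10))).filter
        (fun r : ℕ => r.Prime ∧ (T : ℝ) ^ (499 / 1000 : ℝ) < r)) (f := fun r => Cn s0 Q a b T r)
    rw [← hun]
    have : 0 ≤ ∑ r ∈ (Icc 1 ⌊(T : ℝ) ^ (499 / 1000 : ℝ)⌋₊).filter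
        (fun r : ℕ => r.Prime ∧ 1000 < r) ∩ (Icc 1 (6 * Q * T + (6 * s0 + 10))).filter
        (fun r : ℕ => r.Prime ∧ (T : ℝ) ^ (499 / 1000 : ℝ) < r), Cn s0 Q a b T r :=
      Finset.sum_nonneg (fun r _ => Cn_nonneg s0 Q a b T r)
    linarith
  linarith

/-- Core: infinitely many good parameters. -/
theorem core (s0 Q : ℕ) (hQ0 : 0 < Q) (hsm : ∀ r : ℕ, r.Prime → r ≤ 1000 → r ∣ Q) (N0 : ℕ) :
    ∃ t : ℕ, N0 ≤ t ∧ 1 ≤ t ∧ ∀ a b δ : ℤ, Ok a b δ → ∀ r : ℕ, r.Prime → ¬ r ∣ Q →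
      (r : ℤ) ∣ a * ((s0 : ℤ) + Q * t) + b →
      ¬ (r : ℤ) ^ 2 ∣ a * ((s0 : ℤ) + Q * t) + b ∧
      ∃ j : ℕ, 1 ≤ j ∧ (r : ℤ) ^ j ≤
          2 * ((6 * ((s0 : ℤ) + Q * t) ^ 2 + ((s0 : ℤ) + Q * t) - 1) % (r : ℤ) ^ j) := by
  by_contra hcon
  push Not at hcon
  have ok1 : Ok 2 1 0 := by unfold Ok; tauto
  have ok2 : Ok 3 (-1) 0 := by unfold Ok; tauto
  have ok3 : Ok 3 2 1 := by unfold Ok; tauto
  have ok4 : Ok 2 (-1) 1 := by unfold Ok; tauto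
  obtain ⟨A1, hA1⟩ := mid s0 Q hQ0 2 1 0 ok1
  obtain ⟨A2, hA2⟩ := mid s0 Q hQ0 3 (-1) 0 ok2
  obtain ⟨A3, hA3⟩ := mid s0 Q hQ0 3 2 1 ok3
  obtain ⟨A4, hA4⟩ := mid s0 Q hQ0 2 (-1) 1 ok4
  obtain ⟨B1, hB1⟩ := top1 s0 Q 2 1 0 ok1
  obtain ⟨B2, hB2⟩ := top2 s0 Q hQ0 3 (-1) 0 (by tauto)
  obtain ⟨B3, hB3⟩ := top2 s0 Q hQ0 3 2 1 (by tauto)
  obtain ⟨B4, hB4⟩ := top2 s0 Q hQ0 2 (-1) 1 (by tauto)
  obtain ⟨D1, hD1⟩ := Squares.squares s0 Q 1000 hQ0 (le_refl _) 2 1 (by tauto)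
  obtain ⟨D2, hD2⟩ := Squares.squares s0 Q 1000 hQ0 (le_refl _) 3 (-1) (by tauto)
  obtain ⟨D3, hD3⟩ := Squares.squares s0 Q 1000 hQ0 (le_refl _) 3 2 (by tauto)
  obtain ⟨D4, hD4⟩ := Squares.squares s0 Q 1000 hQ0 (le_refl _) 2 (-1) (by tauto)
  set T := A1 + A2 + A3 + A4 + B1 + B2 + B3 + B4 + D1 + D2 + D3 + D4 + 100 * N0 + 100 with hT
  have hcover : Icc (N0 + 1) T ⊆ badSet s0 Q 2 1 T ∪ badSet s0 Q 3 (-1) T ∪ badSet s0 Q 3 2 T ∪
      badSet s0 Q 2 (-1) T := by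
    intro t ht
    rw [mem_Icc] at ht
    obtain ⟨a, b, δ, hok, r, hr, hrQ, hrd, himp⟩ := hcon t (by omega) (by omega)
    have key : t ∈ badSet s0 Q a b T := by
      unfold badSet
      rw [mem_filter, mem_Icc]
      refine ⟨by omega, r, hr, hrQ, hrd, ?_⟩
      by_cases h2 : (r : ℤ) ^ 2 ∣ a * ((s0 : ℤ) + Q * t) + b
      · left; exact h2
      · right
        push Not
        exact himp h2
    simp only [mem_union]
    rcases hok with h | h | h | h <;> obtain ⟨rfl, rfl, rfl⟩ := h <;> tauto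
  have hcard := Finset.card_le_card hcover
  have hu : (badSet s0 Q 2 1 T ∪ badSet s0 Q 3 (-1) T ∪ badSet s0 Q 3 2 T ∪
      badSet s0 Q 2 (-1) T).card ≤ (badSet s0 Q 2 1 T).card + (badSet s0 Q 3 (-1) T).card +
      (badSet s0 Q 3 2 T).card + (badSet s0 Q 2 (-1) T).card := by
    refine (Finset.card_union_le _ _).trans ?_
    gcongr
    refine (Finset.card_union_le _ _).trans ?_
    gcongr
    exact Finset.card_union_le _ _
  rw [Nat.card_Icc] at hcard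
  have hfin : ((T + 1 - (N0 + 1) : ℕ) : ℝ) ≤ (badSet s0 Q 2 1 T).card +
      (badSet s0 Q 3 (-1) T).card + (badSet s0 Q 3 2 T).card + (badSet s0 Q 2 (-1) T).card := by
    exact_mod_cast hcard.trans hu
  have e1 := badSet_card s0 Q hQ0 hsm 2 1 0 ok1 T
  have e2 := badSet_card s0 Q hQ0 hsm 3 (-1) 0 ok2 T
  have e3 := badSet_card s0 Q hQ0 hsm 3 2 1 ok3 T
  have e4 := badSet_card s0 Q hQ0 hsm 2 (-1) 1 ok4 T
  have f1 := hA1 T (by omega)
  have f2 := hA2 T (by omega)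
  have f3 := hA3 T (by omega)
  have f4 := hA4 T (by omega)
  have g1 := hB1 T (by omega)
  have g2 := hB2 T (by omega)
  have g3 := hB3 T (by omega)
  have g4 := hB4 T (by omega)
  have i1 := hD1 T (by omega)
  have i2 := hD2 T (by omega)
  have i3 := hD3 T (by omega)
  have i4 := hD4 T (by omega)
  have hTN : ((T + 1 - (N0 + 1) : ℕ) : ℝ) = (T : ℝ) - N0 := by
    rw [Nat.cast_sub (by omega)]; push_cast; ring
  rw [hTN] at hfin
  have hTbig : (100 * N0 + 100 : ℝ) ≤ T := by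
    have : 100 * N0 + 100 ≤ T := by omega
    exact_mod_cast this
  linarith

end Pool.Agent.Helper170.Core
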