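import Mathlib

namespace Pool.Agent.Helper170.Kummer

open Nat Finset

lemma card_le {m r : ℕ} (hr : r.Prime) (S : Finset ℕ)
    (hS : ∀ i ∈ S, 1 ≤ i ∧ r ^ i ≤ 2 * (m % r ^ i)) :
    S.card ≤ (choose (m + m) m).factorization r := by
  set b := max (S.sup id) (log r (m + m)) + 1 with hb
  rw [Nat.factorization_choose' hr (b := b) (by rw [hb]; exact Nat.lt_succ_of_le (le_max_right _ _))]
  apply Finset.card_le_card
  intro i hi
  obtain ⟨h1, h2⟩ := hS i hi
  rw [Finset.mem_filter, Finset.mem_Ico]
  refine ⟨⟨h1, ?_⟩, by omega⟩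
  have : i ≤ S.sup id := Finset.le_sup (f := id) hi
  rw [hb]
  exact Nat.lt_succ_of_le (le_trans this (le_max_left _ _))

/-- if `r^v ∣ 2m-1` then `v` carries -/
lemma val_one {m r v : ℕ} (hr : r.Prime) (hm : 1 ≤ m) (h : r ^ v ∣ 2 * m - 1) :
    v ≤ (choose (m + m) m).factorization r := by
  have := card_le (m := m) hr (Finset.Icc 1 v) (by
    intro i hi
    rw [Finset.mem_Icc] at hi
    refine ⟨hi.1, ?_⟩
    have hd : r ^ i ∣ 2 * m - 1 := (pow_dvd_pow r hi.2).trans h
    have h2 : r ^ i ≥ 2 := by
      calc r ^ i ≥ r ^ 1 := Nat.pow_le_pow_right hr.pos hi.1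
        _ ≥ 2 := by simpa using hr.two_le
    have hdm := Nat.div_add_mod m (r ^ i)
    set R := r ^ i
    set x := m % R
    have hx : x < R := Nat.mod_lt _ (by omega)
    obtain ⟨k, hk⟩ := hd
    -- 2m - 1 = R k, m = R q + x, so 2x - 1 = R (k - 2q)
    by_contra hlt
    push Not at hlt
    have e1 : (2 : ℤ) * m - 1 = R * k := by
      have : 2 * m = R * k + 1 := by omega
      have : (2 : ℤ) * m = R * k + 1 := by exact_mod_cast this
      linarith
    have e2 : (m : ℤ) = R * (m / R : ℕ) + x := by exact_mod_cast hdm.symm
    have e3 : (R : ℤ) * (k - 2 * (m / R : ℕ)) = 2 * x - 1 := by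
      rw [e2] at e1; linarith
    have hb1 : (2 * (x : ℤ) - 1) < R := by
      have : (2 * (x : ℤ)) < R := by exact_mod_cast hlt
      linarith
    have hb0 : -(R : ℤ) < 2 * (x : ℤ) - 1 := by
      have : (2 : ℤ) ≤ R := by exact_mod_cast h2
      have : (0 : ℤ) ≤ x := by positivity
      linarith
    have hR : (0 : ℤ) < R := by
      have : (2 : ℤ) ≤ R := by exact_mod_cast h2
      linarith
    have hz : (k : ℤ) - 2 * (m / R : ℕ) = 0 := by
      rcases lt_trichotomy ((k : ℤ) - 2 * (m / R : ℕ)) 0 with hn | hn | hn
      · nlinarith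
      · exact hn
      · nlinarith
    rw [hz, mul_zero] at e3
    omega)
  simpa using this

/-- if `r^v ∣ 2m-3`, `r > 3`, then `v` carries -/
lemma val_three {m r v : ℕ} (hr : r.Prime) (hr3 : 3 < r) (hm : 2 ≤ m) (h : r ^ v ∣ 2 * m - 3) :
    v ≤ (choose (m + m) m).factorization r := by
  have := card_le (m := m) hr (Finset.Icc 1 v) (by
    intro i hi
    rw [Finset.mem_Icc] at hi
    refine ⟨hi.1, ?_⟩
    have hd : r ^ i ∣ 2 * m - 3 := (pow_dvd_pow r hi.2).trans h
    have h2 : r ^ i > 3 := by
      calc r ^ i ≥ r ^ 1 := Nat.pow_le_pow_right hr.pos hi.1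
        _ > 3 := by simpa using hr3
    have hdm := Nat.div_add_mod m (r ^ i)
    set R := r ^ i
    set x := m % R
    have hx : x < R := Nat.mod_lt _ (by omega)
    obtain ⟨k, hk⟩ := hd
    by_contra hlt
    push Not at hlt
    have e1 : (2 : ℤ) * m - 3 = R * k := by
      have : 2 * m = R * k + 3 := by omega
      have : (2 : ℤ) * m = R * k + 3 := by exact_mod_cast this
      linarith
    have e2 : (m : ℤ) = R * (m / R : ℕ) + x := by exact_mod_cast hdm.symm
    have e3 : (R : ℤ) * (k - 2 * (m / R : ℕ)) = 2 * x - 3 := by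
      rw [e2] at e1; linarith
    have hb1 : (2 * (x : ℤ) - 3) < R := by
      have : (2 * (x : ℤ)) < R := by exact_mod_cast hlt
      linarith
    have hb0 : -(R : ℤ) < 2 * (x : ℤ) - 3 := by
      have : (3 : ℤ) < R := by exact_mod_cast h2
      have : (0 : ℤ) ≤ x := by positivity
      linarith
    have hR : (0 : ℤ) < R := by
      have : (3 : ℤ) < R := by exact_mod_cast h2
      linarith
    have hz : (k : ℤ) - 2 * (m / R : ℕ) = 0 := by
      rcases lt_trichotomy ((k : ℤ) - 2 * (m / R : ℕ)) 0 with hn | hn | hn
      · nlinarith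
      · exact hn
      · nlinarith
    rw [hz, mul_zero] at e3
    omega)
  simpa using this

lemma val_carry {m r j : ℕ} (hr : r.Prime) (hj : 1 ≤ j) (h : r ^ j ≤ 2 * (m % r ^ j)) :
    1 ≤ (choose (m + m) m).factorization r := by
  have := card_le (m := m) hr {j} (by
    intro i hi
    rw [Finset.mem_singleton] at hi
    subst hi
    exact ⟨hj, h⟩)
  simpa using this

/-- reduction of the divisibility to local carry conditions; `m = n + 2` -/
theorem reduction {n : ℕ} (h32 : (n + 2) % 32 = 31) (h9 : (n + 2) % 9 = 8)
    (h : ∀ r : ℕ, r.Prime → r ≠ 2 → r ∣ (n + 2) * (n + 1) → ¬ r ^ 2 ∣ (n + 2) * (n + 1) ∧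
      ∃ j, 1 ≤ j ∧ r ^ j ≤ 2 * ((n + 2) % r ^ j)) :
    ((n + 2)!) ^ 2 ∣ (2 * n)! := by
  set m := n + 2 with hm
  set D := (2 * n + 4) * (2 * n + 3) * (2 * n + 2) * (2 * n + 1) with hD
  have hfac : (2 * n + 4)! = D * (2 * n)! := by
    rw [Nat.factorial_succ, Nat.factorial_succ, Nat.factorial_succ, Nat.factorial_succ, hD]
    ring
  have hC : choose (m + m) m * (m ! * m !) = (2 * n + 4)! := by
    have := Nat.add_choose_mul_factorial_mul_factorial m m
    rw [show m + m = 2 * n + 4 by omega] at this ⊢
    rw [← this]; ring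
  have hDC : D ∣ choose (m + m) m := by
    have hC0 : choose (m + m) m ≠ 0 := (Nat.choose_pos (by omega)).ne'
    have hD0 : D ≠ 0 := by rw [hD]; positivity
    rw [← Nat.factorization_prime_le_iff_dvd hD0 hC0]
    intro r hr
    have hDf : D.factorization r = (2 * n + 4).factorization r + (2 * n + 3).factorization r
        + (2 * n + 2).factorization r + (2 * n + 1).factorization r := by
      rw [hD, Nat.factorization_mul (by positivity) (by positivity),
        Nat.factorization_mul (by positivity) (by positivity),
        Nat.factorization_mul (by positivity) (by positivity)]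
      rfl
    by_cases hr2 : r = 2
    · subst hr2
      have h5 : 5 ≤ (choose (m + m) m).factorization 2 := by
        have := card_le (m := m) hr (Finset.Icc 1 5) (by
          intro i hi
          rw [Finset.mem_Icc] at hi
          refine ⟨hi.1, ?_⟩
          have hi1 := hi.1
          have hi2 := hi.2
          interval_cases i <;> norm_num <;> omega)
        simpa using this
      have f1 : (2 * n + 4).factorization 2 = 1 := by
        rw [show 2 * n + 4 = 2 * (n + 2) by ring, Nat.factorization_mul (by norm_num) (by omega)]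
        have : (n + 2).factorization 2 = 0 := Nat.factorization_eq_zero_of_not_dvd (by omega)
        simp [this, Nat.Prime.factorization_self Nat.prime_two]
      have f2 : (2 * n + 3).factorization 2 = 0 := Nat.factorization_eq_zero_of_not_dvd (by omega)
      have f3 : (2 * n + 2).factorization 2 = 2 := by
        obtain ⟨k, hk⟩ : ∃ k, n + 1 = 2 * (2 * k + 1) := ⟨(n + 1) / 4, by omega⟩
        rw [show 2 * n + 2 = 2 * (2 * (2 * k + 1)) by omega,
          Nat.factorization_mul (by norm_num) (by omega),
          Nat.factorization_mul (by norm_num) (by omega)]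
        have : (2 * k + 1).factorization 2 = 0 := Nat.factorization_eq_zero_of_not_dvd (by omega)
        simp [this, Nat.Prime.factorization_self Nat.prime_two]
      have f4 : (2 * n + 1).factorization 2 = 0 := Nat.factorization_eq_zero_of_not_dvd (by omega)
      rw [hDf, f1, f2, f3, f4]
      omega
    by_cases hr3 : r = 3
    · subst hr3
      have h5 : 2 ≤ (choose (m + m) m).factorization 3 := by
        have := card_le (m := m) hr (Finset.Icc 1 2) (by
          intro i hi
          rw [Finset.mem_Icc] at hi
          refine ⟨hi.1, ?_⟩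
          have hi1 := hi.1
          have hi2 := hi.2
          interval_cases i <;> norm_num <;> omega)
        simpa using this
      have f1 : (2 * n + 4).factorization 3 = 0 := Nat.factorization_eq_zero_of_not_dvd (by omega)
      have f2 : (2 * n + 3).factorization 3 = 1 := by
        obtain ⟨k, hk, hk3⟩ : ∃ k, 2 * n + 3 = 3 * k ∧ ¬ 3 ∣ k := ⟨(2 * n + 3) / 3, by omega, by omega⟩
        rw [hk, Nat.factorization_mul (by norm_num) (by omega)]
        have : k.factorization 3 = 0 := Nat.factorization_eq_zero_of_not_dvd hk3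
        simp [this, Nat.Prime.factorization_self Nat.prime_three]
      have f3 : (2 * n + 2).factorization 3 = 0 := Nat.factorization_eq_zero_of_not_dvd (by omega)
      have f4 : (2 * n + 1).factorization 3 = 0 := Nat.factorization_eq_zero_of_not_dvd (by omega)
      rw [hDf, f1, f2, f3, f4]
      omega
    have hr5 : 5 ≤ r := by
      have h2 := hr.two_le
      by_contra hlt
      push Not at hlt
      interval_cases r
      · exact hr2 rfl
      · exact hr3 rfl
      · exact absurd hr (by norm_num)
    -- at most one of the four is divisible by r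
    have zero : ∀ a : ℕ, ¬ r ∣ a → a.factorization r = 0 := fun a ha =>
      Nat.factorization_eq_zero_of_not_dvd ha
    have sub : ∀ a b : ℕ, r ∣ a → r ∣ b → a < b → b < a + 5 → False := by
      intro a b ha hb hab hab'
      have := Nat.dvd_sub hb ha
      have := Nat.le_of_dvd (by omega) this
      omega
    have hcoef : ∀ a : ℕ, a ≠ 0 → r ∣ a → (r ∣ a) → (2 * a).factorization r = a.factorization r := by
      intro a ha _ _
      rw [Nat.factorization_mul (by norm_num) ha]
      have : (2 : ℕ).factorization r = 0 := zero _ (fun h => by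
        have := Nat.le_of_dvd (by norm_num) h
        omega)
      simp [this]
    by_cases c1 : r ∣ 2 * n + 4
    · have d1 : r ∣ n + 2 := by
        have : r ∣ 2 * (n + 2) := by rw [show 2 * (n + 2) = 2 * n + 4 by ring]; exact c1
        rcases hr.dvd_mul.1 this with h' | h'
        · exact absurd (Nat.le_of_dvd (by norm_num) h') (by omega)
        · exact h'
      obtain ⟨hs, j, hj, hjc⟩ := h r hr hr2 (Dvd.dvd.mul_right d1 _)
      have hv : (n + 2).factorization r ≤ 1 := by
        by_contra hgt
        push Not at hgt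
        apply hs
        exact Dvd.dvd.mul_right ((hr.pow_dvd_iff_le_factorization (by omega)).2 hgt) _
      have z2 := zero (2 * n + 3) (fun c => sub _ _ c c1 (by omega) (by omega))
      have z3 := zero (2 * n + 2) (fun c => sub _ _ c c1 (by omega) (by omega))
      have z4 := zero (2 * n + 1) (fun c => sub _ _ c c1 (by omega) (by omega))
      have z1 : (2 * n + 4).factorization r = (n + 2).factorization r := by
        rw [show 2 * n + 4 = 2 * (n + 2) by ring, hcoef _ (by omega) d1 d1]
      rw [hDf, z1, z2, z3, z4]
      have := val_carry hr hj hjc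
      omega
    by_cases c2 : r ∣ 2 * n + 3
    · have z1 := zero (2 * n + 4) c1
      have z3 := zero (2 * n + 2) (fun c => sub _ _ c c2 (by omega) (by omega))
      have z4 := zero (2 * n + 1) (fun c => sub _ _ c c2 (by omega) (by omega))
      rw [hDf, z1, z3, z4]
      have := val_one (m := m) (v := (2 * n + 3).factorization r) hr (by omega) (by
        rw [show 2 * m - 1 = 2 * n + 3 by omega]
        exact Nat.ordProj_dvd _ _)
      omega
    by_cases c3 : r ∣ 2 * n + 2
    · have d1 : r ∣ n + 1 := by
        have : r ∣ 2 * (n + 1) := by rw [show 2 * (n + 1) = 2 * n + 2 by ring]; exact c3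
        rcases hr.dvd_mul.1 this with h' | h'
        · exact absurd (Nat.le_of_dvd (by norm_num) h') (by omega)
        · exact h'
      obtain ⟨hs, j, hj, hjc⟩ := h r hr hr2 (Dvd.dvd.mul_left d1 _)
      have hv : (n + 1).factorization r ≤ 1 := by
        by_contra hgt
        push Not at hgt
        apply hs
        exact Dvd.dvd.mul_left ((hr.pow_dvd_iff_le_factorization (by omega)).2 hgt) _
      have z1 := zero (2 * n + 4) c1
      have z2 := zero (2 * n + 3) c2
      have z4 := zero (2 * n + 1) (fun c => sub _ _ c c3 (by omega) (by omega))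
      have z3 : (2 * n + 2).factorization r = (n + 1).factorization r := by
        rw [show 2 * n + 2 = 2 * (n + 1) by ring, hcoef _ (by omega) d1 d1]
      rw [hDf, z1, z2, z3, z4]
      have := val_carry hr hj hjc
      omega
    by_cases c4 : r ∣ 2 * n + 1
    · rw [hDf, zero _ c1, zero _ c2, zero _ c3]
      have := val_three (m := m) (v := (2 * n + 1).factorization r) hr (by omega) (by omega) (by
        rw [show 2 * m - 3 = 2 * n + 1 by omega]
        exact Nat.ordProj_dvd _ _)
      omega
    · rw [hDf, zero _ c1, zero _ c2, zero _ c3, zero _ c4]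
      omega
  obtain ⟨w, hw⟩ := hDC
  have hD0 : 0 < D := by rw [hD]; positivity
  refine ⟨w, ?_⟩
  have : D * (2 * n)! = D * ((m !) ^ 2 * w) := by
    rw [← hfac, ← hC, hw]; ring
  exact Nat.eq_of_mul_eq_mul_left hD0 this

end Pool.Agent.Helper170.Kummer
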