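import Pool.Agent.Helper170.Core
import Pool.Agent.Helper170.Kummer

namespace Pool.Agent.Helper170.Final

open Pool.Agent.Helper170.Core

/-- from `r` dividing the product of the four factors to carry + non-square -/
lemma local_step (s : ℤ) (r : ℕ) (hr : r.Prime) (h1000 : 1000 < r)
    (h : ∀ a b δ : ℤ, Ok a b δ → (r : ℤ) ∣ a * s + b →
      ¬ (r : ℤ) ^ 2 ∣ a * s + b ∧ ∃ j : ℕ, 1 ≤ j ∧ (r : ℤ) ^ j ≤
          2 * ((6 * s ^ 2 + s - 1) % (r : ℤ) ^ j))
    (hd : (r : ℤ) ∣ (6 * s ^ 2 + s - 1) * (6 * s ^ 2 + s - 2)) :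
    ¬ (r : ℤ) ^ 2 ∣ (6 * s ^ 2 + s - 1) * (6 * s ^ 2 + s - 2) ∧ ∃ j : ℕ, 1 ≤ j ∧ (r : ℤ) ^ j ≤
          2 * ((6 * s ^ 2 + s - 1) % (r : ℤ) ^ j) := by
  have hrp : Prime (r : ℤ) := Nat.prime_iff_prime_int.1 hr
  have hsmall : ∀ k : ℤ, 0 < k → k < 1000 → ¬ (r : ℤ) ∣ k := by
    intro k hk1 hk2 hdk
    have := Int.le_of_dvd hk1 hdk
    have : (1000 : ℤ) < r := by exact_mod_cast h1000
    linarith
  have cop : ∀ x y : ℤ, (r : ℤ) ∣ x → ¬ (r : ℤ) ∣ y → ((r : ℤ) ^ 2 ∣ x * y → (r : ℤ) ^ 2 ∣ x) := by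
    intro x y _ hy hxy
    exact (IsCoprime.pow_left ((Prime.coprime_iff_not_dvd hrp).2 hy)).dvd_of_dvd_mul_right hxy
  have f1 := h 2 1 0 (by unfold Ok; tauto)
  have f2 := h 3 (-1) 0 (by unfold Ok; tauto)
  have f3 := h 3 2 1 (by unfold Ok; tauto)
  have f4 := h 2 (-1) 1 (by unfold Ok; tauto)
  have e0 : (6 * s ^ 2 + s - 1) * (6 * s ^ 2 + s - 2) =
      (2 * s + 1) * ((3 * s + -1) * ((3 * s + 2) * (2 * s + -1))) := by ring
  have d12 : ∀ x y : ℤ, (r : ℤ) ∣ x → (r : ℤ) ∣ y → ∀ u v : ℤ, (r : ℤ) ∣ u * x - v * y :=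
    fun x y hx hy u v => dvd_sub (Dvd.dvd.mul_left hx u) (Dvd.dvd.mul_left hy v)
  by_cases c1 : (r : ℤ) ∣ 2 * s + 1
  · have n2 : ¬ (r : ℤ) ∣ 3 * s + -1 := fun c => by
      have := d12 _ _ c1 c 3 2
      rw [show 3 * (2 * s + 1) - 2 * (3 * s + -1) = 5 by ring] at this
      exact hsmall 5 (by norm_num) (by norm_num) this
    have n3 : ¬ (r : ℤ) ∣ 3 * s + 2 := fun c => by
      have := d12 _ _ c c1 2 3
      rw [show 2 * (3 * s + 2) - 3 * (2 * s + 1) = 1 by ring] at this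
      exact hsmall 1 (by norm_num) (by norm_num) this
    have n4 : ¬ (r : ℤ) ∣ 2 * s + -1 := fun c => by
      have := d12 _ _ c1 c 1 1
      rw [show 1 * (2 * s + 1) - 1 * (2 * s + -1) = 2 by ring] at this
      exact hsmall 2 (by norm_num) (by norm_num) this
    refine ⟨?_, (f1 c1).2⟩
    intro hsq
    rw [e0] at hsq
    apply (f1 c1).1
    apply cop _ _ c1 _ hsq
    intro c
    rcases hrp.dvd_or_dvd c with c | c
    · exact n2 c
    · rcases hrp.dvd_or_dvd c with c | c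
      · exact n3 c
      · exact n4 c
  by_cases c2 : (r : ℤ) ∣ 3 * s + -1
  · have n3 : ¬ (r : ℤ) ∣ 3 * s + 2 := fun c => by
      have := d12 _ _ c c2 1 1
      rw [show 1 * (3 * s + 2) - 1 * (3 * s + -1) = 3 by ring] at this
      exact hsmall 3 (by norm_num) (by norm_num) this
    have n4 : ¬ (r : ℤ) ∣ 2 * s + -1 := fun c => by
      have := d12 _ _ c2 c 2 3
      rw [show 2 * (3 * s + -1) - 3 * (2 * s + -1) = 1 by ring] at this
      exact hsmall 1 (by norm_num) (by norm_num) this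
    refine ⟨?_, (f2 c2).2⟩
    intro hsq
    rw [e0, show (2 * s + 1) * ((3 * s + -1) * ((3 * s + 2) * (2 * s + -1))) =
      (3 * s + -1) * ((2 * s + 1) * ((3 * s + 2) * (2 * s + -1))) by ring] at hsq
    apply (f2 c2).1
    apply cop _ _ c2 _ hsq
    intro c
    rcases hrp.dvd_or_dvd c with c | c
    · exact c1 c
    · rcases hrp.dvd_or_dvd c with c | c
      · exact n3 c
      · exact n4 c
  by_cases c3 : (r : ℤ) ∣ 3 * s + 2
  · have n4 : ¬ (r : ℤ) ∣ 2 * s + -1 := fun c => by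
      have := d12 _ _ c3 c 2 3
      rw [show 2 * (3 * s + 2) - 3 * (2 * s + -1) = 7 by ring] at this
      exact hsmall 7 (by norm_num) (by norm_num) this
    refine ⟨?_, (f3 c3).2⟩
    intro hsq
    rw [e0, show (2 * s + 1) * ((3 * s + -1) * ((3 * s + 2) * (2 * s + -1))) =
      (3 * s + 2) * ((2 * s + 1) * ((3 * s + -1) * (2 * s + -1))) by ring] at hsq
    apply (f3 c3).1
    apply cop _ _ c3 _ hsq
    intro c
    rcases hrp.dvd_or_dvd c with c | c
    · exact c1 c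
    · rcases hrp.dvd_or_dvd c with c | c
      · exact c2 c
      · exact n4 c
  have c4 : (r : ℤ) ∣ 2 * s + -1 := by
    rw [e0] at hd
    rcases hrp.dvd_or_dvd hd with c | c
    · exact absurd c c1
    rcases hrp.dvd_or_dvd c with c | c
    · exact absurd c c2
    rcases hrp.dvd_or_dvd c with c | c
    · exact absurd c c3
    exact c
  refine ⟨?_, (f4 c4).2⟩
  intro hsq
  rw [e0, show (2 * s + 1) * ((3 * s + -1) * ((3 * s + 2) * (2 * s + -1))) =
      (2 * s + -1) * ((2 * s + 1) * ((3 * s + -1) * (3 * s + 2))) by ring] at hsq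
  apply (f4 c4).1
  apply cop _ _ c4 _ hsq
  intro c
  rcases hrp.dvd_or_dvd c with c | c
  · exact c1 c
  · rcases hrp.dvd_or_dvd c with c | c
    · exact c2 c
    · exact c3 c

theorem infinite_two :
    Set.Infinite {n : ℕ | (Nat.factorial (n + 2)) ^ 2 ∣ Nat.factorial (2 * n)} := by
  rw [Set.infinite_iff_exists_gt]
  intro N
  set Q : ℕ := 288 * Nat.factorial 1000 with hQ
  have hQ0 : 0 < Q := by rw [hQ]; positivity
  have hsm : ∀ r : ℕ, r.Prime → r ≤ 1000 → r ∣ Q := fun r hr hle =>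
    Dvd.dvd.mul_left (Nat.dvd_factorial hr.pos hle) 288
  obtain ⟨t, htN, ht1, hgood⟩ := core 0 Q hQ0 hsm (N + 3)
  set s : ℕ := Q * t with hs
  have h288 : 288 ∣ s := by rw [hs, hQ, mul_assoc]; exact Dvd.intro _ rfl
  obtain ⟨k, hk⟩ := h288
  have hst : t ≤ s := by rw [hs]; exact Nat.le_mul_of_pos_left t hQ0
  have hs1 : 1 ≤ s := le_trans ht1 hst
  obtain ⟨n, hn⟩ : ∃ n : ℕ, n + 3 = 6 * s ^ 2 + s := ⟨6 * s ^ 2 + s - 3, by
    have : s ≤ s ^ 2 := by nlinarith
    omega⟩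
  have hsk : s ^ 2 = 288 * (288 * k ^ 2) := by rw [hk]; ring
  refine ⟨n, ?_, ?_⟩
  · apply Kummer.reduction
    · omega
    · omega
    · intro r hr hr2 hrd
      have hnZ : ((n : ℤ) + 2) = 6 * (s : ℤ) ^ 2 + s - 1 := by
        have : ((n : ℤ) + 3) = 6 * (s : ℤ) ^ 2 + s := by exact_mod_cast hn
        linarith
      have hnZ1 : ((n : ℤ) + 1) = 6 * (s : ℤ) ^ 2 + s - 2 := by linarith
      have hrp : Prime (r : ℤ) := Nat.prime_iff_prime_int.1 hr
      have hrd' : (r : ℤ) ∣ (6 * (s : ℤ) ^ 2 + s - 1) * (6 * (s : ℤ) ^ 2 + s - 2) := by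
        rw [← hnZ, ← hnZ1]
        exact_mod_cast hrd
      have hrQ : ¬ r ∣ Q := by
        intro hrQ
        have hrs : (r : ℤ) ∣ s := by
          have : r ∣ s := by rw [hs]; exact Dvd.dvd.mul_right hrQ t
          exact_mod_cast this
        have h2 : (r : ℤ) ∣ 2 := by
          have e : (2 : ℤ) = (6 * (s : ℤ) ^ 2 + s - 1) * (6 * (s : ℤ) ^ 2 + s - 2) -
            s * ((6 * s + 1) * (6 * (s : ℤ) ^ 2 + s - 3)) := by ring
          rw [e]
          exact dvd_sub hrd' (Dvd.dvd.mul_right hrs _)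
        have h2' : r ∣ 2 := by exact_mod_cast h2
        have := Nat.le_of_dvd (by norm_num) h2'
        have := hr.two_le
        omega
      have h1000 : 1000 < r := by
        by_contra hle
        push Not at hle
        exact hrQ (hsm r hr hle)
      have hcast : ((0 : ℕ) : ℤ) + (Q : ℤ) * t = s := by rw [hs]; push_cast; ring
      have hloc := local_step (s : ℤ) r hr h1000 (by
        intro a b δ hok hrd2
        have := hgood a b δ hok r hr hrQ
        rw [hcast] at this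
        exact this hrd2) hrd'
      rw [← hnZ, ← hnZ1] at hloc
      refine ⟨?_, ?_⟩
      · intro hsq
        apply hloc.1
        exact_mod_cast hsq
      · obtain ⟨j, hj, hjc⟩ := hloc.2
        refine ⟨j, hj, ?_⟩
        exact_mod_cast hjc
  · have : s ≤ s ^ 2 := by nlinarith
    omega

end Pool.Agent.Helper170.Final
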