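import Mathlib

namespace Pool.Agent.Helper170.Mertens

open Finset Real

lemma log_factorial_eq (n : ℕ) :
    Real.log (n.factorial : ℝ) = ∑ p ∈ (Finset.Icc 1 n).filter Nat.Prime,
      (n.factorial.factorization p : ℝ) * Real.log p := by
  rw [Real.log_nat_eq_sum_factorization, Finsupp.sum]
  apply Finset.sum_subset
  · intro p hp
    rw [Nat.support_factorization, Nat.mem_primeFactors] at hp
    rw [Finset.mem_filter, Finset.mem_Icc]
    exact ⟨⟨hp.1.one_lt.le, (hp.1.dvd_factorial).1 hp.2.1⟩, hp.1⟩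
  · intro p _ hp
    rw [Finsupp.notMem_support_iff] at hp
    rw [hp]; simp

lemma fac_lower (n p : ℕ) (hp : p.Prime) : n / p ≤ n.factorial.factorization p := by
  haveI := Fact.mk hp
  rw [Nat.factorization_def _ hp, padicValNat_factorial (p := p) (n := n) (b := Nat.log p n + 2) (by omega)]
  have h : n / p = n / p ^ 1 := by rw [pow_one]
  rw [h]
  exact Finset.single_le_sum (f := fun i => n / p ^ i) (fun _ _ => Nat.zero_le _)
    (by rw [Finset.mem_Ico]; omega)

lemma fac_upper (n p : ℕ) (hp : p.Prime) :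
    ((p : ℝ) - 1) * (n.factorial.factorization p : ℝ) ≤ n := by
  haveI := Fact.mk hp
  rw [Nat.factorization_def _ hp]
  have h := sub_one_mul_padicValNat_factorial (p := p) n
  have h2 : (p - 1) * padicValNat p n.factorial ≤ n := by omega
  have h3 : (((p - 1) * padicValNat p n.factorial : ℕ) : ℝ) ≤ n := by exact_mod_cast h2
  rw [Nat.cast_mul, Nat.cast_sub hp.one_lt.le, Nat.cast_one] at h3
  exact h3

lemma K_bound : ∃ K : ℝ, 0 ≤ K ∧ ∀ n : ℕ, ∑ p ∈ (Finset.Icc 1 n).filter Nat.Prime,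
    Real.log p / (p * (p - 1)) ≤ K := by
  have hs : Summable (fun k : ℕ => 4 * (1 / (k : ℝ) ^ (3/2 : ℝ))) :=
    (Real.summable_one_div_nat_rpow.2 (by norm_num)).mul_left 4
  refine ⟨∑' k : ℕ, 4 * (1 / (k : ℝ) ^ (3/2 : ℝ)), tsum_nonneg (fun k => by positivity), ?_⟩
  intro n
  refine le_trans (Finset.sum_le_sum ?_) (hs.sum_le_tsum ((Finset.Icc 1 n).filter Nat.Prime)
    (fun k _ => by positivity))
  intro p hp
  rw [Finset.mem_filter] at hp
  have hp2 : (2 : ℝ) ≤ p := by exact_mod_cast hp.2.two_le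
  have hp0 : (0 : ℝ) < p := by linarith
  have hlog : Real.log p ≤ 2 * (p : ℝ) ^ (1/2 : ℝ) := by
    have := Real.log_le_rpow_div hp0.le (show (0:ℝ) < 1/2 by norm_num)
    linarith
  have h32 : (p : ℝ) ^ (3/2 : ℝ) * (p : ℝ) ^ (1/2 : ℝ) = p * p := by
    rw [← Real.rpow_add hp0]
    norm_num
    ring
  have h1 : 0 < (p : ℝ) ^ (3/2 : ℝ) := Real.rpow_pos_of_pos hp0 _
  have h2 : 0 < (p : ℝ) ^ (1/2 : ℝ) := Real.rpow_pos_of_pos hp0 _
  rw [mul_one_div, div_le_div_iff₀ (by nlinarith) h1]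
  calc Real.log p * (p : ℝ) ^ (3/2 : ℝ) ≤ 2 * (p : ℝ) ^ (1/2 : ℝ) * (p : ℝ) ^ (3/2 : ℝ) := by
        gcongr
    _ = 2 * (p * p) := by rw [← h32]; ring
    _ ≤ 4 * (p * (p - 1)) := by nlinarith

/-- Mertens first theorem, both bounds, with some constant. -/
theorem sum_log_div : ∃ C : ℝ, ∀ n : ℕ, 1 ≤ n →
    |∑ p ∈ (Finset.Icc 1 n).filter Nat.Prime, Real.log p / p - Real.log n| ≤ C := by
  obtain ⟨K, hK0, hK⟩ := K_bound
  refine ⟨1 + K + Real.log 4, ?_⟩
  intro n hn
  have hn0 : (0 : ℝ) < n := by exact_mod_cast hn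
  set S := ∑ p ∈ (Finset.Icc 1 n).filter Nat.Prime, Real.log p / p with hS
  have hlog4 : 0 ≤ Real.log 4 := Real.log_nonneg (by norm_num)
  -- upper
  have hup : S ≤ Real.log n + Real.log 4 := by
    have h1 : (n : ℝ) * S - Chebyshev.theta n ≤ Real.log (n.factorial : ℝ) := by
      rw [log_factorial_eq, Chebyshev.theta_eq_sum_Icc, hS, Finset.mul_sum]
      have e : ((Finset.Icc 0 ⌊(n:ℝ)⌋₊).filter Nat.Prime) = (Finset.Icc 1 n).filter Nat.Prime := by
        ext p
        simp only [Finset.mem_filter, Finset.mem_Icc, Nat.floor_natCast]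
        constructor
        · rintro ⟨⟨_, h⟩, hp⟩
          exact ⟨⟨hp.one_lt.le, h⟩, hp⟩
        · rintro ⟨⟨_, h⟩, hp⟩
          exact ⟨⟨Nat.zero_le _, h⟩, hp⟩
      rw [e, ← Finset.sum_sub_distrib]
      apply Finset.sum_le_sum
      intro p hp
      rw [Finset.mem_filter] at hp
      have hp0 : (0 : ℝ) < p := by exact_mod_cast hp.2.pos
      have hl : 0 ≤ Real.log p := Real.log_natCast_nonneg p
      have h2 : ((n / p : ℕ) : ℝ) ≤ (n.factorial.factorization p : ℝ) := by
        exact_mod_cast fac_lower n p hp.2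
      have h3 : (n : ℝ) / p - 1 ≤ ((n / p : ℕ) : ℝ) := by
        have := Nat.lt_floor_add_one ((n : ℝ) / p)
        rw [Nat.floor_div_natCast, Nat.floor_natCast] at this
        linarith
      calc (n : ℝ) * (Real.log p / p) - Real.log p = ((n : ℝ) / p - 1) * Real.log p := by
            field_simp
        _ ≤ (n.factorial.factorization p : ℝ) * Real.log p := by
            apply mul_le_mul_of_nonneg_right (h3.trans h2) hl
    have h2 : Chebyshev.theta n ≤ Real.log 4 * n := Chebyshev.theta_le_log4_mul_x hn0.le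
    have h3 : Real.log (n.factorial : ℝ) ≤ n * Real.log n := by
      have : (n.factorial : ℝ) ≤ (n : ℝ) ^ n := by exact_mod_cast Nat.factorial_le_pow n
      have h4 := Real.log_le_log (by exact_mod_cast Nat.factorial_pos n) this
      rwa [Real.log_pow] at h4
    have h5 : (n : ℝ) * S ≤ n * (Real.log n + Real.log 4) := by linarith
    exact le_of_mul_le_mul_left h5 hn0
  have hlow : Real.log n - 1 - K ≤ S := by
    have h1 : Real.log (n.factorial : ℝ) ≤ n * (S + K) := by
      have h2 : Real.log (n.factorial : ℝ) ≤ n * (S + ∑ p ∈ (Finset.Icc 1 n).filter Nat.Prime,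
          Real.log p / (p * (p - 1))) := by
        rw [log_factorial_eq, hS, ← Finset.sum_add_distrib, Finset.mul_sum]
        apply Finset.sum_le_sum
        intro p hp
        rw [Finset.mem_filter] at hp
        have hp2 : (2 : ℝ) ≤ p := by exact_mod_cast hp.2.two_le
        have hp0 : (0 : ℝ) < p := by linarith
        have hp1 : (0 : ℝ) < (p : ℝ) - 1 := by linarith
        have hl : 0 ≤ Real.log p := Real.log_natCast_nonneg p
        have h3 := fac_upper n p hp.2
        have h4 : (n.factorial.factorization p : ℝ) ≤ n / (p - 1) := by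
          rw [le_div_iff₀ hp1]; linarith
        calc (n.factorial.factorization p : ℝ) * Real.log p ≤ n / (p - 1) * Real.log p := by
              gcongr
          _ = n * (Real.log p / p + Real.log p / (p * (p - 1))) := by
              field_simp
              ring
      refine h2.trans ?_
      have := hK n
      gcongr
    have h6 : (n : ℝ) * Real.log n - n ≤ Real.log (n.factorial : ℝ) := by
      have h7 : ((n : ℝ) / Real.exp 1) ^ n ≤ n.factorial := by
        have h8 := Real.pow_div_factorial_le_exp (n : ℝ) hn0.le n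
        rw [div_pow, ← Real.exp_nat_mul, mul_one, div_le_iff₀ (Real.exp_pos _)]
        rw [div_le_iff₀ (by positivity)] at h8
        linarith
      have h9 := Real.log_le_log (by positivity) h7
      rw [Real.log_pow, Real.log_div hn0.ne' (Real.exp_pos _).ne', Real.log_exp] at h9
      linarith
    have h10 : (n : ℝ) * (Real.log n - 1) ≤ n * (S + K) := by linarith
    have := le_of_mul_le_mul_left h10 hn0
    linarith
  rw [abs_le]
  constructor <;> linarith

/-- mass of primes in an interval -/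
noncomputable def M (y z : ℝ) : ℝ :=
  ∑ p ∈ (Finset.Icc 1 ⌊z⌋₊).filter (fun p : ℕ => p.Prime ∧ y < (p : ℝ)), (1 : ℝ) / p

lemma M_self (y : ℝ) (hy : 0 ≤ y) : M y y = 0 := by
  unfold M
  rw [Finset.filter_false_of_mem, Finset.sum_empty]
  intro p hp ⟨_, h⟩
  rw [Finset.mem_Icc] at hp
  have := (Nat.le_floor_iff hy).1 hp.2
  linarith

lemma M_add (x y z : ℝ) : M x z ≤ M x y + M y z := by
  unfold M
  rw [← Finset.sum_filter_add_sum_filter_not
    ((Finset.Icc 1 ⌊z⌋₊).filter (fun p : ℕ => p.Prime ∧ x < (p : ℝ))) (fun p : ℕ => (p : ℝ) ≤ y)]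
  apply add_le_add
  · apply Finset.sum_le_sum_of_subset_of_nonneg
    · intro p hp
      simp only [Finset.mem_filter, Finset.mem_Icc] at hp ⊢
      exact ⟨⟨hp.1.1.1, Nat.le_floor hp.2⟩, hp.1.2⟩
    · intro p _ _; positivity
  · apply Finset.sum_le_sum_of_subset_of_nonneg
    · intro p hp
      simp only [Finset.mem_filter, Finset.mem_Icc, not_le] at hp ⊢
      exact ⟨hp.1.1, hp.1.2.1, hp.2⟩
    · intro p _ _; positivity

lemma M_piece (C : ℝ) (hC : ∀ n : ℕ, 1 ≤ n →
    |∑ p ∈ (Finset.Icc 1 n).filter Nat.Prime, Real.log p / p - Real.log n| ≤ C)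
    (y z : ℝ) (hy : 1 < y) (hyz : y ≤ z) :
    M y z ≤ (Real.log z - Real.log y + (2 * C + 1)) / Real.log y := by
  have hly : 0 < Real.log y := Real.log_pos hy
  have hy0 : 0 < y := by linarith
  have hz0 : 0 < z := by linarith
  rw [le_div_iff₀ hly]
  have hfy : 1 ≤ ⌊y⌋₊ := Nat.le_floor (by simpa using hy.le)
  have hfz : 1 ≤ ⌊z⌋₊ := Nat.le_floor (by simpa using (hy.le.trans hyz))
  have h1 : M y z * Real.log y ≤ ∑ p ∈ (Finset.Icc 1 ⌊z⌋₊).filter (fun p : ℕ => p.Prime ∧ y < (p : ℝ)),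
      Real.log p / p := by
    unfold M
    rw [Finset.sum_mul]
    apply Finset.sum_le_sum
    intro p hp
    simp only [Finset.mem_filter, Finset.mem_Icc] at hp
    have hp0 : (0 : ℝ) < p := by linarith [hp.2.2]
    rw [one_div, inv_mul_eq_div]
    have := Real.log_le_log hy0 hp.2.2.le
    gcongr
  have h2 : ∑ p ∈ (Finset.Icc 1 ⌊z⌋₊).filter (fun p : ℕ => p.Prime ∧ y < (p : ℝ)),
      Real.log p / p + ∑ p ∈ (Finset.Icc 1 ⌊y⌋₊).filter Nat.Prime, Real.log p / p =
      ∑ p ∈ (Finset.Icc 1 ⌊z⌋₊).filter Nat.Prime, Real.log p / p := by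
    rw [← Finset.sum_filter_add_sum_filter_not
      ((Finset.Icc 1 ⌊z⌋₊).filter Nat.Prime) (fun p : ℕ => y < (p : ℝ))]
    congr 1
    · apply Finset.sum_congr _ (fun _ _ => rfl)
      rw [Finset.filter_filter]
    · apply Finset.sum_congr _ (fun _ _ => rfl)
      ext p
      simp only [Finset.mem_filter, Finset.mem_Icc, not_lt]
      constructor
      · rintro ⟨⟨h1, h2⟩, h3⟩
        have h4 := (Nat.le_floor_iff hy0.le).1 h2
        exact ⟨⟨⟨h1, Nat.le_floor (h4.trans hyz)⟩, h3⟩, h4⟩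
      · rintro ⟨⟨⟨h1, h2⟩, h3⟩, h4⟩
        exact ⟨⟨h1, Nat.le_floor h4⟩, h3⟩
  have h3 := (abs_le.1 (hC _ hfz)).2
  have h4 := (abs_le.1 (hC _ hfy)).1
  have h5 : Real.log (⌊z⌋₊ : ℝ) ≤ Real.log z := by
    apply Real.log_le_log
    · exact_mod_cast hfz
    · exact Nat.floor_le hz0.le
  have h6 : Real.log y - 1 ≤ Real.log (⌊y⌋₊ : ℝ) := by
    have e1 : y ≤ 2 * (⌊y⌋₊ : ℝ) := by
      have := Nat.lt_floor_add_one y
      have e2 : (1 : ℝ) ≤ ⌊y⌋₊ := by exact_mod_cast hfy
      linarith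
    have e3 := Real.log_le_log hy0 e1
    rw [Real.log_mul (by norm_num) (by positivity)] at e3
    have e4 : Real.log 2 ≤ 1 := by
      have := Real.log_two_lt_d9
      linarith
    linarith
  linarith

/-- Upper bound of Mertens second theorem on power ranges. -/
theorem mass {a b ε : ℝ} (ha : 0 < a) (hab : a < b) (hε : 0 < ε) :
    ∃ T0 : ℝ, ∀ T : ℝ, T0 ≤ T → 
      ∑ p ∈ (Finset.Icc 1 ⌊T ^ b⌋₊).filter (fun p : ℕ => p.Prime ∧ T ^ a < (p : ℝ)),
        (1 : ℝ) / p ≤ Real.log (b / a) + ε := by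
  obtain ⟨C, hC⟩ := sum_log_div
  have hC0 : 0 ≤ C := (abs_nonneg _).trans (hC 1 le_rfl)
  set L := Real.log (b / a) with hL
  have hb0 : 0 < b := ha.trans hab
  have hL0 : 0 < L := Real.log_pos ((one_lt_div ha).2 hab)
  obtain ⟨n, hn⟩ := exists_nat_gt (max L (2 * L ^ 2 / ε))
  have hn1 : L < n := lt_of_le_of_lt (le_max_left _ _) hn
  have hn2 : 2 * L ^ 2 / ε < n := lt_of_le_of_lt (le_max_right _ _) hn
  have hn0 : (0 : ℝ) < n := hL0.trans hn1
  set ρ := Real.exp (L / n) with hρ
  have hρ1 : 1 ≤ ρ := Real.one_le_exp (by positivity)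
  have hρn : a * ρ ^ n = b := by
    rw [hρ, ← Real.exp_nat_mul, mul_div_cancel₀ _ hn0.ne', hL, Real.exp_log (by positivity)]
    field_simp
  have hρb : n * (ρ - 1) ≤ L + ε / 2 := by
    have h1 : |L / n| ≤ 1 := by
      rw [abs_of_nonneg (by positivity), div_le_one hn0]; exact hn1.le
    have h2 := (abs_le.1 (Real.abs_exp_sub_one_sub_id_le h1)).2
    have h3 : ρ - 1 ≤ L / n + (L / n) ^ 2 := by linarith
    have h4 : n * (ρ - 1) ≤ n * (L / n + (L / n) ^ 2) := by gcongr
    have h5 : n * (L / n + (L / n) ^ 2) = L + L ^ 2 / n := by field_simp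
    have h6 : L ^ 2 / n ≤ ε / 2 := by
      rw [div_lt_iff₀ hε] at hn2
      rw [div_le_iff₀ hn0]
      linarith
    linarith
  refine ⟨max 2 (Real.exp (2 * n * (2 * C + 1) / (a * ε))), ?_⟩
  intro T hT
  have hT2 : 2 ≤ T := (le_max_left _ _).trans hT
  have hTe : Real.exp (2 * n * (2 * C + 1) / (a * ε)) ≤ T := (le_max_right _ _).trans hT
  have hT0 : 0 < T := by linarith
  have hlT : 0 < Real.log T := Real.log_pos (by linarith)
  have hlT2 : 2 * n * (2 * C + 1) / (a * ε) ≤ Real.log T := by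
    rw [Real.le_log_iff_exp_le hT0]; exact hTe
  have key : ∀ i : ℕ, M (T ^ a) (T ^ (a * ρ ^ i)) ≤ i * ((ρ - 1) + (2 * C + 1) / (a * Real.log T)) := by
    intro i
    induction i with
    | zero => simp [M_self _ (Real.rpow_nonneg hT0.le a)]
    | succ i ih =>
      have hρi : 1 ≤ ρ ^ i := one_le_pow₀ hρ1
      have hai : 0 < a * ρ ^ i := by positivity
      have h1 : 1 < T ^ (a * ρ ^ i) := Real.one_lt_rpow (by linarith) hai
      have h2 : T ^ (a * ρ ^ i) ≤ T ^ (a * ρ ^ (i + 1)) := by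
        apply Real.rpow_le_rpow_of_exponent_le (by linarith)
        have : ρ ^ i ≤ ρ ^ (i + 1) := pow_le_pow_right₀ hρ1 (Nat.le_succ i)
        gcongr
      have h3 := M_piece C hC _ _ h1 h2
      rw [Real.log_rpow hT0, Real.log_rpow hT0] at h3
      have h4 : (a * ρ ^ (i + 1) * Real.log T - a * ρ ^ i * Real.log T + (2 * C + 1)) /
          (a * ρ ^ i * Real.log T) ≤ (ρ - 1) + (2 * C + 1) / (a * Real.log T) := by
        have e1 : (a * ρ ^ (i + 1) * Real.log T - a * ρ ^ i * Real.log T + (2 * C + 1)) /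
          (a * ρ ^ i * Real.log T) = (ρ - 1) + (2 * C + 1) / (a * ρ ^ i * Real.log T) := by
          rw [pow_succ]
          field_simp
        rw [e1]
        have e2 : a * Real.log T ≤ a * ρ ^ i * Real.log T := by
          have : a * 1 ≤ a * ρ ^ i := by gcongr
          nlinarith
        gcongr
      have h5 := M_add (T ^ a) (T ^ (a * ρ ^ i)) (T ^ (a * ρ ^ (i + 1)))
      push_cast
      linarith
  have h := key n
  rw [hρn] at h
  have h7 : n * ((ρ - 1) + (2 * C + 1) / (a * Real.log T)) ≤ L + ε := by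
    have e1 : n * ((2 * C + 1) / (a * Real.log T)) ≤ ε / 2 := by
      rw [div_le_iff₀ (by positivity)] at hlT2
      rw [mul_div_assoc', div_le_iff₀ (by positivity)]
      nlinarith
    linarith
  exact h.trans h7

end Pool.Agent.Helper170.Mertens

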