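import Pool.Agent.Helper170.Kummer

namespace Pool.Agent.Helper170.Ruderman

open Nat Finset
open Pool.Agent.Helper170.Kummer

/-- many carries from the congruence `3 m ≡ -2` modulo a high power of `r ≠ 3` -/
lemma carries_three {m r A : ℕ} (hr : r.Prime) (hr3 : r ≠ 3) (h : r ^ (2 * A + 2) ∣ 3 * m + 2) :
    A ≤ (choose (m + m) m).factorization r := by
  have := card_le (m := m) hr ((Finset.Icc 2 (A + 1)).image (fun j => 2 * j)) (by
    intro i hi
    rw [Finset.mem_image] at hi
    obtain ⟨j, hj, rfl⟩ := hi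
    rw [Finset.mem_Icc] at hj
    refine ⟨by omega, ?_⟩
    have hd : r ^ (2 * j) ∣ 3 * m + 2 := (pow_dvd_pow r (by omega)).trans h
    obtain ⟨N, hN⟩ : ∃ N, N = r ^ (2 * j) := ⟨_, rfl⟩
    have hN1 : N % 3 = 1 := by
      have h3 : ¬ 3 ∣ r ^ j := fun hc => by
        have := Nat.prime_three.dvd_of_dvd_pow hc
        exact hr3 ((Nat.prime_dvd_prime_iff_eq Nat.prime_three hr).1 this).symm
      have e : N = (r ^ j) * (r ^ j) := by rw [hN, two_mul, pow_add]
      have h4 : (r ^ j) % 3 = 1 ∨ (r ^ j) % 3 = 2 := by omega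
      rw [e, Nat.mul_mod]
      rcases h4 with h4 | h4 <;> rw [h4]
    have hN4 : 4 ≤ N := by
      rw [hN]
      calc 4 = 2 ^ 2 := by norm_num
        _ ≤ r ^ 2 := Nat.pow_le_pow_left hr.two_le 2
        _ ≤ r ^ (2 * j) := Nat.pow_le_pow_right hr.pos (by omega)
    rw [← hN] at hd ⊢
    have hsplit := Nat.div_add_mod m N
    have hd2 : N ∣ 3 * (m % N) + 2 := by
      have e : 3 * m + 2 = N * (3 * (m / N)) + (3 * (m % N) + 2) := by
        conv_lhs => rw [← hsplit]
        ring
      rw [e] at hd
      exact (Nat.dvd_add_right (Dvd.intro _ rfl)).1 hd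
    obtain ⟨c, hc⟩ := hd2
    have hc3 : c % 3 = 2 := by
      have h5 : (N * c) % 3 = 2 := by rw [← hc]; omega
      rw [Nat.mul_mod, hN1, one_mul, Nat.mod_mod] at h5
      exact h5
    have hc2 : 2 ≤ c := by omega
    have : N * 2 ≤ N * c := Nat.mul_le_mul_left _ hc2
    omega)
  rw [Finset.card_image_of_injective _ (fun a b h => by simpa using h), Nat.card_Icc] at this
  omega

/-- many carries from the congruence `8 m ≡ -7` modulo a high power of `3` -/
lemma carries_eight {m A : ℕ} (h : 3 ^ (2 * A + 2) ∣ 8 * m + 7) :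
    A ≤ (choose (m + m) m).factorization 3 := by
  have := card_le (m := m) Nat.prime_three ((Finset.Icc 2 (A + 1)).image (fun j => 2 * j)) (by
    intro i hi
    rw [Finset.mem_image] at hi
    obtain ⟨j, hj, rfl⟩ := hi
    rw [Finset.mem_Icc] at hj
    refine ⟨by omega, ?_⟩
    have hd : 3 ^ (2 * j) ∣ 8 * m + 7 := (pow_dvd_pow 3 (by omega)).trans h
    obtain ⟨N, hN⟩ : ∃ N, N = 3 ^ (2 * j) := ⟨_, rfl⟩
    have hN1 : N % 8 = 1 := by
      have e : N = 9 ^ j := by rw [hN, pow_mul]; norm_num
      rw [e, Nat.pow_mod]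
      norm_num
    have hN4 : 4 ≤ N := by
      rw [hN]
      calc 4 ≤ 3 ^ 2 := by norm_num
        _ ≤ 3 ^ (2 * j) := Nat.pow_le_pow_right (by norm_num) (by omega)
    rw [← hN] at hd ⊢
    have hsplit := Nat.div_add_mod m N
    have hd2 : N ∣ 8 * (m % N) + 7 := by
      have e : 8 * m + 7 = N * (8 * (m / N)) + (8 * (m % N) + 7) := by
        conv_lhs => rw [← hsplit]
        ring
      rw [e] at hd
      exact (Nat.dvd_add_right (Dvd.intro _ rfl)).1 hd
    obtain ⟨c, hc⟩ := hd2
    have hc3 : c % 8 = 7 := by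
      have h5 : (N * c) % 8 = 7 := by rw [← hc]; omega
      rw [Nat.mul_mod, hN1, one_mul, Nat.mod_mod] at h5
      exact h5
    have hc2 : 7 ≤ c := by omega
    have : N * 7 ≤ N * c := Nat.mul_le_mul_left _ hc2
    omega)
  rw [Finset.card_image_of_injective _ (fun a b h => by simpa using h), Nat.card_Icc] at this
  omega

lemma val_lt {r x e B : ℕ} (hr : r.Prime) (hx : x ≠ 0) (he0 : 0 < e) (he : e < 2 ^ B)
    (h : r ^ B ∣ x → r ^ B ∣ e) : x.factorization r < B := by
  by_contra hcon
  push Not at hcon
  have h1 : r ^ B ∣ x := (hr.pow_dvd_iff_le_factorization hx).2 hcon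
  have h2 := Nat.le_of_dvd he0 (h h1)
  have h3 : 2 ^ B ≤ r ^ B := Nat.pow_le_pow_left hr.two_le B
  omega

/-- carries from `r^v ∣ m + j` -/
lemma val_add {m r v j : ℕ} (hr : r.Prime) (hj : 1 ≤ j) (hrj : 2 * j < r) (h : r ^ v ∣ m + j) :
    v ≤ (choose (m + m) m).factorization r := by
  have := card_le (m := m) hr (Finset.Icc 1 v) (by
    intro i hi
    rw [Finset.mem_Icc] at hi
    refine ⟨hi.1, ?_⟩
    have hd : r ^ i ∣ m + j := (pow_dvd_pow r hi.2).trans h
    obtain ⟨N, hN⟩ : ∃ N, N = r ^ i := ⟨_, rfl⟩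
    have hNr : r ≤ N := by
      rw [hN]
      calc r = r ^ 1 := (pow_one r).symm
        _ ≤ r ^ i := Nat.pow_le_pow_right hr.pos hi.1
    rw [← hN] at hd ⊢
    have hsplit := Nat.div_add_mod m N
    have hd2 : N ∣ m % N + j := by
      have e : m + j = N * (m / N) + (m % N + j) := by
        conv_lhs => rw [← hsplit]
        ring
      rw [e] at hd
      exact (Nat.dvd_add_right (Dvd.intro _ rfl)).1 hd
    have := Nat.le_of_dvd (by omega) hd2
    omega)
  simpa using this

/-- `(m + q)! = m! * ∏ (m + j)` -/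
lemma fact_prod (m q : ℕ) : (m + q)! = m ! * ∏ j ∈ Finset.Icc 1 q, (m + j) := by
  induction q with
  | zero => simp
  | succ q ih =>
    rw [Finset.prod_Icc_succ_top (by omega), ← mul_assoc, ← ih, ← Nat.add_assoc, Nat.factorial_succ, mul_comm]

/-- reduction of the divisibility to local carry conditions; `m = n + 2` -/
theorem reduction {n q R : ℕ} (hR : 2 * q + 5 ≤ R)
    (hsm : ∀ r : ℕ, r.Prime → r ≤ R → r ≠ 3 →
      r ^ (2 * ((4 + q) * (8 * q + 6)) + 2) ∣ 3 * (n + 2) + 2)
    (hsm3 : 3 ^ (2 * ((4 + q) * (8 * q + 6)) + 2) ∣ 8 * (n + 2) + 7)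
    (h : ∀ r : ℕ, r.Prime → R < r → r ∣ (n + 2) * (n + 1) → ¬ r ^ 2 ∣ (n + 2) * (n + 1) ∧
      ∃ j, 1 ≤ j ∧ r ^ j ≤ 2 * ((n + 2) % r ^ j)) :
    (n + 2)! * (n + 2 + q)! ∣ (2 * n)! := by
  obtain ⟨m, hm⟩ : ∃ m, m = n + 2 := ⟨_, rfl⟩
  obtain ⟨D, hD⟩ : ∃ D, D = (2 * n + 4) * (2 * n + 3) * (2 * n + 2) * (2 * n + 1) := ⟨_, rfl⟩
  obtain ⟨P, hP⟩ : ∃ P, P = ∏ j ∈ Finset.Icc 1 q, (m + j) := ⟨_, rfl⟩
  obtain ⟨B, hB⟩ : ∃ B, B = 8 * q + 6 := ⟨_, rfl⟩
  have h2B : 2 ^ B ≥ 64 * (8 * q + 1) := by
    have h1 : 8 * q < 2 ^ (8 * q) := Nat.lt_two_pow_self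
    rw [hB, pow_add]
    norm_num
    omega
  rw [← hm] at hsm hsm3 h ⊢
  have hfac : (2 * n + 4)! = D * (2 * n)! := by
    rw [Nat.factorial_succ, Nat.factorial_succ, Nat.factorial_succ, Nat.factorial_succ, hD]
    ring
  have hC : choose (m + m) m * (m ! * m !) = (2 * n + 4)! := by
    have := Nat.add_choose_mul_factorial_mul_factorial m m
    rw [show m + m = 2 * n + 4 by omega] at this ⊢
    rw [← this]; ring
  have hD0 : D ≠ 0 := by rw [hD]; positivity
  have hP0 : P ≠ 0 := by
    rw [hP]
    exact Finset.prod_ne_zero_iff.2 fun j hj => by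
      have := (Finset.mem_Icc.1 hj).1
      omega
  have hDC : D * P ∣ choose (m + m) m := by
    have hC0 : choose (m + m) m ≠ 0 := (Nat.choose_pos (by omega)).ne'
    rw [← Nat.factorization_prime_le_iff_dvd (mul_ne_zero hD0 hP0) hC0]
    intro r hr
    have hDf : D.factorization r = (2 * n + 4).factorization r + (2 * n + 3).factorization r
        + (2 * n + 2).factorization r + (2 * n + 1).factorization r := by
      rw [hD, Nat.factorization_mul (by positivity) (by positivity),
        Nat.factorization_mul (by positivity) (by positivity),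
        Nat.factorization_mul (by positivity) (by positivity)]
      rfl
    have hPf : P.factorization r = ∑ j ∈ Finset.Icc 1 q, (m + j).factorization r := by
      rw [hP, Nat.factorization_prod fun j hj => by
        have := (Finset.mem_Icc.1 hj).1
        omega]
      exact Finsupp.finset_sum_apply _ _ _
    have hDPf : (D * P).factorization r = D.factorization r + P.factorization r := by
      rw [Nat.factorization_mul hD0 hP0]; rfl
    rw [hDPf, hPf]
    by_cases hrR : r ≤ R
    · -- small primes
      have htot : ∀ (v1 v2 v3 v4 : ℕ) (w : ℕ → ℕ), v1 < B → v2 < B → v3 < B → v4 < B →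
          (∀ j ∈ Finset.Icc 1 q, w j < B) → v1 + v2 + v3 + v4 + ∑ j ∈ Finset.Icc 1 q, w j ≤ (4 + q) * B := by
        intro v1 v2 v3 v4 w h1 h2 h3 h4 hw
        have h5 : ∑ j ∈ Finset.Icc 1 q, w j ≤ ∑ j ∈ Finset.Icc 1 q, B :=
          Finset.sum_le_sum fun j hj => (hw j hj).le
        rw [Finset.sum_const, Nat.card_Icc, smul_eq_mul] at h5
        have h6 : (q + 1 - 1) * B = q * B := by rw [Nat.add_sub_cancel]
        rw [h6] at h5
        have h7 : (4 + q) * B = 4 * B + q * B := by ring
        rw [h7]
        omega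
      have hBA : B ≤ 2 * ((4 + q) * (8 * q + 6)) + 2 := by
        have : 1 * (8 * q + 6) ≤ (4 + q) * (8 * q + 6) := Nat.mul_le_mul_right _ (by omega)
        omega
      rw [hDf]
      by_cases hr3 : r = 3
      · subst hr3
        have hcar := carries_eight hsm3
        rw [← hB] at hcar
        have hdB : 3 ^ B ∣ 8 * m + 7 := (pow_dvd_pow 3 hBA).trans hsm3
        refine le_trans (htot _ _ _ _ _ ?_ ?_ ?_ ?_ ?_) hcar
        · refine val_lt (e := 14) hr (by omega) (by norm_num) (by omega) fun hx => ?_
          have e : 2 * (8 * m + 7) = 8 * (2 * n + 4) + 14 := by rw [hm]; ring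
          exact (Nat.dvd_add_right (Dvd.dvd.mul_left hx 8)).1 (e ▸ Dvd.dvd.mul_left hdB 2)
        · refine val_lt (e := 22) hr (by omega) (by norm_num) (by omega) fun hx => ?_
          have e : 2 * (8 * m + 7) = 8 * (2 * n + 3) + 22 := by rw [hm]; ring
          exact (Nat.dvd_add_right (Dvd.dvd.mul_left hx 8)).1 (e ▸ Dvd.dvd.mul_left hdB 2)
        · refine val_lt (e := 30) hr (by omega) (by norm_num) (by omega) fun hx => ?_
          have e : 2 * (8 * m + 7) = 8 * (2 * n + 2) + 30 := by rw [hm]; ring
          exact (Nat.dvd_add_right (Dvd.dvd.mul_left hx 8)).1 (e ▸ Dvd.dvd.mul_left hdB 2)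
        · refine val_lt (e := 38) hr (by omega) (by norm_num) (by omega) fun hx => ?_
          have e : 2 * (8 * m + 7) = 8 * (2 * n + 1) + 38 := by rw [hm]; ring
          exact (Nat.dvd_add_right (Dvd.dvd.mul_left hx 8)).1 (e ▸ Dvd.dvd.mul_left hdB 2)
        · intro j hj
          rw [Finset.mem_Icc] at hj
          refine val_lt (e := 8 * j - 7) hr (by omega) (by omega) (by omega) fun hx => ?_
          have e : 8 * (m + j) = (8 * m + 7) + (8 * j - 7) := by omega
          exact (Nat.dvd_add_right hdB).1 (e ▸ Dvd.dvd.mul_left hx 8)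
      · have hsmr := hsm r hr hrR hr3
        have hcar := carries_three hr hr3 hsmr
        rw [← hB] at hcar
        have hdB : r ^ B ∣ 3 * m + 2 := (pow_dvd_pow r hBA).trans hsmr
        refine le_trans (htot _ _ _ _ _ ?_ ?_ ?_ ?_ ?_) hcar
        · refine val_lt (e := 4) hr (by omega) (by norm_num) (by omega) fun hx => ?_
          have e : 2 * (3 * m + 2) = 3 * (2 * n + 4) + 4 := by rw [hm]; ring
          exact (Nat.dvd_add_right (Dvd.dvd.mul_left hx 3)).1 (e ▸ Dvd.dvd.mul_left hdB 2)
        · refine val_lt (e := 7) hr (by omega) (by norm_num) (by omega) fun hx => ?_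
          have e : 2 * (3 * m + 2) = 3 * (2 * n + 3) + 7 := by rw [hm]; ring
          exact (Nat.dvd_add_right (Dvd.dvd.mul_left hx 3)).1 (e ▸ Dvd.dvd.mul_left hdB 2)
        · refine val_lt (e := 10) hr (by omega) (by norm_num) (by omega) fun hx => ?_
          have e : 2 * (3 * m + 2) = 3 * (2 * n + 2) + 10 := by rw [hm]; ring
          exact (Nat.dvd_add_right (Dvd.dvd.mul_left hx 3)).1 (e ▸ Dvd.dvd.mul_left hdB 2)
        · refine val_lt (e := 13) hr (by omega) (by norm_num) (by omega) fun hx => ?_
          have e : 2 * (3 * m + 2) = 3 * (2 * n + 1) + 13 := by rw [hm]; ring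
          exact (Nat.dvd_add_right (Dvd.dvd.mul_left hx 3)).1 (e ▸ Dvd.dvd.mul_left hdB 2)
        · intro j hj
          rw [Finset.mem_Icc] at hj
          refine val_lt (e := 3 * j - 2) hr (by omega) (by omega) (by omega) fun hx => ?_
          have e : 3 * (m + j) = (3 * m + 2) + (3 * j - 2) := by omega
          exact (Nat.dvd_add_right hdB).1 (e ▸ Dvd.dvd.mul_left hx 3)
    · -- large primes
      push Not at hrR
      have zero : ∀ a : ℕ, ¬ r ∣ a → a.factorization r = 0 := fun a ha =>
        Nat.factorization_eq_zero_of_not_dvd ha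
      have sub : ∀ a b : ℕ, r ∣ a → r ∣ b → a < b → b < a + r → False := by
        intro a b ha hb hab hab'
        have := Nat.dvd_sub hb ha
        have := Nat.le_of_dvd (by omega) this
        omega
      by_cases hPr : ∃ j0 ∈ Finset.Icc 1 q, r ∣ m + j0
      · obtain ⟨j0, hj0, hrj⟩ := hPr
        have hj0' := Finset.mem_Icc.1 hj0
        have hr2 : r ∣ 2 * (m + j0) := Dvd.dvd.mul_left hrj 2
        have z1 := zero (2 * n + 4) (fun c => sub _ _ c hr2 (by omega) (by omega))
        have z2 := zero (2 * n + 3) (fun c => sub _ _ c hr2 (by omega) (by omega))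
        have z3 := zero (2 * n + 2) (fun c => sub _ _ c hr2 (by omega) (by omega))
        have z4 := zero (2 * n + 1) (fun c => sub _ _ c hr2 (by omega) (by omega))
        have hsum : ∑ j ∈ Finset.Icc 1 q, (m + j).factorization r = (m + j0).factorization r := by
          refine Finset.sum_eq_single_of_mem j0 hj0 fun j hj hne => ?_
          have hj' := Finset.mem_Icc.1 hj
          refine zero _ fun c => ?_
          rcases lt_or_gt_of_ne hne with hlt | hlt
          · exact sub _ _ c hrj (by omega) (by omega)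
          · exact sub _ _ hrj c (by omega) (by omega)
        rw [hDf, z1, z2, z3, z4, hsum]
        have := val_add (m := m) (v := (m + j0).factorization r) hr hj0'.1 (by omega) (Nat.ordProj_dvd _ _)
        omega
      push Not at hPr
      have hsum : ∑ j ∈ Finset.Icc 1 q, (m + j).factorization r = 0 :=
        Finset.sum_eq_zero fun j hj => zero _ (hPr j hj)
      rw [hsum, add_zero]
      have hcoef : ∀ a : ℕ, a ≠ 0 → (2 * a).factorization r = a.factorization r := by
        intro a ha
        rw [Nat.factorization_mul (by norm_num) ha]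
        have : (2 : ℕ).factorization r = 0 := zero _ (fun h => by
          have := Nat.le_of_dvd (by norm_num) h
          omega)
        simp [this]
      have hmn : m = n + 2 := hm
      by_cases c1 : r ∣ 2 * n + 4
      · have d1 : r ∣ m := by
          have : r ∣ 2 * m := by rw [show 2 * m = 2 * n + 4 by omega]; exact c1
          rcases hr.dvd_mul.1 this with h' | h'
          · exact absurd (Nat.le_of_dvd (by norm_num) h') (by omega)
          · exact h'
        obtain ⟨hs, j, hj, hjc⟩ := h r hr hrR (Dvd.dvd.mul_right d1 _)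
        have hv : m.factorization r ≤ 1 := by
          by_contra hgt
          push Not at hgt
          apply hs
          exact Dvd.dvd.mul_right ((hr.pow_dvd_iff_le_factorization (by omega)).2 hgt) _
        have z2 := zero (2 * n + 3) (fun c => sub _ _ c c1 (by omega) (by omega))
        have z3 := zero (2 * n + 2) (fun c => sub _ _ c c1 (by omega) (by omega))
        have z4 := zero (2 * n + 1) (fun c => sub _ _ c c1 (by omega) (by omega))
        have z1 : (2 * n + 4).factorization r = m.factorization r := by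
          rw [show 2 * n + 4 = 2 * m by omega, hcoef _ (by omega)]
        rw [hDf, z1, z2, z3, z4]
        have := val_carry hr hj hjc
        omega
      by_cases c2 : r ∣ 2 * n + 3
      · have z1 := zero (2 * n + 4) c1
        have z3 := zero (2 * n + 2) (fun c => sub _ _ c c2 (by omega) (by omega))
        have z4 := zero (2 * n + 1) (fun c => sub _ _ c c2 (by omega) (by omega))
        rw [hDf, z1, z3, z4]
        have := val_one (m := m) (v := (2 * n + 3).factorization r) hr (by omega) (by
          rw [show 2 * m - 1 = 2 * n + 3 by omega]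
          exact Nat.ordProj_dvd _ _)
        omega
      by_cases c3 : r ∣ 2 * n + 2
      · have d1 : r ∣ n + 1 := by
          have : r ∣ 2 * (n + 1) := by rw [show 2 * (n + 1) = 2 * n + 2 by ring]; exact c3
          rcases hr.dvd_mul.1 this with h' | h'
          · exact absurd (Nat.le_of_dvd (by norm_num) h') (by omega)
          · exact h'
        obtain ⟨hs, j, hj, hjc⟩ := h r hr hrR (Dvd.dvd.mul_left d1 _)
        have hv : (n + 1).factorization r ≤ 1 := by
          by_contra hgt
          push Not at hgt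
          apply hs
          exact Dvd.dvd.mul_left ((hr.pow_dvd_iff_le_factorization (by omega)).2 hgt) _
        have z1 := zero (2 * n + 4) c1
        have z2 := zero (2 * n + 3) c2
        have z4 := zero (2 * n + 1) (fun c => sub _ _ c c3 (by omega) (by omega))
        have z3 : (2 * n + 2).factorization r = (n + 1).factorization r := by
          rw [show 2 * n + 2 = 2 * (n + 1) by ring, hcoef _ (by omega)]
        rw [hDf, z1, z2, z3, z4]
        have := val_carry hr hj hjc
        omega
      by_cases c4 : r ∣ 2 * n + 1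
      · rw [hDf, zero _ c1, zero _ c2, zero _ c3]
        have := val_three (m := m) (v := (2 * n + 1).factorization r) hr (by omega) (by omega) (by
          rw [show 2 * m - 3 = 2 * n + 1 by omega]
          exact Nat.ordProj_dvd _ _)
        omega
      · rw [hDf, zero _ c1, zero _ c2, zero _ c3, zero _ c4]
        omega
  obtain ⟨w, hw⟩ := hDC
  refine ⟨w, ?_⟩
  have : D * (2 * n)! = D * (m ! * (m + q)! * w) := by
    rw [← hfac, ← hC, hw, fact_prod, ← hP]; ring
  exact Nat.eq_of_mul_eq_mul_left (Nat.pos_of_ne_zero hD0) this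

end Pool.Agent.Helper170.Ruderman
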