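import Pool.Agent.Helper170.Final
import Pool.Agent.Helper170.RudermanRed

namespace Pool.Agent.Helper170.Ruderman

open Nat Finset
open Pool.Agent.Helper170.Core Pool.Agent.Helper170.Final

/-- the modulus and the residue class of `s` -/
lemma exists_class (R A : ℕ) (hR : 3 ≤ R) (hA : 1 ≤ A) :
    ∃ s0 Q : ℕ, 0 < Q ∧ (∀ r : ℕ, r.Prime → r ≤ R → r ∣ Q) ∧ (∀ r : ℕ, r.Prime → R < r → ¬ r ∣ Q) ∧
      (∀ r : ℕ, r.Prime → r ≤ R → r ≠ 3 → r ^ A ∣ Q ∧ r ^ A ∣ 3 * s0 + 1) ∧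
      3 ^ A ∣ Q ∧ 3 ^ A ∣ 4 * s0 + 1 := by
  classical
  obtain ⟨S, hS⟩ : ∃ S : Finset ℕ, S = (Finset.Icc 1 R).filter (fun r => r.Prime ∧ r ≠ 3) := ⟨_, rfl⟩
  obtain ⟨L, hL⟩ : ∃ L : ℕ, L = ∏ r ∈ S, r := ⟨_, rfl⟩
  obtain ⟨M, hM⟩ : ∃ M : ℕ, M = L ^ A := ⟨_, rfl⟩
  have hSp : ∀ r ∈ S, r.Prime ∧ r ≤ R ∧ r ≠ 3 := by
    intro r hr
    rw [hS, Finset.mem_filter, Finset.mem_Icc] at hr
    exact ⟨hr.2.1, hr.1.2, hr.2.2⟩
  have hLpr : ∀ r : ℕ, r.Prime → r ∣ L → r ∈ S := by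
    intro r hr hd
    rw [hL] at hd
    obtain ⟨a, ha, hra⟩ := (hr.prime.dvd_finsetProd_iff _).1 hd
    rwa [(Nat.prime_dvd_prime_iff_eq hr (hSp a ha).1).1 hra]
  have hL0 : 0 < L := by
    rw [hL]
    exact Finset.prod_pos fun r hr => (hSp r hr).1.pos
  have hM0 : 0 < M := by rw [hM]; exact pow_pos hL0 A
  have hrM : ∀ r : ℕ, r.Prime → r ≤ R → r ≠ 3 → r ^ A ∣ M := by
    intro r hr hle hne
    rw [hM]
    refine pow_dvd_pow_of_dvd ?_ A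
    rw [hL]
    refine Finset.dvd_prod_of_mem _ ?_
    rw [hS, Finset.mem_filter, Finset.mem_Icc]
    exact ⟨⟨hr.one_le, hle⟩, hr, hne⟩
  have hcop : Nat.Coprime M (3 ^ A) := by
    rw [hM]
    refine Nat.Coprime.pow _ _ ?_
    refine ((Nat.Prime.coprime_iff_not_dvd Nat.prime_three).2 fun hd => ?_).symm
    exact (hSp 3 (hLpr 3 Nat.prime_three hd)).2.2 rfl
  have hM3 : ¬ 3 ∣ M := by
    intro hd
    rw [hM] at hd
    exact (hSp 3 (hLpr 3 Nat.prime_three (Nat.prime_three.dvd_of_dvd_pow hd))).2.2 rfl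
  obtain ⟨u, hu⟩ : ∃ u, M ∣ 3 * u + 1 := by
    rcases (by omega : M % 3 = 1 ∨ M % 3 = 2) with h | h
    · exact ⟨(M - 1) / 3, 1, by omega⟩
    · exact ⟨(2 * M - 1) / 3, 2, by omega⟩
  obtain ⟨w, hw⟩ : ∃ w, 3 ^ A ∣ 4 * w + 1 := by
    obtain ⟨T, hT⟩ : ∃ T, T = 3 ^ A := ⟨_, rfl⟩
    have h4 : T % 4 = 1 ∨ T % 4 = 3 := by
      have hodd : T % 2 = 1 := by
        rw [hT, Nat.pow_mod]
        norm_num
      omega
    rw [← hT]
    rcases h4 with h | h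
    · exact ⟨(T - 1) / 4, 1, by omega⟩
    · exact ⟨(3 * T - 1) / 4, 3, by omega⟩
  obtain ⟨s0, hs1, hs2⟩ := Nat.chineseRemainder hcop u w
  refine ⟨s0, M * 3 ^ A, by positivity, ?_, ?_, ?_, Dvd.intro_left _ rfl, ?_⟩
  · intro r hr hle
    by_cases h3 : r = 3
    · rw [h3]
      exact Dvd.dvd.mul_left (dvd_pow_self 3 (by omega)) M
    · exact Dvd.dvd.mul_right ((dvd_pow_self r (by omega)).trans (hrM r hr hle h3)) _
  · intro r hr hlt hd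
    rcases hr.dvd_mul.1 hd with h | h
    · rw [hM] at h
      have := (hSp r (hLpr r hr (hr.dvd_of_dvd_pow h))).2.1
      omega
    · have := (Nat.prime_dvd_prime_iff_eq hr Nat.prime_three).1 (hr.dvd_of_dvd_pow h)
      omega
  · intro r hr hle h3
    refine ⟨Dvd.dvd.mul_right (hrM r hr hle h3) _, (hrM r hr hle h3).trans ?_⟩
    have h1 : 3 * s0 + 1 ≡ 3 * u + 1 [MOD M] := (hs1.mul_left 3).add_right 1
    exact (h1.dvd_iff (dvd_refl M)).2 hu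
  · have h1 : 4 * s0 + 1 ≡ 4 * w + 1 [MOD 3 ^ A] := (hs2.mul_left 4).add_right 1
    exact (h1.dvd_iff (dvd_refl _)).2 hw

/-- for every `q` there are arbitrarily large `n` with `(n+2)! (n+2+q)! ∣ (2n)!` -/
theorem exists_large (q N : ℕ) : ∃ n : ℕ, N < n ∧ (n + 2)! * (n + 2 + q)! ∣ (2 * n)! := by
  obtain ⟨R, hRd⟩ : ∃ R, R = 1000 + (2 * q + 5) := ⟨_, rfl⟩
  obtain ⟨A, hAd⟩ : ∃ A, A = 2 * ((4 + q) * (8 * q + 6)) + 2 := ⟨_, rfl⟩
  obtain ⟨s0, Q, hQ0, hQ1, hQ2, hQ3, hQ4, hQ5⟩ := exists_class R A (by omega) (by omega)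
  have hsm : ∀ r : ℕ, r.Prime → r ≤ 1000 → r ∣ Q := fun r hr hle => hQ1 r hr (by omega)
  obtain ⟨t, htN, ht1, hgood⟩ := core s0 Q hQ0 hsm (N + 3)
  obtain ⟨s, hs⟩ : ∃ s, s = s0 + Q * t := ⟨_, rfl⟩
  have hst : t ≤ s := by
    have : 1 * t ≤ Q * t := Nat.mul_le_mul_right _ hQ0
    omega
  have hs1 : 1 ≤ s := le_trans ht1 hst
  have hss : s ≤ s ^ 2 := by nlinarith
  obtain ⟨n, hn⟩ : ∃ n : ℕ, n + 3 = 6 * s ^ 2 + s := ⟨6 * s ^ 2 + s - 3, by omega⟩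
  refine ⟨n, by omega, reduction (R := R) (by omega) ?_ ?_ ?_⟩
  · intro r hr hle h3
    obtain ⟨h1, h2⟩ := hQ3 r hr hle h3
    rw [← hAd]
    have e1 : 3 * s + 1 = (3 * s0 + 1) + 3 * (Q * t) := by rw [hs]; ring
    have h4 : r ^ A ∣ 3 * s + 1 := by
      rw [e1]
      exact dvd_add h2 (Dvd.dvd.mul_left (Dvd.dvd.mul_right h1 t) 3)
    obtain ⟨s', hs'⟩ : ∃ s', s = s' + 1 := ⟨s - 1, by omega⟩
    have e2 : 3 * (n + 2) + 2 = (3 * s + 1) * (6 * s' + 5) := by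
      have : 3 * (n + 3) = 3 * (6 * s ^ 2 + s) := by rw [hn]
      rw [hs'] at this ⊢
      nlinarith
    rw [e2]
    exact Dvd.dvd.mul_right h4 _
  · rw [← hAd]
    have e1 : 4 * s + 1 = (4 * s0 + 1) + 4 * (Q * t) := by rw [hs]; ring
    have h4 : 3 ^ A ∣ 4 * s + 1 := by
      rw [e1]
      exact dvd_add hQ5 (Dvd.dvd.mul_left (Dvd.dvd.mul_right hQ4 t) 4)
    obtain ⟨s', hs'⟩ : ∃ s', s = s' + 1 := ⟨s - 1, by omega⟩
    have e2 : 8 * (n + 2) + 7 = (4 * s + 1) * (12 * s' + 11) := by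
      have : 8 * (n + 3) = 8 * (6 * s ^ 2 + s) := by rw [hn]
      rw [hs'] at this ⊢
      nlinarith
    rw [e2]
    exact Dvd.dvd.mul_right h4 _
  · intro r hr hRr hrd
    have hnZ : ((n : ℤ) + 2) = 6 * (s : ℤ) ^ 2 + s - 1 := by
      have : ((n : ℤ) + 3) = 6 * (s : ℤ) ^ 2 + s := by exact_mod_cast hn
      linarith
    have hnZ1 : ((n : ℤ) + 1) = 6 * (s : ℤ) ^ 2 + s - 2 := by linarith
    have hrd' : (r : ℤ) ∣ (6 * (s : ℤ) ^ 2 + s - 1) * (6 * (s : ℤ) ^ 2 + s - 2) := by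
      rw [← hnZ, ← hnZ1]
      exact_mod_cast hrd
    have hrQ : ¬ r ∣ Q := hQ2 r hr hRr
    have hcast : (s0 : ℤ) + (Q : ℤ) * t = s := by rw [hs]; push_cast; ring
    have hloc := local_step (s : ℤ) r hr (by omega) (by
      intro a b δ hok hrd2
      have := hgood a b δ hok r hr hrQ
      rw [hcast] at this
      exact this hrd2) hrd'
    rw [← hnZ, ← hnZ1] at hloc
    refine ⟨?_, ?_⟩
    · intro hsq
      apply hloc.1
      exact_mod_cast hsq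
    · obtain ⟨j, hj, hjc⟩ := hloc.2
      refine ⟨j, hj, ?_⟩
      exact_mod_cast hjc

/-- Ruderman's question for `p ≤ 4` and all `q`: infinitely many `n` -/
theorem ruderman_four (p q : ℕ) (hp : p ≤ 4) :
    Set.Infinite {n : ℕ | 0 < n ∧ p ≤ 2 * n ∧ n ! * (n + q)! ∣ (2 * n - p)!} := by
  rw [Set.infinite_iff_exists_gt]
  intro N
  obtain ⟨n, hn, hd⟩ := exists_large q N
  refine ⟨n + 2, ⟨by omega, by omega, ?_⟩, by omega⟩
  exact hd.trans (Nat.factorial_dvd_factorial (by omega))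

end Pool.Agent.Helper170.Ruderman
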